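import Pool.Agent.Lib.MP_98850d_an.Bd.Spec

/-!
# `S_Bal`: flows of `ℝ^d` supported in a ball
-/

set_option autoImplicit false

namespace Pool.Agent.MP98850d.Bd

universe u v w

open Set Filter Topology Bundle

namespace BalAux

variable {E : Type} [NormedAddCommGroup E] [NormedSpace ℝ E]

/-- `√(1 + ‖y‖^2)`. -/
noncomputable def A (y : E) : ℝ := √(1 + ‖y‖ ^ 2)

theorem A_pos (y : E) : 0 < A y := Real.sqrt_pos.2 (by positivity)

theorem A_sq (y : E) : A y ^ 2 = 1 + ‖y‖ ^ 2 := Real.sq_sqrt (by positivity)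

theorem norm_le_A (y : E) : ‖y‖ ≤ A y := by
  refine Real.le_sqrt_of_sq_le ?_
  linarith

theorem A_cont : Continuous (A : E → ℝ) :=
  (continuous_const.add (continuous_norm.pow 2)).sqrt

theorem A_add (y w : E) : A (y + w) ≤ A y + ‖w‖ := by
  refine Real.sqrt_le_iff.2 ⟨add_nonneg (A_pos y).le (norm_nonneg w), ?_⟩
  have h1 := A_sq y
  have h2 : ‖y + w‖ ≤ ‖y‖ + ‖w‖ := norm_add_le y w
  have h3 : ‖y + w‖ ^ 2 ≤ (‖y‖ + ‖w‖) ^ 2 := pow_le_pow_left₀ (norm_nonneg _) h2 2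
  have h4 : ‖y‖ * ‖w‖ ≤ A y * ‖w‖ := mul_le_mul_of_nonneg_right (norm_le_A y) (norm_nonneg w)
  nlinarith

theorem A_sub (y w : E) : |A y - A (y + w)| ≤ ‖w‖ := by
  rw [abs_sub_le_iff]
  constructor
  · have h1 := A_add (y + w) (-w)
    rw [add_neg_cancel_right, norm_neg] at h1
    linarith
  · have h1 := A_add y w
    linarith

/-- `κ`, the homeomorphism of `E` onto the ball. -/
noncomputable def ka (c : E) (ρ : ℝ) (y : E) : E := c + (ρ * (A y)⁻¹) • y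

/-- `√(ρ^2 - ‖z - c‖^2)`. -/
noncomputable def sg (c : E) (ρ : ℝ) (z : E) : ℝ := √(ρ ^ 2 - ‖z - c‖ ^ 2)

/-- The inverse. -/
noncomputable def kb (c : E) (ρ : ℝ) (z : E) : E := (sg c ρ z)⁻¹ • (z - c)

theorem sg_pos {c : E} {ρ : ℝ} {z : E} (hz : z ∈ Metric.ball c ρ) : 0 < sg c ρ z := by
  rw [mem_ball_iff_norm] at hz
  refine Real.sqrt_pos.2 ?_
  have := norm_nonneg (z - c)
  nlinarith

theorem sg_zero {c : E} {ρ : ℝ} (hρ : 0 < ρ) {z : E} (hz : z ∉ Metric.ball c ρ) :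
    sg c ρ z = 0 := by
  rw [mem_ball_iff_norm, not_lt] at hz
  refine Real.sqrt_eq_zero_of_nonpos ?_
  nlinarith

theorem sg_cont (c : E) (ρ : ℝ) : Continuous (sg c ρ) :=
  (continuous_const.sub ((continuous_id.sub continuous_const).norm.pow 2)).sqrt

theorem ka_cont (c : E) (ρ : ℝ) : Continuous (ka c ρ) :=
  continuous_const.add ((continuous_const.mul (A_cont.inv₀ fun y => (A_pos y).ne')).smul
    continuous_id)

theorem ka_sub_norm {c : E} {ρ : ℝ} (hρ : 0 < ρ) (y : E) :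
    ‖ka c ρ y - c‖ ^ 2 = ρ ^ 2 * (‖y‖ ^ 2 * ((A y) ^ 2)⁻¹) := by
  have h1 : ka c ρ y - c = (ρ * (A y)⁻¹) • y := by
    unfold ka
    rw [add_sub_cancel_left]
  have h2 : 0 ≤ ρ * (A y)⁻¹ := mul_nonneg hρ.le (inv_nonneg.2 (A_pos y).le)
  rw [h1, norm_smul, Real.norm_eq_abs, abs_of_nonneg h2]
  rw [mul_pow, mul_pow, inv_pow]
  ring

theorem sg_ka {c : E} {ρ : ℝ} (hρ : 0 < ρ) (y : E) : sg c ρ (ka c ρ y) = ρ * (A y)⁻¹ := by
  have h2 : 0 ≤ ρ * (A y)⁻¹ := mul_nonneg hρ.le (inv_nonneg.2 (A_pos y).le)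
  have h3 : ρ ^ 2 - ‖ka c ρ y - c‖ ^ 2 = (ρ * (A y)⁻¹) ^ 2 := by
    rw [ka_sub_norm hρ, mul_pow, inv_pow]
    have h4 := A_sq y
    have h5 : A y ≠ 0 := (A_pos y).ne'
    have h6 : ‖y‖ ^ 2 = A y ^ 2 - 1 := by linarith
    rw [h6]
    field_simp
    ring
  unfold sg
  rw [h3, Real.sqrt_sq h2]

theorem ka_mem {c : E} {ρ : ℝ} (hρ : 0 < ρ) (y : E) : ka c ρ y ∈ Metric.ball c ρ := by
  by_contra h
  have h1 := sg_zero hρ h
  rw [sg_ka hρ] at h1
  exact (mul_pos hρ (inv_pos.2 (A_pos y))).ne' h1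

theorem kb_ka {c : E} {ρ : ℝ} (hρ : 0 < ρ) (y : E) : kb c ρ (ka c ρ y) = y := by
  have h1 : ka c ρ y - c = (ρ * (A y)⁻¹) • y := by
    unfold ka
    rw [add_sub_cancel_left]
  unfold kb
  rw [sg_ka hρ, h1, smul_smul, inv_mul_cancel₀ (mul_pos hρ (inv_pos.2 (A_pos y))).ne', one_smul]

theorem A_kb {c : E} {ρ : ℝ} (hρ : 0 < ρ) {z : E} (hz : z ∈ Metric.ball c ρ) :
    A (kb c ρ z) = ρ * (sg c ρ z)⁻¹ := by
  have hs := sg_pos hz
  have h1 : ‖kb c ρ z‖ ^ 2 = ‖z - c‖ ^ 2 * ((sg c ρ z) ^ 2)⁻¹ := by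
    unfold kb
    rw [norm_smul, Real.norm_eq_abs, abs_of_nonneg (inv_nonneg.2 hs.le), mul_pow, inv_pow]
    ring
  have h2 : (sg c ρ z) ^ 2 = ρ ^ 2 - ‖z - c‖ ^ 2 := by
    refine Real.sq_sqrt ?_
    rw [mem_ball_iff_norm] at hz
    have := norm_nonneg (z - c)
    nlinarith
  have h3 : 1 + ‖kb c ρ z‖ ^ 2 = (ρ * (sg c ρ z)⁻¹) ^ 2 := by
    have h4 : ‖z - c‖ ^ 2 = ρ ^ 2 - sg c ρ z ^ 2 := by linarith
    rw [h1, h4, mul_pow, inv_pow]
    have h5 : sg c ρ z ≠ 0 := hs.ne'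
    field_simp
    ring
  unfold A
  rw [h3, Real.sqrt_sq (mul_nonneg hρ.le (inv_nonneg.2 hs.le))]

theorem ka_kb {c : E} {ρ : ℝ} (hρ : 0 < ρ) {z : E} (hz : z ∈ Metric.ball c ρ) :
    ka c ρ (kb c ρ z) = z := by
  have hs := sg_pos hz
  unfold ka
  rw [A_kb hρ hz]
  unfold kb
  rw [smul_smul]
  have h1 : ρ * (ρ * (sg c ρ z)⁻¹)⁻¹ * (sg c ρ z)⁻¹ = 1 := by
    have := hs.ne'
    have := hρ.ne'
    field_simp
  rw [h1, one_smul, add_sub_cancel]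

/-- The estimate. -/
theorem est {c : E} {ρ : ℝ} (hρ : 0 < ρ) (y w : E) :
    ‖ka c ρ (y + w) - ka c ρ y‖ ≤ 2 * ‖w‖ * (ρ * (A y)⁻¹) := by
  have h1 : ka c ρ (y + w) - ka c ρ y =
      ρ • (((A y - A (y + w)) * ((A y)⁻¹ * (A (y + w))⁻¹)) • (y + w) + (A y)⁻¹ • w) := by
    unfold ka
    have h2 : (A y - A (y + w)) * ((A y)⁻¹ * (A (y + w))⁻¹) = (A (y + w))⁻¹ - (A y)⁻¹ := by
      have := (A_pos y).ne'
      have := (A_pos (y + w)).ne'
      field_simp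
    rw [h2]
    module
  have hA := A_pos y
  have hB := A_pos (y + w)
  have h3 : ‖((A y - A (y + w)) * ((A y)⁻¹ * (A (y + w))⁻¹)) • (y + w)‖ ≤ ‖w‖ * (A y)⁻¹ := by
    rw [norm_smul, Real.norm_eq_abs, abs_mul, abs_of_nonneg
      (mul_nonneg (inv_nonneg.2 hA.le) (inv_nonneg.2 hB.le))]
    have h4 : (A (y + w))⁻¹ * ‖y + w‖ ≤ 1 := by
      rw [inv_mul_le_iff₀ hB, mul_one]
      exact norm_le_A _
    calc |A y - A (y + w)| * ((A y)⁻¹ * (A (y + w))⁻¹) * ‖y + w‖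
        = |A y - A (y + w)| * (A y)⁻¹ * ((A (y + w))⁻¹ * ‖y + w‖) := by ring
      _ ≤ |A y - A (y + w)| * (A y)⁻¹ * 1 :=
          mul_le_mul_of_nonneg_left h4 (mul_nonneg (abs_nonneg _) (inv_nonneg.2 hA.le))
      _ ≤ ‖w‖ * (A y)⁻¹ := by
          rw [mul_one]
          exact mul_le_mul_of_nonneg_right (A_sub y w) (inv_nonneg.2 hA.le)
  have h5 : ‖(A y)⁻¹ • w‖ = (A y)⁻¹ * ‖w‖ := by
    rw [norm_smul, Real.norm_eq_abs, abs_of_nonneg (inv_nonneg.2 hA.le)]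
  rw [h1, norm_smul, Real.norm_eq_abs, abs_of_nonneg hρ.le]
  have h6 := norm_add_le (((A y - A (y + w)) * ((A y)⁻¹ * (A (y + w))⁻¹)) • (y + w)) ((A y)⁻¹ • w)
  rw [h5] at h6
  calc ρ * ‖((A y - A (y + w)) * ((A y)⁻¹ * (A (y + w))⁻¹)) • (y + w) + (A y)⁻¹ • w‖
      ≤ ρ * (‖w‖ * (A y)⁻¹ + (A y)⁻¹ * ‖w‖) := mul_le_mul_of_nonneg_left (by linarith) hρ.le
    _ = 2 * ‖w‖ * (ρ * (A y)⁻¹) := by ring

open Classical in
/-- The flow. -/
noncomputable def Z (c : E) (ρ : ℝ) (v : E) (t : ℝ) (z : E) : E :=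
  if z ∈ Metric.ball c ρ then ka c ρ (kb c ρ z + t • v) else z

theorem Z_in {c : E} {ρ : ℝ} (v : E) (t : ℝ) {z : E} (hz : z ∈ Metric.ball c ρ) :
    Z c ρ v t z = ka c ρ (kb c ρ z + t • v) := if_pos hz

theorem Z_out {c : E} {ρ : ℝ} (v : E) (t : ℝ) {z : E} (hz : z ∉ Metric.ball c ρ) :
    Z c ρ v t z = z := if_neg hz

theorem Z_dist {c : E} {ρ : ℝ} (hρ : 0 < ρ) (v : E) (t : ℝ) (z : E) :
    dist (Z c ρ v t z) z ≤ 2 * (|t| * ‖v‖) * sg c ρ z := by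
  by_cases hz : z ∈ Metric.ball c ρ
  · rw [Z_in v t hz, dist_eq_norm]
    have h1 := est (c := c) hρ (kb c ρ z) (t • v)
    rw [ka_kb hρ hz, A_kb hρ hz, norm_smul, Real.norm_eq_abs] at h1
    have h2 : ρ * (ρ * (sg c ρ z)⁻¹)⁻¹ = sg c ρ z := by
      have := (sg_pos hz).ne'
      have := hρ.ne'
      field_simp
    rwa [h2] at h1
  · rw [Z_out v t hz, dist_self, sg_zero hρ hz, mul_zero]

theorem kb_contAt {c : E} {ρ : ℝ} {z : E} (hz : z ∈ Metric.ball c ρ) : ContinuousAt (kb c ρ) z :=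
  ((sg_cont c ρ).continuousAt.inv₀ (sg_pos hz).ne').smul
    (continuous_id.sub continuous_const).continuousAt

theorem Z_cont {c : E} {ρ : ℝ} (hρ : 0 < ρ) (v : E) :
    Continuous fun p : ℝ × E => Z c ρ v p.1 p.2 := by
  rw [continuous_iff_continuousAt]
  rintro ⟨t0, z0⟩
  by_cases hz : z0 ∈ Metric.ball c ρ
  · have h1 : ContinuousAt (fun p : ℝ × E => ka c ρ (kb c ρ p.2 + p.1 • v)) (t0, z0) := by
      refine (ka_cont c ρ).continuousAt.comp ?_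
      refine ContinuousAt.add ?_ ?_
      · exact ContinuousAt.comp (f := Prod.snd) (x := (t0, z0)) (kb_contAt hz)
          continuous_snd.continuousAt
      · exact (continuous_fst.smul continuous_const).continuousAt
    refine h1.congr ?_
    have h2 : ∀ᶠ p : ℝ × E in 𝓝 (t0, z0), p.2 ∈ Metric.ball c ρ :=
      continuous_snd.continuousAt.eventually (Metric.isOpen_ball.mem_nhds hz)
    filter_upwards [h2] with p hp
    exact (Z_in v p.1 hp).symm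
  · show Tendsto (fun p : ℝ × E => Z c ρ v p.1 p.2) (𝓝 (t0, z0)) (𝓝 (Z c ρ v t0 z0))
    rw [Z_out v t0 hz, tendsto_iff_dist_tendsto_zero]
    have hg : Continuous fun p : ℝ × E => 2 * (|p.1| * ‖v‖) * sg c ρ p.2 + dist p.2 z0 :=
      ((continuous_const.mul (continuous_fst.abs.mul continuous_const)).mul
        ((sg_cont c ρ).comp continuous_snd)).add (continuous_snd.dist continuous_const)
    have hg0 : 2 * (|t0| * ‖v‖) * sg c ρ z0 + dist z0 z0 = 0 := by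
      rw [sg_zero hρ hz, mul_zero, dist_self, add_zero]
    have hlim : Tendsto (fun p : ℝ × E => 2 * (|p.1| * ‖v‖) * sg c ρ p.2 + dist p.2 z0)
        (𝓝 (t0, z0)) (𝓝 0) := by
      have := hg.tendsto (t0, z0)
      rwa [hg0] at this
    refine squeeze_zero (fun p => dist_nonneg) (fun p => ?_) hlim
    exact (dist_triangle _ p.2 _).trans (add_le_add (Z_dist hρ v p.1 p.2) le_rfl)

end BalAux

open BalAux in
theorem tBal : S_Bal := by
  intro d c ρ hρ x hx y hy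
  set v := kb c ρ y - kb c ρ x with hv
  have hmem : ∀ t z, z ∈ Metric.ball c ρ → Z c ρ v t z ∈ Metric.ball c ρ := by
    intro t z hz
    rw [Z_in v t hz]
    exact ka_mem hρ _
  let Φ : Flow ℝ (EuclideanSpace ℝ (Fin d)) :=
    { toFun := Z c ρ v
      cont' := Z_cont hρ v
      map_add' := by
        intro s t z
        by_cases hz : z ∈ Metric.ball c ρ
        · rw [Z_in v s (hmem t z hz), Z_in v t hz, Z_in v (s + t) hz, kb_ka hρ, add_assoc,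
            ← add_smul, add_comm t s]
        · rw [Z_out v t hz, Z_out v s hz, Z_out v (s + t) hz]
      map_zero' := by
        intro z
        by_cases hz : z ∈ Metric.ball c ρ
        · rw [Z_in v 0 hz, zero_smul, add_zero, ka_kb hρ hz]
        · exact Z_out v 0 hz }
  refine ⟨Φ, fun t z hz => Z_out v t hz, ?_⟩
  show Z c ρ v 1 x = y
  rw [Z_in v 1 hx, one_smul, hv, add_sub_cancel, ka_kb hρ hy]

end Pool.Agent.MP98850d.Bd
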