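import Pool.Agent.Lib.MP_98850d_an.Bd.Spec

/-!
# MP_98850d_an, package Bd: the image of the hit set grows (module Cov)
-/

set_option autoImplicit false

namespace Pool.Agent.MP98850d.Bd

open Set Filter Topology Bundle

universe u v w

theorem tCov : S_Cov.{u, v, w} := by
  intro M B N _ _ _ _ _ p ψ e hmin K Y hK hKe hYK V C hV hC hCV
  -- the open set
  let V' : Set (B × N) := e.toOpenPartialHomeomorph.symm.source ∩ e.toOpenPartialHomeomorph.symm ⁻¹' V
  have hV' : IsOpen V' := e.toOpenPartialHomeomorph.symm.isOpen_inter_preimage hV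
  have hmem : ∀ c n, (c, n) ∈ V' → c ∈ e.baseSet ∧ e.toOpenPartialHomeomorph.symm (c, n) ∈ V := by
    intro c n h
    refine ⟨?_, h.2⟩
    have h1 : (c, n) ∈ e.target := h.1
    rw [e.mem_target] at h1
    exact h1
  have hone : ∀ c ∈ C ∩ K, ∃ n, (c, n) ∈ V' := by
    rintro c ⟨hc, hcK⟩
    obtain ⟨x, hx, rfl⟩ := hCV hc
    have hb : p x ∈ e.baseSet := hKe hcK
    have hs : x ∈ e.source := by rw [e.mem_source]; exact hb
    refine ⟨(e x).2, ?_, ?_⟩
    · change (p x, (e x).2) ∈ e.target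
      rw [e.mem_target]
      exact hb
    · change e.toOpenPartialHomeomorph.symm (p x, (e x).2) ∈ V
      rw [e.symm_apply_mk_proj hs]
      exact hx
  have htwo : ∀ c ∈ C ∩ K, ∀ n', ∃ t : ℝ, (c, ψ t n') ∈ V' := by
    intro c hc n'
    obtain ⟨n, hn⟩ := hone c hc
    have hO : IsOpen {m : N | (c, m) ∈ V'} := hV'.preimage (Continuous.prodMk_right c)
    obtain ⟨m, hm, t, rfl⟩ := (hmin n').inter_open_nonempty _ hO ⟨n, hn⟩
    exact ⟨t, hm⟩
  -- compactness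
  let U : ℕ → Set (B × N) := fun m => ⋃ t : ℝ, ⋃ _ : |t| ≤ m, {z : B × N | (z.1, ψ t z.2) ∈ V'}
  have hUo : ∀ m, IsOpen (U m) := by
    intro m
    refine isOpen_iUnion fun t => isOpen_iUnion fun _ => hV'.preimage ?_
    exact continuous_fst.prodMk ((ψ.continuous_toFun t).comp continuous_snd)
  have hCK : IsCompact ((C ∩ K) ×ˢ (univ : Set N)) := (hC.inter hK).prod isCompact_univ
  have hcov : (C ∩ K) ×ˢ (univ : Set N) ⊆ ⋃ m, U m := by
    rintro ⟨c, n'⟩ ⟨hc, -⟩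
    obtain ⟨t, ht⟩ := htwo c hc n'
    obtain ⟨m, hm⟩ := exists_nat_ge |t|
    simp only [U, mem_iUnion]
    exact ⟨m, t, hm, ht⟩
  have hdir : Directed (· ⊆ ·) U := by
    refine directed_of_isDirected_le ?_
    intro a b hab
    refine iUnion_mono fun t => ?_
    intro z hz
    simp only [mem_iUnion] at hz ⊢
    obtain ⟨h1, h2⟩ := hz
    exact ⟨h1.trans (by exact_mod_cast hab), h2⟩
  obtain ⟨m, hm⟩ := hCK.elim_directed_cover U hUo hcov hdir
  have hkey : ∀ c ∈ C ∩ K, ∀ n', ∃ t : ℝ, 0 ≤ t ∧ t ≤ 2 * (m : ℝ) + 1 ∧ (c, ψ t n') ∈ V' := by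
    intro c hc n'
    have h1 : ((c, ψ (m : ℝ) n') : B × N) ∈ U m := hm ⟨hc, mem_univ _⟩
    simp only [U, mem_iUnion] at h1
    obtain ⟨t, ht, h2⟩ := h1
    rw [abs_le] at ht
    refine ⟨t + m, by linarith [ht.1], by linarith [ht.2], ?_⟩
    rw [ψ.map_add]
    exact h2
  have hYmem : ∀ c ∈ K, Y 1 c ∈ K := by
    intro c hc
    by_contra h
    have h1 := hYK (-1) (Y 1 c) h
    rw [← Y.map_add] at h1
    norm_num at h1
    rw [← h1] at h
    exact h hc
  refine ⟨2 * (m : ℝ) + 1, by positivity, ?_⟩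
  intro s h hh hs0 hs1
  obtain ⟨n0, hn0⟩ := hs0
  obtain ⟨n1, hn1⟩ := hs1
  have hfirst : ∀ c ∈ C, c ∈ p '' (h ⁻¹' V) := by
    intro c hc
    by_cases hcK : c ∈ K
    · obtain ⟨t, ht0, ht1, ht⟩ := hkey c ⟨hc, hcK⟩ n0
      obtain ⟨hb, hx⟩ := hmem c _ ht
      refine ⟨e.toOpenPartialHomeomorph.symm (c, ψ t n0), ?_, e.proj_symm_apply' hb⟩
      have hp : p (e.toOpenPartialHomeomorph.symm (c, ψ t n0)) = c := e.proj_symm_apply' hb
      have he : e (e.toOpenPartialHomeomorph.symm (c, ψ t n0)) = (c, ψ t n0) := e.apply_symm_apply' hb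
      have h1 := (hh.2 (e.toOpenPartialHomeomorph.symm (c, ψ t n0)) (by rw [hp]; exact hb)).1
      rw [mem_preimage, h1, hp, he]
      simp only
      rw [hn0 t ht0 ht1, neg_zero, Y.map_zero_apply]
      exact hx
    · obtain ⟨x, hx, rfl⟩ := hCV hc
      refine ⟨x, ?_, rfl⟩
      rw [mem_preimage, (hh.1 x hcK).1]
      exact hx
  refine union_subset hfirst ?_
  rintro _ ⟨c, hc, rfl⟩
  by_cases hcK : c ∈ K
  · obtain ⟨t, ht0, ht1, ht⟩ := hkey c ⟨hc, hcK⟩ n1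
    obtain ⟨-, hx⟩ := hmem c _ ht
    have hb : Y 1 c ∈ e.baseSet := hKe (hYmem c hcK)
    refine ⟨e.toOpenPartialHomeomorph.symm (Y 1 c, ψ t n1), ?_, e.proj_symm_apply' hb⟩
    have hp : p (e.toOpenPartialHomeomorph.symm (Y 1 c, ψ t n1)) = Y 1 c := e.proj_symm_apply' hb
    have he : e (e.toOpenPartialHomeomorph.symm (Y 1 c, ψ t n1)) = (Y 1 c, ψ t n1) := e.apply_symm_apply' hb
    have h1 := (hh.2 (e.toOpenPartialHomeomorph.symm (Y 1 c, ψ t n1)) (by rw [hp]; exact hb)).1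
    rw [mem_preimage, h1, hp, he]
    simp only
    rw [hn1 t ht0 ht1, ← Y.map_add]
    norm_num
    exact hx
  · have h1 : Y 1 c = c := hYK 1 c hcK
    simp only [h1]
    exact hfirst c hc

end Pool.Agent.MP98850d.Bd
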