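import Pool.Agent.Lib.MP_98850d_an.Bd.Spec

/-! Proof of `S_CyA`: the time change of a continuous orbit equivalence is continuous. -/

set_option autoImplicit false

namespace Pool.Agent.MP98850d.Bd

universe u v w

open Set Filter Topology Bundle

namespace CyAAux

theorem uniq {N : Type w} [TopologicalSpace N] (ψ : Flow ℝ N) (hψ : Fr ψ) {s s' : ℝ} {n : N}
    (h : ψ s n = ψ s' n) : s = s' := by
  have h1 : ψ (-s') (ψ s n) = n := by
    rw [h, ← ψ.map_add]; simp
  rw [← ψ.map_add] at h1
  have := hψ _ _ h1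
  linarith

/-- joint continuity from monotonicity and continuity in each variable -/
theorem cont_a {X : Type u} [TopologicalSpace X] (a : X → ℝ → ℝ) (hm : ∀ x, StrictMono (a x))
    (hs : ∀ x, Function.Surjective (a x)) (hc : ∀ t, Continuous fun x => a x t) :
    Continuous (fun z : X × ℝ => a z.1 z.2) := by
  rw [continuous_iff_continuousAt]
  rintro ⟨x0, t0⟩
  have hct : Continuous (a x0) := (hm x0).monotone.continuous_of_surjective (hs x0)
  unfold ContinuousAt
  rw [tendsto_order]
  constructor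
  · intro b hb
    have h1 : ∀ᶠ t in 𝓝 t0, b < a x0 t := hct.continuousAt.eventually (lt_mem_nhds hb)
    obtain ⟨t1, ht1, hlt⟩ : ∃ t1, b < a x0 t1 ∧ t1 < t0 := by
      have h2 : ∀ᶠ t in 𝓝[<] t0, b < a x0 t := h1.filter_mono nhdsWithin_le_nhds
      have h3 : ∀ᶠ t in 𝓝[<] t0, t < t0 := self_mem_nhdsWithin
      exact (h2.and h3).exists
    have h4 : ∀ᶠ x in 𝓝 x0, b < a x t1 := (hc t1).continuousAt.eventually (lt_mem_nhds ht1)
    have h5 : ∀ᶠ t in 𝓝 t0, t1 < t := lt_mem_nhds hlt
    filter_upwards [h4.prod_nhds h5] with z hz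
    exact hz.1.trans ((hm z.1) hz.2)
  · intro b hb
    have h1 : ∀ᶠ t in 𝓝 t0, a x0 t < b := hct.continuousAt.eventually (gt_mem_nhds hb)
    obtain ⟨t1, ht1, hlt⟩ : ∃ t1, a x0 t1 < b ∧ t0 < t1 := by
      have h2 : ∀ᶠ t in 𝓝[>] t0, a x0 t < b := h1.filter_mono nhdsWithin_le_nhds
      have h3 : ∀ᶠ t in 𝓝[>] t0, t0 < t := self_mem_nhdsWithin
      exact (h2.and h3).exists
    have h4 : ∀ᶠ x in 𝓝 x0, a x t1 < b := (hc t1).continuousAt.eventually (gt_mem_nhds ht1)
    have h5 : ∀ᶠ t in 𝓝 t0, t < t1 := gt_mem_nhds hlt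
    filter_upwards [h4.prod_nhds h5] with z hz
    exact ((hm z.1) hz.2).trans hz.1

/-- continuity of the inverse -/
theorem cont_tau {X : Type u} [TopologicalSpace X] (a τ : X → ℝ → ℝ) (hm : ∀ x, StrictMono (a x))
    (hc : ∀ t, Continuous fun x => a x t) (hr : ∀ x r, a x (τ x r) = r) :
    Continuous (fun z : X × ℝ => τ z.1 z.2) := by
  rw [continuous_iff_continuousAt]
  rintro ⟨x0, u0⟩
  unfold ContinuousAt
  rw [tendsto_order]
  constructor
  · intro b hb
    have h1 : a x0 b < u0 := by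
      have := hm x0 hb
      simpa [hr] using this
    obtain ⟨c, hc1, hc2⟩ := exists_between h1
    have h4 : ∀ᶠ x in 𝓝 x0, a x b < c := (hc b).continuousAt.eventually (gt_mem_nhds hc1)
    have h5 : ∀ᶠ r in 𝓝 u0, c < r := lt_mem_nhds hc2
    filter_upwards [h4.prod_nhds h5] with z hz
    have h6 : a z.1 b < a z.1 (τ z.1 z.2) := by rw [hr]; exact hz.1.trans hz.2
    exact (hm z.1).lt_iff_lt.1 h6
  · intro b hb
    have h1 : u0 < a x0 b := by
      have := hm x0 hb
      simpa [hr] using this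
    obtain ⟨c, hc1, hc2⟩ := exists_between h1
    have h4 : ∀ᶠ x in 𝓝 x0, c < a x b := (hc b).continuousAt.eventually (lt_mem_nhds hc2)
    have h5 : ∀ᶠ r in 𝓝 u0, r < c := gt_mem_nhds hc1
    filter_upwards [h4.prod_nhds h5] with z hz
    have h6 : a z.1 (τ z.1 z.2) < a z.1 b := by rw [hr]; exact hz.2.trans hz.1
    exact (hm z.1).lt_iff_lt.1 h6

end CyAAux

open CyAAux in
theorem tCyA : S_CyA.{u, w} := by
  intro X N _ _ _ ψ φ q hψ hq H1 H2 H3 H4
  have hex : ∀ x t, ∃ s, q (φ t x) = ψ s (q x) := by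
    intro x t
    rcases le_total 0 t with h | h
    · obtain ⟨s, _, hs⟩ := H1 x t h
      exact ⟨s, hs⟩
    · obtain ⟨s, _, hs⟩ := H1 (φ t x) (-t) (by linarith)
      refine ⟨-s, ?_⟩
      rw [← φ.map_add] at hs
      have h2 : q x = ψ s (q (φ t x)) := by simpa using hs
      rw [h2, ← ψ.map_add]
      simp
  choose a ha using hex
  have a_eq : ∀ x t s, q (φ t x) = ψ s (q x) → a x t = s := by
    intro x t s h
    exact uniq ψ hψ ((ha x t).symm.trans h)
  have a_nonneg : ∀ x t, 0 ≤ t → 0 ≤ a x t := by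
    intro x t ht
    obtain ⟨s, hs0, hs⟩ := H1 x t ht
    rw [a_eq x t s hs]; exact hs0
  have a_add : ∀ x s t, a x (s + t) = a (φ t x) s + a x t := by
    intro x s t
    apply a_eq
    rw [φ.map_add, ha (φ t x) s, ha x t, ← ψ.map_add]
  have a_zero : ∀ x, a x 0 = 0 := by
    intro x
    apply a_eq
    simp
  have a_pos : ∀ y t, 0 < t → 0 < a y t := by
    intro y t ht
    by_contra hcon
    have h0 : a y t = 0 := le_antisymm (not_lt.1 hcon) (a_nonneg y t ht.le)
    have h1 : φ t y = y := by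
      apply H4
      rw [ha, h0]; simp
    have h2 : ∀ k : ℕ, φ ((k : ℝ) * t) y = y := by
      intro k
      induction k with
      | zero => simp
      | succ k ih =>
        rw [Nat.cast_succ, add_mul, one_mul, φ.map_add, h1, ih]
    have h3 : ∀ k : ℕ, a y ((k : ℝ) * t) = 0 := by
      intro k
      apply a_eq
      rw [h2]; simp
    obtain ⟨T, hT0, hT⟩ := H2 y 1 zero_le_one
    have hT1 : a y T = 1 := a_eq _ _ _ hT
    obtain ⟨k, hk⟩ := exists_nat_ge (T / t)
    have hk' : T ≤ k * t := (div_le_iff₀ ht).1 hk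
    have h5 := a_add y (k * t - T) T
    rw [sub_add_cancel, h3, hT1] at h5
    have h6 := a_nonneg (φ T y) (k * t - T) (by linarith)
    linarith
  have a_mono : ∀ x, StrictMono (a x) := by
    intro x t t' h
    have h1 := a_add x (t' - t) t
    rw [sub_add_cancel] at h1
    have h2 := a_pos (φ t x) (t' - t) (by linarith)
    linarith
  have a_surj : ∀ x, Function.Surjective (a x) := by
    intro x s
    rcases le_total 0 s with h | h
    · obtain ⟨t, _, ht⟩ := H2 x s h
      exact ⟨t, a_eq _ _ _ ht⟩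
    · obtain ⟨t, _, ht⟩ := H3 x s h
      exact ⟨t, a_eq _ _ _ ht⟩
  have hsx : ∀ x r, ∃ t, a x t = r := fun x r => a_surj x r
  choose τ hτ using hsx
  have hτ' : ∀ x t, τ x (a x t) = t := fun x t => (a_mono x).injective (hτ x _)
  have flow_tendsto : ∀ (g : Ultrafilter X) (x0 : X), (g : Filter X) ≤ 𝓝 x0 → ∀ (v : X → ℝ) (v0 : ℝ),
      Tendsto v g (𝓝 v0) → Tendsto (fun x => φ (v x) x) g (𝓝 (φ v0 x0)) := by
    intro g x0 hg v v0 hv
    have h1 : Tendsto (fun x => (v x, x)) g (𝓝 (v0, x0)) := hv.prodMk_nhds hg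
    have h2 : Continuous (fun z : ℝ × X => φ z.1 z.2) := φ.continuous continuous_fst continuous_snd
    exact (h2.tendsto (v0, x0)).comp h1
  have psi_tendsto : ∀ (g : Ultrafilter X) (x0 : X), (g : Filter X) ≤ 𝓝 x0 → ∀ (v : X → ℝ) (v0 : ℝ),
      Tendsto v g (𝓝 v0) → Tendsto (fun x => ψ (v x) (q x)) g (𝓝 (ψ v0 (q x0))) := by
    intro g x0 hg v v0 hv
    have h0 : Tendsto q g (𝓝 (q x0)) := (hq.tendsto x0).mono_left hg
    have h1 : Tendsto (fun x => (v x, q x)) g (𝓝 (v0, q x0)) := hv.prodMk_nhds h0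
    have h2 : Continuous (fun z : ℝ × N => ψ z.1 z.2) := ψ.continuous continuous_fst continuous_snd
    exact (h2.tendsto (v0, q x0)).comp h1
  have hpos : ∀ t1, 0 ≤ t1 → Continuous fun x => a x t1 := by
    intro t1 ht1
    rw [continuous_iff_continuousAt]
    intro x0
    rw [continuousAt_iff_ultrafilter]
    intro g hg
    rw [tendsto_order]
    constructor
    · intro b hb
      by_contra hcon
      have hev : ∀ᶠ x in (g : Filter X), a x t1 ≤ b := by
        have := (Ultrafilter.eventually_not (f := g) (p := fun x => b < a x t1)).2 hcon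
        filter_upwards [this] with x hx
        exact not_lt.1 hx
      have hmem : Icc (0 : ℝ) b ∈ (g.map fun x => a x t1) := by
        rw [Ultrafilter.mem_map]
        filter_upwards [hev] with x hx
        exact ⟨a_nonneg x t1 ht1, hx⟩
      obtain ⟨b0, hb0, hlim⟩ := (isCompact_Icc (a := (0 : ℝ)) (b := b)).ultrafilter_le_nhds _
        (le_principal_iff.2 hmem)
      have h1 : Tendsto (fun x => ψ (a x t1) (q x)) g (𝓝 (ψ b0 (q x0))) :=
        psi_tendsto g x0 hg _ b0 hlim
      have h2 : Tendsto (fun x => q (φ t1 x)) g (𝓝 (q (φ t1 x0))) :=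
        (hq.tendsto _).comp (flow_tendsto g x0 hg (fun _ => t1) t1 tendsto_const_nhds)
      have h3 : (fun x => ψ (a x t1) (q x)) = fun x => q (φ t1 x) := by
        funext x; exact (ha x t1).symm
      rw [h3] at h1
      have h4 := tendsto_nhds_unique h1 h2
      have h5 : a x0 t1 = b0 := a_eq _ _ _ h4.symm
      have := hb0.2
      linarith
    · intro b hb
      by_contra hcon
      have hb0 : 0 ≤ b := (a_nonneg x0 t1 ht1).trans hb.le
      have hev : ∀ᶠ x in (g : Filter X), b ≤ a x t1 := by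
        have := (Ultrafilter.eventually_not (f := g) (p := fun x => a x t1 < b)).2 hcon
        filter_upwards [this] with x hx
        exact not_lt.1 hx
      have hmem : Icc (0 : ℝ) t1 ∈ (g.map fun x => τ x b) := by
        rw [Ultrafilter.mem_map]
        filter_upwards [hev] with x hx
        constructor
        · rw [← (a_mono x).le_iff_le, hτ, a_zero]; exact hb0
        · rw [← (a_mono x).le_iff_le, hτ]; exact hx
      obtain ⟨u0, hu0, hlim⟩ := (isCompact_Icc (a := (0 : ℝ)) (b := t1)).ultrafilter_le_nhds _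
        (le_principal_iff.2 hmem)
      have h1 : Tendsto (fun x => ψ b (q x)) g (𝓝 (ψ b (q x0))) :=
        psi_tendsto g x0 hg (fun _ => b) b tendsto_const_nhds
      have h2 : Tendsto (fun x => q (φ (τ x b) x)) g (𝓝 (q (φ u0 x0))) :=
        (hq.tendsto _).comp (flow_tendsto g x0 hg (fun x => τ x b) u0 hlim)
      have h3 : (fun x => q (φ (τ x b) x)) = fun x => ψ b (q x) := by
        funext x; rw [ha x (τ x b), hτ]
      rw [h3] at h2
      have h4 := tendsto_nhds_unique h2 h1
      have h5 : a x0 u0 = b := a_eq _ _ _ h4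
      have h6 : a x0 u0 ≤ a x0 t1 := (a_mono x0).monotone hu0.2
      linarith
  have hall : ∀ t1, Continuous fun x => a x t1 := by
    intro t1
    rcases le_total 0 t1 with h | h
    · exact hpos t1 h
    · have h1 : (fun x => a x t1) = fun x => -(a (φ t1 x) (-t1)) := by
        funext x
        have h2 := a_add x (-t1) t1
        rw [neg_add_cancel, a_zero] at h2
        linarith
      rw [h1]
      have h3 : Continuous fun x => φ t1 x := φ.continuous continuous_const continuous_id
      exact ((hpos (-t1) (by linarith)).comp h3).neg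
  refine ⟨a, τ, cont_a a a_mono a_surj hall, cont_tau a τ a_mono hall hτ, fun x => ?_⟩
  exact ⟨ha x, a_mono x, a_zero x, hτ' x, hτ x, a_add x⟩

end Pool.Agent.MP98850d.Bd
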