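import Pool.Agent.Lib.MP_98850d_an.Bd.Spec

/-!
# MP_98850d_an, package Bd: the time change in a chart (Cyc)
-/

set_option autoImplicit false

namespace Pool.Agent.MP98850d.Bd

universe u v w

open Set Filter Topology Bundle

namespace CycAux

/-- extension by zero of a function on `↥S × ℝ` -/
noncomputable def ext0 {M : Type u} (S : Set M) (a : S → ℝ → ℝ) : M → ℝ → ℝ := by
  classical
  exact fun x t => if h : x ∈ S then a ⟨x, h⟩ t else 0

theorem ext0_of_mem {M : Type u} {S : Set M} (a : S → ℝ → ℝ) {x : M} (h : x ∈ S) :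
    ext0 S a x = a ⟨x, h⟩ := by
  funext t
  simp [ext0, h]

theorem ext0_cont {M : Type u} [TopologicalSpace M] {S : Set M} (a : S → ℝ → ℝ)
    (ha : Continuous fun z : S × ℝ => a z.1 z.2) :
    ContinuousOn (fun z : M × ℝ => ext0 S a z.1 z.2) (S ×ˢ univ) := by
  rw [continuousOn_iff_continuous_domRestrict]
  have h1 : Continuous fun z : ↥(S ×ˢ (univ : Set ℝ)) => ((⟨z.1.1, z.2.1⟩, z.1.2) : S × ℝ) := by
    refine Continuous.prodMk ?_ ?_
    · exact Continuous.subtype_mk (continuous_fst.comp continuous_subtype_val) _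
    · exact continuous_snd.comp continuous_subtype_val
  have h2 := ha.comp h1
  refine h2.congr fun z => ?_
  simp only [Function.comp_apply, Set.domRestrict_apply]
  rw [ext0_of_mem a z.2.1]

end CycAux

open CycAux in
/-- the time change of a leafwise flow, in a chart -/
theorem tCyc : S_CyA.{u, w} → S_Cyc.{u, v, w} := by
  intro HC M B N _ _ _ _ p ψ e φ hF hp hA
  have hinv : IsInvariant (fun t => φ t) (p ⁻¹' e.baseSet) := by
    intro t x hx
    simp only [mem_preimage] at hx ⊢
    rw [hp]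
    exact hx
  have hinj : ∀ x y : M, p x ∈ e.baseSet → p y = p x → (e y).2 = (e x).2 → y = x := by
    intro x y hx hy h2
    have hxs : x ∈ e.source := e.mem_source.2 hx
    have hys : y ∈ e.source := e.mem_source.2 (by rw [hy]; exact hx)
    apply e.injOn hys hxs
    apply Prod.ext
    · exact (e.coe_fst hys).trans (hy.trans (e.coe_fst hxs).symm)
    · exact h2
  let φ' : Flow ℝ (p ⁻¹' e.baseSet : Set M) := φ.restrict hinv
  have hφ' : ∀ t (x : (p ⁻¹' e.baseSet : Set M)), ((φ' t x : (p ⁻¹' e.baseSet : Set M)) : M) = φ t x := by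
    intro t x
    rfl
  let q : (p ⁻¹' e.baseSet : Set M) → N := fun x => (e x.1).2
  have hqc : Continuous q := by
    have h1 : ContinuousOn e (p ⁻¹' e.baseSet) := by
      have h0 := e.continuousOn_toFun
      rw [e.source_eq] at h0
      exact h0
    exact continuous_snd.comp (continuousOn_iff_continuous_domRestrict.1 h1)
  obtain ⟨a, τ, ha, hτ, hx⟩ := HC (p ⁻¹' e.baseSet : Set M) N ψ φ' q hF hqc
    (fun x t ht => hA.1 x.1 t x.2 ht) (fun x s hs => hA.2 x.1 s x.2 hs)
    (by
      intro x s hs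
      have hxb : p x.1 ∈ e.baseSet := x.2
      have hx' : e (e.toOpenPartialHomeomorph.symm (p x.1, ψ s (e x.1).2)) = (p x.1, ψ s (e x.1).2) :=
        e.apply_symm_apply' hxb
      have hpx' : p (e.toOpenPartialHomeomorph.symm (p x.1, ψ s (e x.1).2)) = p x.1 :=
        e.proj_symm_apply' hxb
      obtain ⟨t, ht, h⟩ := hA.2 (e.toOpenPartialHomeomorph.symm (p x.1, ψ s (e x.1).2)) (-s)
        (by rw [hpx']; exact hxb) (by linarith)
      rw [hx'] at h
      have h0 : ψ (-s) (ψ s (e x.1).2) = (e x.1).2 := by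
        rw [← Flow.map_add, neg_add_cancel, Flow.map_zero_apply]
      have h1 : φ t (e.toOpenPartialHomeomorph.symm (p x.1, ψ s (e x.1).2)) = x.1 := by
        apply hinj _ _ hxb
        · rw [hp, hpx']
        · rw [h]
          exact h0
      refine ⟨-t, by linarith, ?_⟩
      have h2 : φ (-t) x.1 = e.toOpenPartialHomeomorph.symm (p x.1, ψ s (e x.1).2) := by
        rw [← h1, ← Flow.map_add, neg_add_cancel, Flow.map_zero_apply, h1]
      show (e (φ (-t) x.1)).2 = ψ s (e x.1).2
      rw [h2, hx'])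
    (by
      intro x t h
      apply Subtype.ext
      rw [hφ']
      exact hinj _ _ x.2 (hp _ _) h)
  refine ⟨ext0 _ a, ext0 _ τ, ext0_cont a ha, ext0_cont τ hτ, ?_⟩
  intro x hxb
  have hxm : x ∈ p ⁻¹' e.baseSet := hxb
  obtain ⟨h1, h2, h3, h4, h5, h6⟩ := hx ⟨x, hxm⟩
  rw [ext0_of_mem a hxm, ext0_of_mem τ hxm]
  refine ⟨h1, h2, h3, h4, h5, ?_⟩
  intro s t
  rw [h6 s t]
  have hm : φ t x ∈ p ⁻¹' e.baseSet := by
    simp only [mem_preimage]
    rw [hp]
    exact hxb
  rw [ext0_of_mem a hm]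
  rfl

end Pool.Agent.MP98850d.Bd
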