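import Pool.Agent.Lib.MP_98850d_an.Bd.Spec

/-! # MP_98850d_an, package Bd: the estimate -/

set_option autoImplicit false

namespace Pool.Agent.MP98850d.Bd

open Set Filter Topology Bundle

universe u v w

namespace EstAux

/-- a flow which is the identity outside `K` maps `K` to itself -/
theorem inv_K {B : Type v} [TopologicalSpace B] {K : Set B} {Y : Flow ℝ B}
    (hY : ∀ t z, z ∉ K → Y t z = z) {z : B} (hz : z ∈ K) (t : ℝ) : Y t z ∈ K := by
  by_contra hn
  have h1 : Y (-t) (Y t z) = Y t z := hY _ _ hn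
  have h2 : Y (-t) (Y t z) = z := by
    rw [← Y.map_add, neg_add_cancel, Y.map_zero_apply]
  rw [h2] at h1
  rw [← h1] at hn
  exact hn hz

theorem inv_U {B : Type v} [TopologicalSpace B] {K U : Set B} (hKU : K ⊆ U) {Y : Flow ℝ B}
    (hY : ∀ t z, z ∉ K → Y t z = z) {z : B} (hz : z ∈ U) (t : ℝ) : Y t z ∈ U := by
  by_cases h : z ∈ K
  · exact hKU (inv_K hY h t)
  · rw [hY t z h]
    exact hz

/-- the integral of a function close to the difference quotient of `G` -/
theorem int_est {g G : ℝ → ℝ} (hg : Continuous g) (hG : Continuous G) {η κ ρ : ℝ} (hη : 0 < η)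
    (hκ : 0 ≤ κ) (hρ : 0 ≤ ρ)
    (h1 : ∀ q, |q| ≤ ρ → |g q - η⁻¹ * (G (q + η) - G q)| ≤ κ / (ρ + 1))
    (h2 : ∀ q q', |q| ≤ ρ → |q' - q| ≤ η → |G q' - G q| ≤ κ) (h0 : G 0 = 0) {r : ℝ} (hr : |r| ≤ ρ) :
    |(∫ q in (0 : ℝ)..r, g q) - G r| ≤ 3 * κ := by
  have hGη : Continuous fun q => G (q + η) := hG.comp (by fun_prop)
  have hGi : ∀ a b : ℝ, IntervalIntegrable G MeasureTheory.volume a b := fun a b =>
    hG.intervalIntegrable a b
  have hGi' : ∀ a b : ℝ, IntervalIntegrable (fun q => G (q + η)) MeasureTheory.volume a b := fun a b =>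
    hGη.intervalIntegrable a b
  -- the first comparison
  have e1 : |∫ q in (0 : ℝ)..r, (g q - η⁻¹ * (G (q + η) - G q))| ≤ κ := by
    have e : ‖∫ q in (0 : ℝ)..r, (g q - η⁻¹ * (G (q + η) - G q))‖ ≤ κ / (ρ + 1) * |r - 0| := by
      apply intervalIntegral.norm_integral_le_of_norm_le_const
      intro q hq
      rw [Real.norm_eq_abs]
      apply h1
      rw [mem_uIoc] at hq
      rcases hq with ⟨a, b⟩ | ⟨a, b⟩
      · rw [abs_of_pos a]
        exact b.trans ((le_abs_self r).trans hr)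
      · rw [abs_le]
        constructor
        · have := neg_abs_le r
          linarith
        · linarith
    rw [Real.norm_eq_abs, sub_zero] at e
    refine e.trans ?_
    have hρ1 : 0 < ρ + 1 := by linarith
    calc κ / (ρ + 1) * |r| ≤ κ / (ρ + 1) * (ρ + 1) :=
          mul_le_mul_of_nonneg_left (by linarith) (by positivity)
      _ = κ := by field_simp
  -- the telescoping identity
  have e2 : ∫ q in (0 : ℝ)..r, (G (q + η) - G q) = (∫ q in r..(r + η), G q) - ∫ q in (0 : ℝ)..η, G q := by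
    rw [intervalIntegral.integral_sub (hGi' _ _) (hGi _ _),
      intervalIntegral.integral_comp_add_right (fun q => G q) η, zero_add]
    have a1 := intervalIntegral.integral_add_adjacent_intervals (hGi 0 r) (hGi r (r + η))
    have a2 := intervalIntegral.integral_add_adjacent_intervals (hGi 0 η) (hGi η (r + η))
    linarith
  -- averages
  have e3 : ∀ c : ℝ, |c| ≤ ρ → |(∫ q in c..(c + η), G q) - η * G c| ≤ κ * η := by
    intro c hc
    have a1 : (∫ q in c..(c + η), G q) - η * G c = ∫ q in c..(c + η), (G q - G c) := by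
      rw [intervalIntegral.integral_sub (hGi _ _) intervalIntegrable_const,
        intervalIntegral.integral_const, smul_eq_mul]
      ring_nf
    have a2 : ‖∫ q in c..(c + η), (G q - G c)‖ ≤ κ * |c + η - c| := by
      apply intervalIntegral.norm_integral_le_of_norm_le_const
      intro q hq
      rw [Real.norm_eq_abs]
      rw [uIoc_of_le (by linarith)] at hq
      exact h2 c q hc (by rw [abs_le]; constructor <;> linarith [hq.1, hq.2])
    rw [Real.norm_eq_abs, add_sub_cancel_left, abs_of_pos hη] at a2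
    rw [a1]
    exact a2
  have e4 := e3 r hr
  have e5 := e3 0 (by rw [abs_zero]; exact hρ)
  rw [zero_add, h0, mul_zero, sub_zero] at e5
  have e6 : ∫ q in (0 : ℝ)..r, (g q - η⁻¹ * (G (q + η) - G q)) =
      (∫ q in (0 : ℝ)..r, g q) - η⁻¹ * ((∫ q in r..(r + η), G q) - ∫ q in (0 : ℝ)..η, G q) := by
    rw [intervalIntegral.integral_sub (hg.intervalIntegrable _ _)
      (((hGi' _ _).sub (hGi _ _)).const_mul _), intervalIntegral.integral_const_mul, e2]
  rw [e6] at e1
  have e7 : (∫ q in (0 : ℝ)..r, g q) - G r =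
      ((∫ q in (0 : ℝ)..r, g q) - η⁻¹ * ((∫ q in r..(r + η), G q) - ∫ q in (0 : ℝ)..η, G q)) +
        η⁻¹ * ((∫ q in r..(r + η), G q) - η * G r) - η⁻¹ * (∫ q in (0 : ℝ)..η, G q) := by
    have : η⁻¹ * (η * G r) = G r := by field_simp
    linear_combination this
  have e8 : |η⁻¹ * ((∫ q in r..(r + η), G q) - η * G r)| ≤ κ := by
    rw [abs_mul, abs_of_pos (inv_pos.2 hη), inv_mul_le_iff₀ hη, mul_comm η κ]
    exact e4
  have e9 : |η⁻¹ * (∫ q in (0 : ℝ)..η, G q)| ≤ κ := by
    rw [abs_mul, abs_of_pos (inv_pos.2 hη), inv_mul_le_iff₀ hη, mul_comm η κ]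
    exact e5
  rw [e7]
  have b1 := abs_le.1 e1
  have b2 := abs_le.1 e8
  have b3 := abs_le.1 e9
  rw [abs_le]
  constructor <;> linarith [b1.1, b1.2, b2.1, b2.2, b3.1, b3.2]

/-- tube lemma with a real parameter -/
theorem tube {Z : Type*} [TopologicalSpace Z] {K : Set Z} (hK : IsCompact K) {P : ℝ → Z → Prop}
    (hP : ∀ z ∈ K, ∀ᶠ y : ℝ × Z in 𝓝 ((0 : ℝ), z), P y.1 y.2) :
    ∃ η : ℝ, 0 < η ∧ ∀ θ : ℝ, |θ| < η → ∀ z ∈ K, P θ z := by
  have h := hK.eventually_forall_of_forall_eventually hP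
  obtain ⟨η, hη, h⟩ := Metric.eventually_nhds_iff.1 h
  refine ⟨η, hη, fun θ hθ => h ?_⟩
  rwa [Real.dist_eq, sub_zero]

/-- the cocycle of a flow along the fibres -/
structure Coc {M : Type u} {B : Type v} {N : Type w} [TopologicalSpace M] [TopologicalSpace B]
    [TopologicalSpace N] {p : M → B} (ψ : Flow ℝ N) (e : Trivialization N p) (φ : Flow ℝ M)
    (a τ : M → ℝ → ℝ) : Prop where
  ca : ContinuousOn (fun z : M × ℝ => a z.1 z.2) ((p ⁻¹' e.baseSet) ×ˢ univ)
  cτ : ContinuousOn (fun z : M × ℝ => τ z.1 z.2) ((p ⁻¹' e.baseSet) ×ˢ univ)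
  eq : ∀ x, p x ∈ e.baseSet → ∀ t, (e (φ t x)).2 = ψ (a x t) (e x).2
  mono : ∀ x, p x ∈ e.baseSet → StrictMono (a x)
  zero : ∀ x, p x ∈ e.baseSet → a x 0 = 0
  left : ∀ x, p x ∈ e.baseSet → ∀ t, τ x (a x t) = t
  right : ∀ x, p x ∈ e.baseSet → ∀ r, a x (τ x r) = r
  add : ∀ x, p x ∈ e.baseSet → ∀ s t, a x (s + t) = a (φ t x) s + a x t
  vert : ∀ t x, p (φ t x) = p x

namespace Coc

variable {M : Type u} {B : Type v} {N : Type w} [TopologicalSpace M] [TopologicalSpace B]
    [TopologicalSpace N] {p : M → B} {ψ : Flow ℝ N} {e : Trivialization N p} {φ : Flow ℝ M}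
    {a τ : M → ℝ → ℝ} (c : Coc ψ e φ a τ)

include c

theorem isOpen_dom : IsOpen ((p ⁻¹' e.baseSet) ×ˢ (univ : Set ℝ)) := by
  have h := e.open_source
  rw [e.source_eq] at h
  exact h.prod isOpen_univ

theorem at_a {x : M} (hx : p x ∈ e.baseSet) (t : ℝ) :
    ContinuousAt (fun z : M × ℝ => a z.1 z.2) (x, t) :=
  c.ca.continuousAt (c.isOpen_dom.mem_nhds ⟨hx, mem_univ _⟩)

theorem at_τ {x : M} (hx : p x ∈ e.baseSet) (t : ℝ) :
    ContinuousAt (fun z : M × ℝ => τ z.1 z.2) (x, t) :=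
  c.cτ.continuousAt (c.isOpen_dom.mem_nhds ⟨hx, mem_univ _⟩)

theorem τ_mono {x : M} (hx : p x ∈ e.baseSet) : StrictMono (τ x) := by
  intro r r' h
  by_contra hn
  push Not at hn
  have := (c.mono x hx).monotone hn
  rw [c.right x hx, c.right x hx] at this
  linarith

theorem τ_zero {x : M} (hx : p x ∈ e.baseSet) : τ x 0 = 0 := by
  have := c.left x hx 0
  rwa [c.zero x hx] at this

theorem τ_add {x : M} (hx : p x ∈ e.baseSet) (g b : ℝ) : τ (φ g x) b = τ x (b + a x g) - g := by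
  have hx' : p (φ g x) ∈ e.baseSet := by rw [c.vert]; exact hx
  have h := c.add x hx (τ (φ g x) b) g
  rw [c.right _ hx'] at h
  rw [← h, c.left x hx]
  ring

/-- the point of the leaf of `x'` with the same fibre coordinate as `φ q x` -/
theorem point {x x' : M} (hx : p x ∈ e.baseSet) (hx' : p x' ∈ e.baseSet) (hn : (e x).2 = (e x').2)
    (q : ℝ) : e.toOpenPartialHomeomorph.symm (p x', (e (φ q x)).2) = φ (τ x' (a x q)) x' := by
  have h1 : (e (φ (τ x' (a x q)) x')).2 = (e (φ q x)).2 := by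
    rw [c.eq x' hx', c.right x' hx', c.eq x hx, hn]
  have h2 : p (φ (τ x' (a x q)) x') = p x' := c.vert _ _
  have h3 : φ (τ x' (a x q)) x' ∈ e.source := by
    rw [e.mem_source, h2]
    exact hx'
  have h4 := e.symm_apply_mk_proj h3
  rw [h1, h2] at h4
  exact h4

end Coc

end EstAux

open EstAux

theorem tEst (hCyc : S_Cyc.{u, v, w}) (hTC : S_TC.{u}) : S_Est.{u, v, w} := by
  classical
  intro M B N _ _ _ _ _ _ _ p ψ e φ hp hfr hvert halong K Y hK hKU hY ε T hε
  obtain ⟨a, τ, hca, hcτ, hcoc⟩ := hCyc M B N p ψ e φ hfr hvert halong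
  have c : Coc ψ e φ a τ := ⟨hca, hcτ, fun x hx => (hcoc x hx).1, fun x hx => (hcoc x hx).2.1,
    fun x hx => (hcoc x hx).2.2.1, fun x hx => (hcoc x hx).2.2.2.1,
    fun x hx => (hcoc x hx).2.2.2.2.1, fun x hx => (hcoc x hx).2.2.2.2.2, hvert⟩
  set U := e.baseSet with hU
  set T' : ℝ := max T 0 with hT'
  have hT'0 : 0 ≤ T' := le_max_right _ _
  have hKc : IsClosed K := hK.isClosed
  set W : Set M := p ⁻¹' K with hW
  have hWc : IsCompact W := (hKc.preimage hp).isCompact
  have hWU : ∀ x ∈ W, p x ∈ U := fun x hx => hKU hx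
  -- `κ`
  have hκ : ∃ κ : ℝ, 0 < κ ∧ κ ≤ 1 / 6 ∧ ∀ t x θ, |t| ≤ T' → |θ| ≤ 3 * κ →
      dist (φ (t + θ) x) (φ t x) ≤ ε / 2 := by
    obtain ⟨η, hη, h⟩ := tube (K := (Icc (-T') T') ×ˢ (univ : Set M)) (isCompact_Icc.prod isCompact_univ)
      (P := fun θ z => dist (φ (z.1 + θ) z.2) (φ z.1 z.2) < ε / 2) (by
        rintro ⟨t, x⟩ -
        have hc : Continuous (fun y : ℝ × (ℝ × M) => dist (φ (y.2.1 + y.1) y.2.2) (φ y.2.1 y.2.2)) :=
          (φ.continuous (by fun_prop) (by fun_prop)).dist (φ.continuous (by fun_prop) (by fun_prop))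
        refine (hc.tendsto _).eventually (gt_mem_nhds ?_)
        simp only [add_zero, dist_self]
        positivity)
    refine ⟨min (η / 6) (1 / 6), lt_min (by positivity) (by norm_num), min_le_right _ _, ?_⟩
    intro t x θ ht hθ
    refine (h θ ?_ (t, x) ⟨abs_le.1 ht, mem_univ _⟩).le
    have := min_le_left (η / 6) (1 / 6 : ℝ)
    linarith
  obtain ⟨κ, hκ0, hκ6, hκd⟩ := hκ
  -- `ρ`
  have hA : ∃ A : ℝ, ∀ y ∈ W, a y (T' + 2) ≤ A ∧ -A ≤ a y (-(T' + 2)) := by
    obtain ⟨C1, h1⟩ := hWc.exists_bound_of_continuousOn (f := fun y => a y (T' + 2)) (fun y hy =>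
      ((c.at_a (hWU y hy) (T' + 2)).comp (f := fun y => (y, T' + 2))
        (by fun_prop)).continuousWithinAt)
    obtain ⟨C2, h2⟩ := hWc.exists_bound_of_continuousOn (f := fun y => a y (-(T' + 2))) (fun y hy =>
      ((c.at_a (hWU y hy) (-(T' + 2))).comp (f := fun y => (y, -(T' + 2)))
        (by fun_prop)).continuousWithinAt)
    refine ⟨max C1 C2, fun y hy => ⟨(le_abs_self _).trans ((h1 y hy).trans (le_max_left _ _)), ?_⟩⟩
    have e1 := h2 y hy
    rw [Real.norm_eq_abs] at e1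
    have e2 := neg_abs_le (a y (-(T' + 2)))
    have e3 := le_max_right C1 C2
    linarith
  obtain ⟨A, hA⟩ := hA
  have hρ : ∃ ρ : ℝ, 0 ≤ ρ ∧ ∀ x ∈ W, τ x A ≤ ρ ∧ -ρ ≤ τ x (-A) := by
    obtain ⟨C1, h1⟩ := hWc.exists_bound_of_continuousOn (f := fun y => τ y A) (fun y hy =>
      ((c.at_τ (hWU y hy) A).comp (f := fun y => (y, A)) (by fun_prop)).continuousWithinAt)
    obtain ⟨C2, h2⟩ := hWc.exists_bound_of_continuousOn (f := fun y => τ y (-A)) (fun y hy =>
      ((c.at_τ (hWU y hy) (-A)).comp (f := fun y => (y, -A)) (by fun_prop)).continuousWithinAt)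
    refine ⟨max (max C1 C2) 0, le_max_right _ _, fun y hy => ⟨(le_abs_self _).trans ((h1 y hy).trans
      ((le_max_left _ _).trans (le_max_left _ _))), ?_⟩⟩
    have e1 := h2 y hy
    rw [Real.norm_eq_abs] at e1
    have e2 := neg_abs_le (τ y (-A))
    have e3 := (le_max_right C1 C2).trans (le_max_left (max C1 C2) 0)
    linarith
  obtain ⟨ρ, hρ0, hρ⟩ := hρ
  have hbig : ∀ x ∈ W, ∀ y ∈ W, T' + 2 ≤ τ y (a x ρ) ∧ τ y (a x (-ρ)) ≤ -(T' + 2) := by
    intro x hx y hy
    have hxU := hWU x hx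
    have hyU := hWU y hy
    constructor
    · have e1 : A ≤ a x ρ := by
        have := (c.mono x hxU).monotone (hρ x hx).1
        rwa [c.right x hxU] at this
      have e2 := (c.τ_mono hyU).monotone ((hA y hy).1.trans e1)
      rwa [c.left y hyU] at e2
    · have e1 : a x (-ρ) ≤ -A := by
        have := (c.mono x hxU).monotone (hρ x hx).2
        rwa [c.right x hxU] at this
      have e2 := (c.τ_mono hyU).monotone (e1.trans (hA y hy).2)
      rwa [c.left y hyU] at e2
  -- `η`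
  have hη : ∃ η : ℝ, 0 < η ∧ η ≤ 1 ∧ ∀ x ∈ W, ∀ y ∈ W, ∀ q θ : ℝ, |q| ≤ ρ → |θ| ≤ η →
      |τ y (a x (q + θ)) - τ y (a x q)| ≤ κ := by
    obtain ⟨η, hη, h⟩ := tube (K := W ×ˢ W ×ˢ (Icc (-ρ) ρ)) (hWc.prod (hWc.prod isCompact_Icc))
      (P := fun θ z => |τ z.2.1 (a z.1 (z.2.2 + θ)) - τ z.2.1 (a z.1 z.2.2)| < κ) (by
        rintro ⟨x, y, q⟩ ⟨hx, hy, -⟩
        have hx' := hWU x hx
        have hy' := hWU y hy
        have e1 : ContinuousAt (fun z : ℝ × (M × M × ℝ) => a z.2.1 (z.2.2.2 + z.1))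
            ((0 : ℝ), (x, y, q)) := by
          refine ContinuousAt.comp (f := fun z : ℝ × (M × M × ℝ) => (z.2.1, z.2.2.2 + z.1))
            (g := fun z : M × ℝ => a z.1 z.2) ?_ (by fun_prop)
          exact c.at_a hx' _
        have e2 : ContinuousAt (fun z : ℝ × (M × M × ℝ) => a z.2.1 z.2.2.2)
            ((0 : ℝ), (x, y, q)) := by
          refine ContinuousAt.comp (f := fun z : ℝ × (M × M × ℝ) => (z.2.1, z.2.2.2))
            (g := fun z : M × ℝ => a z.1 z.2) ?_ (by fun_prop)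
          exact c.at_a hx' _
        have e3 : ContinuousAt (fun z : ℝ × (M × M × ℝ) => τ z.2.2.1 (a z.2.1 (z.2.2.2 + z.1)))
            ((0 : ℝ), (x, y, q)) := by
          refine ContinuousAt.comp (f := fun z : ℝ × (M × M × ℝ) => (z.2.2.1, a z.2.1 (z.2.2.2 + z.1)))
            (g := fun z : M × ℝ => τ z.1 z.2) ?_ (ContinuousAt.prodMk (by fun_prop) e1)
          exact c.at_τ hy' _
        have e4 : ContinuousAt (fun z : ℝ × (M × M × ℝ) => τ z.2.2.1 (a z.2.1 z.2.2.2))
            ((0 : ℝ), (x, y, q)) := by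
          refine ContinuousAt.comp (f := fun z : ℝ × (M × M × ℝ) => (z.2.2.1, a z.2.1 z.2.2.2))
            (g := fun z : M × ℝ => τ z.1 z.2) ?_ (ContinuousAt.prodMk (by fun_prop) e2)
          exact c.at_τ hy' _
        have e5 := (e3.sub e4).abs
        refine e5.eventually (gt_mem_nhds ?_)
        simp only [Pi.sub_apply, add_zero, sub_self, abs_zero]
        exact hκ0)
    refine ⟨min (η / 2) 1, lt_min (by positivity) one_pos, min_le_right _ _, ?_⟩
    intro x hx y hy q θ hq hθ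
    refine (h θ ?_ (x, y, q) ⟨hx, hy, abs_le.1 hq⟩).le
    have := min_le_left (η / 2) 1
    linarith
  obtain ⟨η, hη0, hη1, hηd⟩ := hη
  -- `A'`
  have hA' : ∃ A' : ℝ, 0 ≤ A' ∧ ∀ x ∈ W, ∀ q : ℝ, |q| ≤ ρ + 1 → |a x q| ≤ A' := by
    obtain ⟨C1, h1⟩ := (hWc.prod (isCompact_Icc (a := -(ρ + 1)) (b := ρ + 1))).exists_bound_of_continuousOn
      (f := fun z : M × ℝ => a z.1 z.2) (fun z hz => (c.at_a (hWU z.1 hz.1) z.2).continuousWithinAt)
    refine ⟨max C1 0, le_max_right _ _, fun x hx q hq => ?_⟩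
    exact (h1 (x, q) ⟨hx, abs_le.1 hq⟩).trans (le_max_left _ _)
  obtain ⟨A', hA'0, hA'⟩ := hA'
  -- `δ1`
  set E : B × N → M := fun z => e.toOpenPartialHomeomorph.symm z with hE
  have hEc : ∀ z : B × N, z.1 ∈ U → ContinuousAt E z := by
    intro z hz
    have h1 : z ∈ e.toOpenPartialHomeomorph.target := by
      change z ∈ e.target
      rw [e.mem_target]
      exact hz
    exact e.toOpenPartialHomeomorph.symm.continuousAt h1
  have hEp : ∀ z : B × N, z.1 ∈ U → p (E z) = z.1 := fun z hz =>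
    e.proj_symm_apply ((e.mem_target).2 hz)
  have hEs : ∀ z : B × N, z.1 ∈ U → (e (E z)).2 = z.2 := fun z hz => by
    rw [hE]
    change (e (e.toOpenPartialHomeomorph.symm z)).2 = z.2
    rw [e.apply_symm_apply ((e.mem_target).2 hz)]
  have hδ1 : ∃ δ1 : ℝ, 0 < δ1 ∧ ∀ θ : ℝ, |θ| < δ1 → ∀ b ∈ K, ∀ (n : N) (r : ℝ), |r| ≤ A' →
      |τ (E (Y θ b, n)) r - τ (E (b, n)) r| ≤ η * (κ / (ρ + 1)) ∧
        dist (E (Y θ b, n)) (E (b, n)) ≤ ε / 2 := by
    have hpos : 0 < η * (κ / (ρ + 1)) := by positivity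
    obtain ⟨δ1, hδ1, h⟩ := tube (K := K ×ˢ (univ : Set N) ×ˢ (Icc (-A') A'))
      (hK.prod (isCompact_univ.prod isCompact_Icc))
      (P := fun θ z => |τ (E (Y θ z.1, z.2.1)) z.2.2 - τ (E (z.1, z.2.1)) z.2.2| < η * (κ / (ρ + 1)) ∧
        dist (E (Y θ z.1, z.2.1)) (E (z.1, z.2.1)) < ε / 2) (by
        rintro ⟨b, n, r⟩ ⟨hb, -, -⟩
        have hb' : b ∈ U := hKU hb
        have y0 : Y 0 b = b := Y.map_zero_apply b
        have e0 : ContinuousAt (fun z : ℝ × (B × N × ℝ) => (Y z.1 z.2.1, z.2.2.1))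
            ((0 : ℝ), (b, n, r)) :=
          (Continuous.prodMk (Y.continuous (by fun_prop) (by fun_prop)) (by fun_prop)).continuousAt
        have e1 : ContinuousAt (fun z : ℝ × (B × N × ℝ) => E (Y z.1 z.2.1, z.2.2.1))
            ((0 : ℝ), (b, n, r)) := by
          refine ContinuousAt.comp (g := E) (f := fun z : ℝ × (B × N × ℝ) => (Y z.1 z.2.1, z.2.2.1)) ?_ e0
          apply hEc
          change Y 0 b ∈ U
          rw [y0]
          exact hb'
        have e2 : ContinuousAt (fun z : ℝ × (B × N × ℝ) => E (z.2.1, z.2.2.1))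
            ((0 : ℝ), (b, n, r)) := by
          refine ContinuousAt.comp (g := E) (f := fun z : ℝ × (B × N × ℝ) => (z.2.1, z.2.2.1)) ?_
            (by fun_prop)
          exact hEc _ hb'
        have e3 : ContinuousAt (fun z : ℝ × (B × N × ℝ) => τ (E (Y z.1 z.2.1, z.2.2.1)) z.2.2.2)
            ((0 : ℝ), (b, n, r)) := by
          refine ContinuousAt.comp (g := fun z : M × ℝ => τ z.1 z.2)
            (f := fun z : ℝ × (B × N × ℝ) => (E (Y z.1 z.2.1, z.2.2.1), z.2.2.2)) ?_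
            (ContinuousAt.prodMk e1 (by fun_prop))
          apply c.at_τ
          change p (E (Y 0 b, n)) ∈ U
          rw [y0, hEp _ hb']
          exact hb'
        have e4 : ContinuousAt (fun z : ℝ × (B × N × ℝ) => τ (E (z.2.1, z.2.2.1)) z.2.2.2)
            ((0 : ℝ), (b, n, r)) := by
          refine ContinuousAt.comp (g := fun z : M × ℝ => τ z.1 z.2)
            (f := fun z : ℝ × (B × N × ℝ) => (E (z.2.1, z.2.2.1), z.2.2.2)) ?_
            (ContinuousAt.prodMk e2 (by fun_prop))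
          apply c.at_τ
          change p (E (b, n)) ∈ U
          rw [hEp _ hb']
          exact hb'
        refine ((e3.sub e4).abs.eventually (gt_mem_nhds ?_)).and
          ((e1.dist e2).eventually (gt_mem_nhds ?_))
        · simp only [Pi.sub_apply, y0, sub_self, abs_zero]
          exact hpos
        · simp only [y0, dist_self]
          positivity)
    refine ⟨δ1, hδ1, fun θ hθ b hb n r hr => ?_⟩
    have := h θ hθ (b, n, r) ⟨hb, mem_univ _, abs_le.1 hr⟩
    exact ⟨this.1.le, this.2.le⟩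
  obtain ⟨δ1, hδ10, hδ1⟩ := hδ1
  refine ⟨δ1 / (2 * (A' + 1)), by positivity, ?_⟩
  intro s h hs hs01 hsl hmv
  have hδA : δ1 / (2 * (A' + 1)) * A' < δ1 := by
    have h1 : 0 < 2 * (A' + 1) := by positivity
    rw [div_mul_eq_mul_div, div_lt_iff₀ h1]
    nlinarith
  -- properties of `h`
  have hh1 : ∀ x, p x ∉ K → h x = x := fun x hx => (hmv.1 x hx).1
  have hh1' : ∀ x, p x ∉ K → h.symm x = x := fun x hx => (hmv.1 x hx).2
  have hYU : ∀ z ∈ U, ∀ t, Y t z ∈ U := fun z hz t => inv_U hKU hY hz t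
  have hhx : ∀ x, p x ∈ U → h x = E (Y (-(s (e x).2)) (p x), (e x).2) := fun x hx => (hmv.2 x hx).1
  have hhs : ∀ x, p x ∈ U → h.symm x = E (Y (s (e x).2) (p x), (e x).2) := fun x hx => (hmv.2 x hx).2
  have hhU : ∀ x, p x ∈ U → p (h x) ∈ U := by
    intro x hx
    rw [hhx x hx, hEp _ (hYU _ hx _)]
    exact hYU _ hx _
  -- the density
  set f : M → ℝ := fun x => if p x ∈ U then η⁻¹ * τ (h x) (a x η) else 1 with hf
  have hfU : ∀ x, p x ∈ U → f x = η⁻¹ * τ (h x) (a x η) := fun x hx => by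
    simp only [hf]
    rw [if_pos hx]
  have hf1 : ∀ x, p x ∉ K → f x = 1 := by
    intro x hx
    by_cases hxU : p x ∈ U
    · rw [hfU x hxU, hh1 x hx, c.left x hxU, inv_mul_cancel₀ hη0.ne']
    · simp only [hf]
      rw [if_neg hxU]
  have hfc : Continuous f := by
    rw [continuous_iff_continuousAt]
    intro x
    by_cases hxK : p x ∈ K
    · have hxU := hKU hxK
      have hev : f =ᶠ[𝓝 x] fun y => η⁻¹ * τ (h y) (a y η) := by
        have : {y | p y ∈ U} ∈ 𝓝 x := (e.open_baseSet.preimage hp).mem_nhds hxU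
        filter_upwards [this] with y hy
        exact hfU y hy
      refine ContinuousAt.congr ?_ hev.symm
      refine continuousAt_const.mul ?_
      have e1 : ContinuousAt (fun y => a y η) x :=
        ContinuousAt.comp (g := fun z : M × ℝ => a z.1 z.2) (f := fun y => (y, η))
          (c.at_a hxU η) (by fun_prop)
      refine ContinuousAt.comp (g := fun z : M × ℝ => τ z.1 z.2) (f := fun y => (h y, a y η)) ?_
        (ContinuousAt.prodMk h.continuous.continuousAt e1)
      exact c.at_τ (hhU x hxU) _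
    · have hev : f =ᶠ[𝓝 x] fun _ => 1 := by
        have : {y | p y ∉ K} ∈ 𝓝 x := (hKc.isOpen_compl.preimage hp).mem_nhds hxK
        filter_upwards [this] with y hy
        exact hf1 y hy
      exact continuousAt_const.congr hev.symm
  have hfpos : ∀ x, 0 < f x := by
    intro x
    by_cases hxU : p x ∈ U
    · rw [hfU x hxU]
      have e1 : 0 < a x η := by
        have := c.mono x hxU hη0
        rwa [c.zero x hxU] at this
      have e2 := c.τ_mono (hhU x hxU) e1
      rw [c.τ_zero (hhU x hxU)] at e2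
      positivity
    · simp only [hf]
      rw [if_neg hxU]
      exact one_pos
  obtain ⟨φ', r, hr1, hr2, hr3, hr4, hr5⟩ := hTC M φ f hfc hfpos
  refine ⟨φ', ⟨r, hr1, hr2, hr3, hr4⟩, ?_⟩
  intro t x' ht
  have htT : |t| ≤ T' := ht.trans (le_max_left _ _)
  by_cases hx' : p x' ∈ K
  swap
  · rw [hh1' x' hx', hr4]
    have e1 := hr5 t x'
    have e2 : ∀ q, f (φ q x') = 1 := fun q => hf1 _ (by rw [hvert]; exact hx')
    simp only [e2, intervalIntegral.integral_const, smul_eq_mul, mul_one, sub_zero] at e1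
    rw [e1, hh1 _ (by rw [hvert]; exact hx'), dist_self]
    exact hε.le
  have hx'U : p x' ∈ U := hKU hx'
  set x : M := h.symm x' with hx
  set n : N := (e x').2 with hn
  have hxE : x = E (Y (s n) (p x'), n) := hhs x' hx'U
  have hpx : p x = Y (s n) (p x') := by rw [hxE, hEp _ (hYU _ hx'U _)]
  have hnx : (e x).2 = n := by rw [hxE, hEs _ (hYU _ hx'U _)]
  have hxK : p x ∈ K := by
    rw [hpx]
    exact inv_K hY hx' _
  have hxU : p x ∈ U := hKU hxK
  set G : ℝ → ℝ := fun q => τ x' (a x q) with hG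
  have hGc : Continuous G := by
    rw [continuous_iff_continuousAt]
    intro q
    have e1 : ContinuousAt (fun q => a x q) q :=
      ContinuousAt.comp (g := fun z : M × ℝ => a z.1 z.2) (f := fun q => (x, q))
        (c.at_a hxU q) (by fun_prop)
    exact ContinuousAt.comp (g := fun z : M × ℝ => τ z.1 z.2) (f := fun q => (x', a x q))
      (c.at_τ hx'U _) (ContinuousAt.prodMk continuousAt_const e1)
  have hG0 : G 0 = 0 := by
    simp only [hG]
    rw [c.zero x hxU, c.τ_zero hx'U]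
  have hGd : ∀ q q', |q| ≤ ρ → |q' - q| ≤ η → |G q' - G q| ≤ κ := by
    intro q q' hq hq'
    have e1 := hηd x hxK x' hx' q (q' - q) hq hq'
    rwa [add_sub_cancel] at e1
  -- the points of the leaf
  have hpt : ∀ q, E (p x', (e (φ q x)).2) = φ (G q) x' := fun q => c.point hxU hx'U hnx q
  have hkey : ∀ q, |q| ≤ ρ → ∃ θ : ℝ, |θ| < δ1 ∧ h (φ q x) = E (Y θ (p x'), (e (φ q x)).2) := by
    intro q hq
    have hyU : p (φ q x) ∈ U := by rw [hvert]; exact hxU
    refine ⟨-(s (e (φ q x)).2) + s n, ?_, ?_⟩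
    · rw [c.eq x hxU, hnx]
      have e1 := hsl (a x q) n
      have e2 : |a x q| ≤ A' := hA' x hxK q (by linarith)
      have e3 : |-(s (ψ (a x q) n)) + s n| = |s (ψ (a x q) n) - s n| := by
        rw [← abs_neg]
        congr 1
        ring
      rw [e3]
      refine lt_of_le_of_lt (e1.trans ?_) hδA
      exact mul_le_mul_of_nonneg_left e2 (by positivity)
    · rw [hhx _ hyU, hvert, hpx, ← Y.map_add]
  have hgd : ∀ q, |q| ≤ ρ → |f (φ q x) - η⁻¹ * (G (q + η) - G q)| ≤ κ / (ρ + 1) := by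
    intro q hq
    have hyK : p (φ q x) ∈ K := by rw [hvert]; exact hxK
    have hyU : p (φ q x) ∈ U := hKU hyK
    obtain ⟨θ, hθ, hθh⟩ := hkey q hq
    have e1 : |a (φ q x) η| ≤ A' := hA' _ hyK η (by rw [abs_of_pos hη0]; linarith)
    have e2 := (hδ1 θ hθ (p x') hx' (e (φ q x)).2 (a (φ q x) η) e1).1
    rw [hpt q, c.τ_add hx'U, ← hθh] at e2
    have e3 : a x' (G q) = a x q := c.right x' hx'U _
    have e4 : a (φ q x) η + a x q = a x (q + η) := by
      rw [add_comm q η, c.add x hxU]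
    rw [e3, e4] at e2
    rw [hfU _ hyU, ← mul_sub, abs_mul, abs_of_pos (inv_pos.2 hη0), inv_mul_le_iff₀ hη0]
    exact e2
  have hJ : ∀ r', |r'| ≤ ρ → |(∫ q in (0 : ℝ)..r', f (φ q x)) - G r'| ≤ 3 * κ := fun r' hr' =>
    int_est (g := fun q => f (φ q x)) (hfc.comp (φ.continuous continuous_id continuous_const)) hGc hη0
      hκ0.le hρ0 hgd hGd hG0 hr'
  have ht' := abs_le.1 htT
  have hrρ : |r t x| ≤ ρ := by
    rw [abs_le]
    constructor
    · by_contra hn'
      push Not at hn'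
      obtain ⟨t1, ht1⟩ := hr3 x (-ρ)
      change r t1 x = -ρ at ht1
      have e1 := hr5 t1 x
      rw [ht1] at e1
      have e2 := hJ (-ρ) (by rw [abs_neg, abs_of_nonneg hρ0])
      rw [e1] at e2
      have e3 : G (-ρ) ≤ -(T' + 2) := (hbig x hxK x' hx').2
      have e4 : t < t1 := by
        by_contra h5
        push Not at h5
        have := (hr1 x).monotone h5
        change r t1 x ≤ r t x at this
        linarith
      have e5 := (abs_le.1 e2).2
      linarith
    · by_contra hn'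
      push Not at hn'
      obtain ⟨t1, ht1⟩ := hr3 x ρ
      change r t1 x = ρ at ht1
      have e1 := hr5 t1 x
      rw [ht1] at e1
      have e2 := hJ ρ (by rw [abs_of_nonneg hρ0])
      rw [e1] at e2
      have e3 : T' + 2 ≤ G ρ := (hbig x hxK x' hx').1
      have e4 : t1 < t := by
        by_contra h5
        push Not at h5
        have := (hr1 x).monotone h5
        change r t x ≤ r t1 x at this
        linarith
      have e5 := (abs_le.1 e2).1
      linarith
  have hfin := hJ _ hrρ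
  rw [hr5] at hfin
  obtain ⟨θ, hθ, hθh⟩ := hkey _ hrρ
  have d1 := (hδ1 θ hθ (p x') hx' (e (φ (r t x) x)).2 0 (by rw [abs_zero]; exact hA'0)).2
  rw [hpt, ← hθh] at d1
  have d2 := hκd t x' (G (r t x) - t) htT (by rw [abs_sub_comm]; exact hfin)
  rw [add_sub_cancel] at d2
  rw [hr4]
  have d3 := dist_triangle (h (φ (r t x) x)) (φ (G (r t x)) x') (φ t x')
  linarith

end Pool.Agent.MP98850d.Bd
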