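import Pool.Agent.Lib.MP_98850d_an.Bd.Spec
import Pool.Agent.Lib.MP_98850d_an.SpecB

/-!
# MP_98850d_an, `Bd`: the theorem for a flow along the fibres
-/

set_option autoImplicit false

namespace Pool.Agent.MP98850d.Bd

open Set Filter Topology Bundle

universe u v w

namespace FinAux

theorem tch_refl {X : Type u} [TopologicalSpace X] (φ : Flow ℝ X) : TCh φ φ :=
  ⟨fun t _ => t, fun _ => strictMono_id, fun _ => rfl, fun _ => Function.surjective_id, fun _ _ => rfl⟩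

theorem tch_trans {X : Type u} [TopologicalSpace X] {φ φ1 φ2 : Flow ℝ X} (h : TCh φ φ1) (h' : TCh φ1 φ2) : TCh φ φ2 := by
  obtain ⟨r, hr1, hr2, hr3, hr4⟩ := h
  obtain ⟨q, hq1, hq2, hq3, hq4⟩ := h'
  refine ⟨fun t x => r (q t x) x, fun x => (hr1 x).comp (hq1 x), fun x => ?_, fun x => (hr3 x).comp (hq3 x), fun t x => ?_⟩
  · show r (q 0 x) x = 0
    rw [hq2, hr2]
  · rw [hq4, hr4]

theorem tch_pos {X : Type u} {r : ℝ → X → ℝ} (h1 : ∀ x, StrictMono fun t => r t x) (h2 : ∀ x, r 0 x = 0) (t : ℝ) (x : X) :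
    0 ≤ r t x ↔ 0 ≤ t := by
  have h := (h1 x).le_iff_le (a := 0) (b := t)
  simpa [h2 x] using h

theorem tch_vert {M : Type u} {B : Type v} [TopologicalSpace M] {p : M → B} {φ φ1 : Flow ℝ M} (hv : ∀ t x, p (φ t x) = p x)
    (h : TCh φ φ1) : ∀ t x, p (φ1 t x) = p x := by
  obtain ⟨r, _, _, _, hr4⟩ := h
  intro t x
  rw [hr4, hv]

theorem tch_along {M : Type u} {B : Type v} {N : Type w} [TopologicalSpace M] [TopologicalSpace B] [TopologicalSpace N]
    {ψ : Flow ℝ N} {p : M → B} {e : Trivialization N p} {φ φ1 : Flow ℝ M} (ha : Along ψ e φ) (h : TCh φ φ1) : Along ψ e φ1 := by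
  obtain ⟨r, hr1, hr2, hr3, hr4⟩ := h
  constructor
  · intro x t hx ht
    rw [hr4]
    exact ha.1 x (r t x) hx ((tch_pos hr1 hr2 t x).2 ht)
  · intro x s hx hs
    obtain ⟨t, ht, hts⟩ := ha.2 x s hx hs
    obtain ⟨t', ht'⟩ := hr3 x t
    have ht'' : r t' x = t := ht'
    refine ⟨t', (tch_pos hr1 hr2 t' x).1 (by rw [ht'']; exact ht), ?_⟩
    rw [hr4, ht'']
    exact hts

theorem fib_dense {M : Type u} {B : Type v} {N : Type w} [TopologicalSpace M] [TopologicalSpace B] [TopologicalSpace N]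
    {ψ : Flow ℝ N} {p : M → B} (e : Trivialization N p) {φ : Flow ℝ M} (hm : Mnm ψ) (hv : ∀ t x, p (φ t x) = p x)
    (ha : Along ψ e φ) (W : Set M) (hW : IsOpen W) (x y : M) (hx : p x ∈ e.baseSet) (hxy : p y = p x) (hy : y ∈ W) :
    ∃ t, φ t x ∈ W := by
  set Z : Set N := {n | (p x, n) ∈ e.target ∩ e.toOpenPartialHomeomorph.symm ⁻¹' W} with hZ
  have hZo : IsOpen Z := by
    have h1 : IsOpen (e.target ∩ e.toOpenPartialHomeomorph.symm ⁻¹' W) :=
      e.toOpenPartialHomeomorph.isOpen_inter_preimage_symm hW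
    exact h1.preimage (by fun_prop)
  have hys : y ∈ e.source := by
    rw [e.mem_source, hxy]
    exact hx
  have hxs : x ∈ e.source := e.mem_source.2 hx
  have hZn : (e y).2 ∈ Z := by
    have h1 : (p x, (e y).2) = e y := by
      rw [← hxy, ← e.coe_fst hys]
    rw [hZ, mem_setOf_eq, h1]
    refine ⟨e.map_source hys, ?_⟩
    rw [mem_preimage]
    have h2 : e.toOpenPartialHomeomorph.symm (e y) = y := e.left_inv hys
    rw [h2]
    exact hy
  obtain ⟨_, ⟨s, rfl⟩, hs⟩ := (hm (e x).2).exists_mem_open hZo ⟨_, hZn⟩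
  obtain ⟨ht, hW'⟩ := hs
  rw [mem_preimage] at hW'
  set x' := e.toOpenPartialHomeomorph.symm (p x, ψ s (e x).2) with hx'
  have hx's : x' ∈ e.source := e.map_target ht
  have hex' : e x' = (p x, ψ s (e x).2) := e.right_inv ht
  have hpx' : p x' = p x := by
    rw [← e.coe_fst hx's, hex']
  have huniq : ∀ z z', z ∈ e.source → z' ∈ e.source → p z = p z' → (e z).2 = (e z').2 → z = z' := by
    intro z z' hz hz' h1 h2
    apply e.injOn hz hz'
    apply Prod.ext
    · show (e z).1 = (e z').1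
      rw [e.coe_fst hz, e.coe_fst hz']
      exact h1
    · exact h2
  have hsrc : ∀ t z, z ∈ e.source → φ t z ∈ e.source := by
    intro t z hz
    rw [e.mem_source, hv]
    exact e.mem_source.1 hz
  rcases le_total 0 s with h0 | h0
  · obtain ⟨t, _, h2⟩ := ha.2 x s hx h0
    refine ⟨t, ?_⟩
    have h3 : φ t x = x' := huniq _ _ (hsrc t x hxs) hx's (by rw [hv, hpx']) (by rw [h2, hex'])
    rw [h3]
    exact hW'
  · obtain ⟨t, _, h2⟩ := ha.2 x' (-s) (e.mem_source.1 hx's) (by linarith)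
    refine ⟨-t, ?_⟩
    have h3 : φ t x' = x := by
      refine huniq _ _ (hsrc t x' hx's) hxs (by rw [hv, hpx']) ?_
      rw [h2, hex']
      show ψ (-s) (ψ s (e x).2) = (e x).2
      rw [← Flow.map_add]
      simp
    have h4 : φ (-t) x = x' := by
      rw [← h3, ← Flow.map_add]
      simp
    rw [h4]
    exact hW'

/-- the conjugate flow -/
def cj {X : Type u} [TopologicalSpace X] (g : X ≃ₜ X) (φ : Flow ℝ X) : Flow ℝ X where
  toFun t x := g (φ t (g.symm x))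
  cont' := by
    have h : Continuous fun z : ℝ × X => g (φ z.1 (g.symm z.2)) :=
      g.continuous.comp (φ.continuous continuous_fst (g.symm.continuous.comp continuous_snd))
    exact h
  map_add' s t x := by
    simp only [Homeomorph.symm_apply_apply]
    rw [Flow.map_add]
  map_zero' x := by simp

theorem cj_apply {X : Type u} [TopologicalSpace X] (g : X ≃ₜ X) (φ : Flow ℝ X) (t : ℝ) (x : X) :
    cj g φ t x = g (φ t (g.symm x)) := rfl

end FinAux

open FinAux in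
theorem tFin (hLim : Pool.Agent.MP98850d.S_Lim.{u}) (hInd : S_Ind.{v}) (hStp : S_Stp.{u, v, w}) : S_Fin.{u, v, w} := by
  intro d M B N _ _ _ _ _ _ _ _ _ _ p ψ e φ hp hfr hmn hbs hv ha
  refine hLim M {F | ∃ (g : M ≃ₜ M) (φ1 : Flow ℝ M), TCh φ φ1 ∧ F = cj g φ1}
    ⟨cj (Homeomorph.refl M) φ, Homeomorph.refl M, φ, tch_refl φ, rfl⟩ ?_
  rintro _ ⟨g, φ', hφ', rfl⟩ U hU hUne ε T hε
  have key := hInd d B (fun b => (e b).baseSet) (fun b => (e b).open_baseSet) hbs
    (fun C => ∀ ε : ℝ, 0 < ε → ∃ (g1 : M ≃ₜ M) (φ1 : Flow ℝ M), TCh φ φ1 ∧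
      (∀ t x, |t| ≤ T → dist (cj g1 φ1 t x) (cj g φ' t x) ≤ ε) ∧ C ⊆ p '' (g1 ⁻¹' U)) ?_ ?_
  · obtain ⟨g1, φ1, h1, h2, h3⟩ := key ε hε
    refine ⟨cj g1 φ1, ⟨g1, φ1, h1, rfl⟩, h2, fun x => ?_⟩
    obtain ⟨y, hy, hyp⟩ := h3 (mem_univ (p (g1.symm x)))
    have h4 := fib_dense (e (p (g1.symm x))) hmn (tch_vert hv h1) (tch_along (ha (p (g1.symm x))) h1) (g1 ⁻¹' U)
      (hU.preimage g1.continuous) (g1.symm x) y (hbs _) hyp hy
    obtain ⟨t, ht⟩ := h4
    exact ⟨t, ht⟩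
  · obtain ⟨x0, hx0⟩ := hUne
    set V : Set M := g ⁻¹' U with hV
    have hVo : IsOpen V := hU.preimage g.continuous
    have hx : g.symm x0 ∈ V := by
      rw [hV, mem_preimage, Homeomorph.apply_symm_apply]
      exact hx0
    have h1 : p '' V ∈ 𝓝 (p (g.symm x0)) := by
      rw [← (e (p (g.symm x0))).map_proj_nhds ((e (p (g.symm x0))).mem_source.2 (hbs _)), mem_map]
      exact mem_of_superset (hVo.mem_nhds hx) (subset_preimage_image p V)
    obtain ⟨C, hC1, hC2, hC3⟩ := local_compact_nhds h1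
    refine ⟨C, hC3, ⟨_, mem_interior_iff_mem_nhds.2 hC1⟩, fun ε' hε' => ⟨g, φ', hφ', fun t x _ => ?_, hC2⟩⟩
    rw [dist_self]
    exact hε'.le
  · intro C hC hPC i K Y hK hKU hY ε' hε'
    obtain ⟨g1, φ1, h1, h2, h3⟩ := hPC (ε' / 2) (by linarith)
    have huc : UniformContinuous g1 := CompactSpace.uniformContinuous_of_continuous g1.continuous
    obtain ⟨δ, hδ, hδ'⟩ := Metric.uniformContinuous_iff.1 huc (ε' / 2) (by linarith)
    obtain ⟨h, φ2, hh1, hh2, hh3⟩ := hStp M B N p ψ (e i) φ1 hp hfr hmn (tch_vert hv h1) (tch_along (ha i) h1) K Y hK hKU hY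
      (g1 ⁻¹' U) C (hU.preimage g1.continuous) hC h3 (δ / 2) T (by linarith)
    refine ⟨h.trans g1, φ2, tch_trans h1 hh1, fun t x ht => ?_, ?_⟩
    · have e1 : dist (cj (h.trans g1) φ2 t x) (cj g1 φ1 t x) ≤ ε' / 2 := by
        have h4 := hh2 t (g1.symm x) ht
        exact (hδ' (lt_of_le_of_lt h4 (by linarith))).le
      calc dist (cj (h.trans g1) φ2 t x) (cj g φ' t x) ≤ dist (cj (h.trans g1) φ2 t x) (cj g1 φ1 t x) +
            dist (cj g1 φ1 t x) (cj g φ' t x) := dist_triangle _ _ _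
        _ ≤ ε' / 2 + ε' / 2 := add_le_add e1 (h2 t x ht)
        _ = ε' := by ring
    · exact hh3

end Pool.Agent.MP98850d.Bd
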