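import Pool.Agent.Lib.MP_98850d_an.Bd.Spec

/-!
# Module Glu: a flow of the total space along the leaves
-/

set_option autoImplicit false

namespace Pool.Agent.MP98850d.Bd

open Set Filter Topology Bundle

universe u v w

namespace GluAux

theorem uniq {N : Type w} [TopologicalSpace N] (ψ : Flow ℝ N) (hψ : Fr ψ) {s s' : ℝ} {n : N}
    (h : ψ s n = ψ s' n) : s = s' := by
  have h1 : ψ (-s') (ψ s n) = n := by
    rw [h, ← ψ.map_add]; simp
  rw [← ψ.map_add] at h1
  have := hψ _ _ h1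
  linarith

/-- continuity of the inverse function -/
theorem cont_tau {X : Type u} [TopologicalSpace X] {O : Set X} (hO : IsOpen O) (a τ : X → ℝ → ℝ)
    (hm : ∀ x ∈ O, StrictMono (a x)) (hc : ∀ t, ContinuousOn (fun x => a x t) O)
    (hr : ∀ x ∈ O, ∀ r, a x (τ x r) = r) (x0 : X) (hx0 : x0 ∈ O) (u0 : ℝ) :
    ContinuousAt (fun z : X × ℝ => τ z.1 z.2) (x0, u0) := by
  have hO' : ∀ᶠ x in 𝓝 x0, x ∈ O := hO.mem_nhds hx0
  unfold ContinuousAt
  rw [tendsto_order]
  constructor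
  · intro b hb
    have h1 : a x0 b < u0 := by
      have := hm x0 hx0 hb
      simpa [hr x0 hx0] using this
    obtain ⟨c, hc1, hc2⟩ := exists_between h1
    have h4 : ∀ᶠ x in 𝓝 x0, a x b < c :=
      ((hc b).continuousAt (hO.mem_nhds hx0)).eventually (gt_mem_nhds hc1)
    have h5 : ∀ᶠ r in 𝓝 u0, c < r := lt_mem_nhds hc2
    filter_upwards [(hO'.and h4).prod_nhds h5] with z hz
    have h6 : a z.1 b < a z.1 (τ z.1 z.2) := by rw [hr z.1 hz.1.1]; exact hz.1.2.trans hz.2
    exact (hm z.1 hz.1.1).lt_iff_lt.1 h6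
  · intro b hb
    have h1 : u0 < a x0 b := by
      have := hm x0 hx0 hb
      simpa [hr x0 hx0] using this
    obtain ⟨c, hc1, hc2⟩ := exists_between h1
    have h4 : ∀ᶠ x in 𝓝 x0, c < a x b :=
      ((hc b).continuousAt (hO.mem_nhds hx0)).eventually (lt_mem_nhds hc2)
    have h5 : ∀ᶠ r in 𝓝 u0, r < c := gt_mem_nhds hc1
    filter_upwards [(hO'.and h4).prod_nhds h5] with z hz
    have h6 : a z.1 (τ z.1 z.2) < a z.1 b := by rw [hr z.1 hz.1.1]; exact hz.2.trans hz.1.2
    exact (hm z.1 hz.1.1).lt_iff_lt.1 h6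

section chart

variable {M : Type u} {B : Type v} {N : Type w} [TopologicalSpace M] [TopologicalSpace B]
  [TopologicalSpace N] {p : M → B}

/-- the flow of a chart -/
noncomputable def fl (ψ : Flow ℝ N) (e : Trivialization N p) (t : ℝ) (x : M) : M :=
  e.toOpenPartialHomeomorph.symm (p x, ψ t (e x).2)

variable (ψ : Flow ℝ N) (e : Trivialization N p)

theorem p_fl {x : M} (hx : p x ∈ e.baseSet) (t : ℝ) : p (fl ψ e t x) = p x :=
  e.proj_symm_apply' hx

theorem e_fl {x : M} (hx : p x ∈ e.baseSet) (t : ℝ) : (e (fl ψ e t x)).2 = ψ t (e x).2 := by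
  unfold fl
  rw [e.apply_symm_apply' hx]

theorem fl_of {x y : M} (hx : p x ∈ e.baseSet) (hy : p y = p x) {s : ℝ}
    (h : (e y).2 = ψ s (e x).2) : y = fl ψ e s x := by
  unfold fl
  rw [← h, ← hy]
  exact (e.symm_apply_mk_proj (e.mem_source.2 (hy ▸ hx))).symm

theorem fl_zero {x : M} (hx : p x ∈ e.baseSet) : fl ψ e 0 x = x :=
  (fl_of ψ e hx rfl (by simp)).symm

theorem fl_add {x : M} (hx : p x ∈ e.baseSet) (s t : ℝ) :
    fl ψ e (s + t) x = fl ψ e s (fl ψ e t x) := by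
  symm
  have hx' : p (fl ψ e t x) ∈ e.baseSet := by rw [p_fl ψ e hx]; exact hx
  apply fl_of ψ e hx
  · rw [p_fl ψ e hx', p_fl ψ e hx]
  · rw [e_fl ψ e hx', e_fl ψ e hx, ψ.map_add]

theorem isOpen_base (hp : Continuous p) : IsOpen (p ⁻¹' e.baseSet) := e.open_baseSet.preimage hp

theorem cont_snd {x : M} (hx : p x ∈ e.baseSet) : ContinuousAt (fun y => (e y).2) x := by
  have h : ContinuousAt e x := e.continuousAt (e.mem_source.2 hx)
  exact h.snd

theorem cont_fl (hp : Continuous p) {Z : Type*} [TopologicalSpace Z] {f : Z → ℝ} {g : Z → M} {z : Z}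
    (hf : ContinuousAt f z) (hg : ContinuousAt g z) (hz : p (g z) ∈ e.baseSet) :
    ContinuousAt (fun y => fl ψ e (f y) (g y)) z := by
  have h1 : ContinuousAt (fun y => p (g y)) z := hp.continuousAt.comp hg
  have h2 : ContinuousAt (fun y => (e (g y)).2) z :=
    ContinuousAt.comp (f := g) (g := fun y => (e y).2) (cont_snd e hz) hg
  have h3 : ContinuousAt (fun y => ψ (f y) (e (g y)).2) z := by
    have h4 : Continuous (fun q : ℝ × N => ψ q.1 q.2) := ψ.cont'
    exact ContinuousAt.comp (f := fun y => (f y, (e (g y)).2))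
      (g := fun q : ℝ × N => ψ q.1 q.2) h4.continuousAt (hf.prodMk h2)
  have h5 : ContinuousAt (fun y => (p (g y), ψ (f y) (e (g y)).2)) z := h1.prodMk h3
  have h6 : ContinuousAt e.toOpenPartialHomeomorph.symm (p (g z), ψ (f z) (e (g z)).2) :=
    e.toOpenPartialHomeomorph.symm.continuousAt (e.mem_target.2 hz)
  exact ContinuousAt.comp (f := fun y => (p (g y), ψ (f y) (e (g y)).2)) (g := e.toOpenPartialHomeomorph.symm) h6 h5

/-- the comparison of two charts -/
theorem exA [T2Space N] (hCyA : S_CyA.{u, w}) (hp : Continuous p) (hψ : Fr ψ) (e' : Trivialization N p)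
    (h1 : ∀ x, p x ∈ e.baseSet → p x ∈ e'.baseSet → ∀ t : ℝ, 0 ≤ t →
      ∃ s, 0 ≤ s ∧ (e' (fl ψ e t x)).2 = ψ s (e' x).2)
    (h2 : ∀ x, p x ∈ e'.baseSet → p x ∈ e.baseSet → ∀ t : ℝ, 0 ≤ t →
      ∃ s, 0 ≤ s ∧ (e (fl ψ e' t x)).2 = ψ s (e x).2) :
    ∃ A : M → ℝ → ℝ, (∀ t, ContinuousOn (fun x => A x t) (p ⁻¹' e.baseSet ∩ p ⁻¹' e'.baseSet)) ∧
      ∀ x, p x ∈ e.baseSet → p x ∈ e'.baseSet → (∀ t, (e' (fl ψ e t x)).2 = ψ (A x t) (e' x).2) ∧
        StrictMono (A x) ∧ A x 0 = 0 ∧ Continuous (A x) ∧ (∀ r, ∃ t, A x t = r) ∧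
        ∀ s t, A x (s + t) = A (fl ψ e t x) s + A x t := by
  classical
  have hb : ∀ (t : ℝ) (x : {x : M // p x ∈ e.baseSet ∧ p x ∈ e'.baseSet}),
      p (fl ψ e t x.1) ∈ e.baseSet ∧ p (fl ψ e t x.1) ∈ e'.baseSet := by
    intro t x
    rw [p_fl ψ e x.2.1]
    exact x.2
  let φ : Flow ℝ {x : M // p x ∈ e.baseSet ∧ p x ∈ e'.baseSet} :=
    { toFun := fun t x => ⟨fl ψ e t x.1, hb t x⟩
      cont' := by
        refine Continuous.subtype_mk ?_ _
        rw [continuous_iff_continuousAt]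
        rintro ⟨t, x⟩
        exact cont_fl ψ e hp (f := fun z : ℝ × {x : M // p x ∈ e.baseSet ∧ p x ∈ e'.baseSet} => z.1)
          (g := fun z => z.2.1) continuousAt_fst (continuous_subtype_val.comp continuous_snd).continuousAt x.2.1
      map_add' := by
        intro s t x
        exact Subtype.ext (fl_add ψ e x.2.1 s t)
      map_zero' := by
        intro x
        exact Subtype.ext (fl_zero ψ e x.2.1) }
  have hφ : ∀ t x, (φ t x).1 = fl ψ e t x.1 := fun _ _ => rfl
  have hq : Continuous (fun x : {x : M // p x ∈ e.baseSet ∧ p x ∈ e'.baseSet} => (e' x.1).2) := by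
    rw [continuous_iff_continuousAt]
    intro x
    exact ContinuousAt.comp (f := Subtype.val) (g := fun y => (e' y).2) (cont_snd e' x.2.2)
      continuous_subtype_val.continuousAt
  obtain ⟨a, τ, ha, -, hall⟩ := hCyA {x : M // p x ∈ e.baseSet ∧ p x ∈ e'.baseSet} N ψ φ
    (fun x => (e' x.1).2) hψ hq
    (by
      intro x t ht
      obtain ⟨s, hs0, hs⟩ := h1 x.1 x.2.1 x.2.2 t ht
      exact ⟨s, hs0, hs⟩)
    (by
      intro x s hs
      obtain ⟨t, ht0, ht⟩ := h2 x.1 x.2.2 x.2.1 s hs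
      refine ⟨t, ht0, ?_⟩
      have h3 := fl_of ψ e x.2.1 (p_fl ψ e' x.2.2 s) ht
      show (e' (fl ψ e t x.1)).2 = _
      rw [← h3, e_fl ψ e' x.2.2])
    (by
      intro x s hs
      have hx2 : p (fl ψ e' s x.1) = p x.1 := p_fl ψ e' x.2.2 s
      obtain ⟨t, ht0, ht⟩ := h2 (fl ψ e' s x.1) (by rw [hx2]; exact x.2.2) (by rw [hx2]; exact x.2.1) (-s)
        (by linarith)
      rw [← fl_add ψ e' x.2.2, neg_add_cancel, fl_zero ψ e' x.2.2] at ht
      refine ⟨-t, by linarith, ?_⟩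
      have h3 : (e (fl ψ e' s x.1)).2 = ψ (-t) (e x.1).2 := by
        rw [ht, ← ψ.map_add]; simp
      have h4 := fl_of ψ e x.2.1 hx2 h3
      show (e' (fl ψ e (-t) x.1)).2 = _
      rw [← h4, e_fl ψ e' x.2.2])
    (by
      intro x t h
      apply Subtype.ext
      have h3 : (e' (fl ψ e t x.1)).2 = ψ 0 (e' x.1).2 := by simpa using h
      have h4 := fl_of ψ e' x.2.2 (p_fl ψ e x.2.1 t) h3
      rw [fl_zero ψ e' x.2.2] at h4
      exact h4)
  let A : M → ℝ → ℝ := fun x t => if h : p x ∈ e.baseSet ∧ p x ∈ e'.baseSet then a ⟨x, h⟩ t else 0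
  have hA : ∀ x (h : p x ∈ e.baseSet ∧ p x ∈ e'.baseSet) t, A x t = a ⟨x, h⟩ t := by
    intro x h t
    show (if h : p x ∈ e.baseSet ∧ p x ∈ e'.baseSet then a ⟨x, h⟩ t else 0) = _
    rw [dif_pos h]
  refine ⟨A, ?_, ?_⟩
  · intro t
    rw [continuousOn_iff_continuous_domRestrict]
    have h5 : Continuous fun x : {x : M // p x ∈ e.baseSet ∧ p x ∈ e'.baseSet} => a x t :=
      ha.comp (continuous_id.prodMk continuous_const)
    refine h5.congr ?_
    intro x
    exact (hA x.1 x.2 t).symm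
  · intro x hx hx'
    obtain ⟨g1, g2, g3, g4, g5, g6⟩ := hall ⟨x, hx, hx'⟩
    have g0 : A x = a ⟨x, hx, hx'⟩ := by
      funext t
      exact hA x ⟨hx, hx'⟩ t
    refine ⟨?_, ?_, ?_, ?_, ?_, ?_⟩
    · intro t
      rw [g0]
      exact g1 t
    · rw [g0]; exact g2
    · rw [g0]; exact g3
    · rw [g0]
      exact ha.comp (continuous_const.prodMk continuous_id)
    · intro r
      refine ⟨τ ⟨x, hx, hx'⟩ r, ?_⟩
      rw [g0]; exact g5 r
    · intro s t
      have h6 : p (fl ψ e t x) ∈ e.baseSet ∧ p (fl ψ e t x) ∈ e'.baseSet := by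
        rw [p_fl ψ e hx]; exact ⟨hx, hx'⟩
      rw [g0, hA (fl ψ e t x) h6]
      exact g6 s t

end chart

end GluAux

open GluAux

theorem tGlu : S_CyA.{u, w} → S_Glu.{u, v, w} := by
  classical
  intro hCyA M B N _ _ _ _ _ _ p ψ e hp hψ hbase hcomp
  have hA : ∀ b c, ∃ A : M → ℝ → ℝ,
      (∀ t, ContinuousOn (fun x => A x t) (p ⁻¹' (e b).baseSet ∩ p ⁻¹' (e c).baseSet)) ∧
      ∀ x, p x ∈ (e b).baseSet → p x ∈ (e c).baseSet →
        (∀ t, ((e c) (fl ψ (e b) t x)).2 = ψ (A x t) ((e c) x).2) ∧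
        StrictMono (A x) ∧ A x 0 = 0 ∧ Continuous (A x) ∧ (∀ r, ∃ t, A x t = r) ∧
        ∀ s t, A x (s + t) = A (fl ψ (e b) t x) s + A x t := by
    intro b c
    exact exA ψ (e b) hCyA hp hψ (e c) (fun x hx hx' t ht => hcomp b c x hx hx' t ht)
      (fun x hx hx' t ht => hcomp c b x hx hx' t ht)
  choose A hAc hAx using hA
  -- comparison
  have hfl : ∀ b c x, p x ∈ (e b).baseSet → p x ∈ (e c).baseSet → ∀ t,
      fl ψ (e b) t x = fl ψ (e c) (A b c x t) x := by
    intro b c x hb hc t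
    exact fl_of ψ (e c) hc (p_fl ψ (e b) hb t) ((hAx b c x hb hc).1 t)
  have hAA : ∀ b c k x, p x ∈ (e b).baseSet → p x ∈ (e c).baseSet → p x ∈ (e k).baseSet → ∀ t,
      A b k x t = A c k x (A b c x t) := by
    intro b c k x hb hc hk t
    apply uniq ψ hψ (n := ((e k) x).2)
    rw [← (hAx b k x hb hk).1 t, ← (hAx c k x hc hk).1, ← hfl b c x hb hc]
  -- partition of unity
  obtain ⟨I, hI⟩ := isCompact_univ.elim_finite_subcover (fun b : B => (e b).baseSet)
    (fun b => (e b).open_baseSet) (fun b _ => mem_iUnion.2 ⟨b, hbase b⟩)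
  obtain ⟨r, hr⟩ := PartitionOfUnity.exists_isSubordinate (X := B) (ι := I) isClosed_univ
    (fun c : I => (e c.1).baseSet) (fun c => (e c.1).open_baseSet)
    (by
      intro b hb
      obtain ⟨c, hc, hbc⟩ := mem_iUnion₂.1 (hI hb)
      exact mem_iUnion.2 ⟨⟨c, hc⟩, hbc⟩)
  have hr0 : ∀ c b, 0 ≤ r c b := fun c b => r.nonneg c b
  have hr1 : ∀ b, ∑ c : I, r c b = 1 := by
    intro b
    rw [← finsum_eq_sum_of_fintype]
    exact r.sum_eq_one (mem_univ b)
  have hrU : ∀ (c : I) b, r c b ≠ 0 → b ∈ (e c.1).baseSet := by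
    intro c b h
    exact hr c (subset_tsupport _ (Function.mem_support.2 h))
  have hrp : ∀ b, ∃ c : I, 0 < r c b := by
    intro b
    by_contra hcon
    push Not at hcon
    have h1 : ∑ c : I, r c b ≤ 0 := Finset.sum_nonpos fun c _ => hcon c
    rw [hr1] at h1
    linarith
  let F : B → M → ℝ → ℝ := fun b x t => ∑ c : I, r c (p x) * A b c.1 x t
  have hF : ∀ b x t, F b x t = ∑ c : I, r c (p x) * A b c.1 x t := fun _ _ _ => rfl
  have hFm : ∀ b x, p x ∈ (e b).baseSet → StrictMono (F b x) := by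
    intro b x hb t t' htt
    rw [hF, hF]
    apply Finset.sum_lt_sum
    · intro c _
      by_cases h : r c (p x) = 0
      · rw [h]; simp
      · exact mul_le_mul_of_nonneg_left (((hAx b c.1 x hb (hrU c _ h)).2.1).monotone htt.le) (hr0 _ _)
    · obtain ⟨c, hc⟩ := hrp (p x)
      exact ⟨c, Finset.mem_univ _, mul_lt_mul_of_pos_left ((hAx b c.1 x hb (hrU c _ hc.ne')).2.1 htt) hc⟩
  have hFc : ∀ b x, p x ∈ (e b).baseSet → Continuous (F b x) := by
    intro b x hb
    show Continuous fun t => ∑ c : I, r c (p x) * A b c.1 x t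
    refine continuous_finsetSum _ fun c _ => ?_
    by_cases h : r c (p x) = 0
    · simp only [h, zero_mul]; exact continuous_const
    · exact continuous_const.mul (hAx b c.1 x hb (hrU c _ h)).2.2.2.1
  have hFs : ∀ b x, p x ∈ (e b).baseSet → ∀ s, ∃ t, F b x t = s := by
    intro b x hb s
    have h1 : ∀ c : I, ∃ T, p x ∈ (e c.1).baseSet → A b c.1 x T = s := by
      intro c
      by_cases h : p x ∈ (e c.1).baseSet
      · obtain ⟨T, hT⟩ := (hAx b c.1 x hb h).2.2.2.2.1 s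
        exact ⟨T, fun _ => hT⟩
      · exact ⟨0, fun h' => absurd h' h⟩
    choose T hT using h1
    obtain ⟨t1, ht1⟩ := Finite.exists_le T
    obtain ⟨t2, ht2⟩ := Finite.exists_ge T
    have h2 : s ≤ F b x t1 := by
      have h3 : s = ∑ c : I, r c (p x) * s := by rw [← Finset.sum_mul, hr1, one_mul]
      rw [h3, hF]
      apply Finset.sum_le_sum
      intro c _
      by_cases h : r c (p x) = 0
      · rw [h]; simp
      · apply mul_le_mul_of_nonneg_left _ (hr0 _ _)
        rw [← hT c (hrU c _ h)]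
        exact (hAx b c.1 x hb (hrU c _ h)).2.1.monotone (ht1 c)
    have h2' : F b x t2 ≤ s := by
      have h3 : s = ∑ c : I, r c (p x) * s := by rw [← Finset.sum_mul, hr1, one_mul]
      rw [h3, hF]
      apply Finset.sum_le_sum
      intro c _
      by_cases h : r c (p x) = 0
      · rw [h]; simp
      · apply mul_le_mul_of_nonneg_left _ (hr0 _ _)
        rw [← hT c (hrU c _ h)]
        exact (hAx b c.1 x hb (hrU c _ h)).2.1.monotone (ht2 c)
    exact mem_range_of_exists_le_of_exists_ge (hFc b x hb) ⟨t2, h2'⟩ ⟨t1, h2⟩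
  have hF0 : ∀ b x, p x ∈ (e b).baseSet → F b x 0 = 0 := by
    intro b x hb
    rw [hF]
    apply Finset.sum_eq_zero
    intro c _
    by_cases h : r c (p x) = 0
    · rw [h]; simp
    · rw [(hAx b c.1 x hb (hrU c _ h)).2.2.1, mul_zero]
  have hFadd : ∀ b x, p x ∈ (e b).baseSet → ∀ s t,
      F b x (s + t) = F b (fl ψ (e b) t x) s + F b x t := by
    intro b x hb s t
    rw [hF, hF, hF, ← Finset.sum_add_distrib]
    apply Finset.sum_congr rfl
    intro c _
    rw [p_fl ψ (e b) hb, ← mul_add]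
    by_cases h : r c (p x) = 0
    · rw [h]; simp
    · rw [(hAx b c.1 x hb (hrU c _ h)).2.2.2.2.2 s t]
  have hFF : ∀ b c x, p x ∈ (e b).baseSet → p x ∈ (e c).baseSet → ∀ t,
      F b x t = F c x (A b c x t) := by
    intro b c x hb hc t
    rw [hF, hF]
    apply Finset.sum_congr rfl
    intro k _
    by_cases h : r k (p x) = 0
    · rw [h]; simp
    · rw [hAA b c k.1 x hb hc (hrU k _ h)]
  have hFx : ∀ b t, ContinuousOn (fun x => F b x t) (p ⁻¹' (e b).baseSet) := by
    intro b t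
    show ContinuousOn (fun x => ∑ c : I, r c (p x) * A b c.1 x t) (p ⁻¹' (e b).baseSet)
    refine continuousOn_finsetSum _ fun c _ => ?_
    intro x hx
    apply ContinuousAt.continuousWithinAt
    by_cases h : p x ∈ tsupport (r c)
    · have h1 : p x ∈ (e c.1).baseSet := hr c h
      have h2 : ContinuousAt (fun x => A b c.1 x t) x :=
        (hAc b c.1 t).continuousAt
          (((isOpen_base (e b) hp).inter (isOpen_base (e c.1) hp)).mem_nhds ⟨hx, h1⟩)
      exact ((r c).continuous.comp hp).continuousAt.mul h2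
    · have h3 : (fun x => r c (p x) * A b c.1 x t) =ᶠ[𝓝 x] fun _ => (0 : ℝ) := by
        have h4 : p ⁻¹' (tsupport (r c))ᶜ ∈ 𝓝 x :=
          ((isClosed_tsupport _).isOpen_compl.preimage hp).mem_nhds h
        filter_upwards [h4] with y hy
        rw [image_eq_zero_of_notMem_tsupport hy, zero_mul]
      exact ContinuousAt.congr continuousAt_const h3.symm
  -- the inverse
  have hg : ∀ b x s, ∃ t, p x ∈ (e b).baseSet → F b x t = s := by
    intro b x s
    by_cases h : p x ∈ (e b).baseSet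
    · obtain ⟨t, ht⟩ := hFs b x h s
      exact ⟨t, fun _ => ht⟩
    · exact ⟨0, fun h' => absurd h' h⟩
  choose g hg using hg
  have hgc : ∀ b x, p x ∈ (e b).baseSet → ∀ t, ContinuousAt (fun z : M × ℝ => g b z.1 z.2) (x, t) := by
    intro b x hx t
    exact cont_tau (isOpen_base (e b) hp) (F b) (g b) (fun x hx => hFm b x hx) (hFx b)
      (fun x hx s => hg b x s hx) x hx t
  have hgi : ∀ b x, p x ∈ (e b).baseSet → ∀ t s, F b x t = s → g b x s = t := by
    intro b x hb t s h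
    exact (hFm b x hb).injective ((hg b x s hb).trans h.symm)
  have hg0 : ∀ b x, p x ∈ (e b).baseSet → g b x 0 = 0 := fun b x hb => hgi b x hb 0 0 (hF0 b x hb)
  have hgpos : ∀ b x, p x ∈ (e b).baseSet → ∀ t, 0 ≤ t → 0 ≤ g b x t := by
    intro b x hb t ht
    rw [← (hFm b x hb).le_iff_le, hF0 b x hb, hg b x t hb]
    exact ht
  let Φ : ℝ → M → M := fun t x => fl ψ (e (p x)) (g (p x) x t) x
  have hΦ : ∀ b x, p x ∈ (e b).baseSet → ∀ t, Φ t x = fl ψ (e b) (g b x t) x := by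
    intro b x hb t
    show fl ψ (e (p x)) (g (p x) x t) x = _
    have hpx : p x ∈ (e (p x)).baseSet := hbase (p x)
    rw [hfl (p x) b x hpx hb]
    congr 1
    symm
    apply hgi b x hb
    rw [← hFF (p x) b x hpx hb, hg (p x) x t hpx]
  have hpΦ : ∀ t x, p (Φ t x) = p x := by
    intro t x
    rw [hΦ (p x) x (hbase _) t, p_fl ψ _ (hbase _)]
  have hΦc : Continuous (fun z : ℝ × M => Φ z.1 z.2) := by
    rw [continuous_iff_continuousAt]
    rintro ⟨t0, x0⟩
    have hb : p x0 ∈ (e (p x0)).baseSet := hbase (p x0)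
    have hev : (fun z : ℝ × M => Φ z.1 z.2) =ᶠ[𝓝 (t0, x0)]
        fun z : ℝ × M => fl ψ (e (p x0)) (g (p x0) z.2 z.1) z.2 := by
      have : (univ : Set ℝ) ×ˢ (p ⁻¹' (e (p x0)).baseSet) ∈ 𝓝 (t0, x0) :=
        (isOpen_univ.prod (isOpen_base (e (p x0)) hp)).mem_nhds ⟨mem_univ _, hb⟩
      filter_upwards [this] with z hz
      exact hΦ (p x0) z.2 hz.2 z.1
    refine ContinuousAt.congr ?_ hev.symm
    have h1 : ContinuousAt (fun z : ℝ × M => g (p x0) z.2 z.1) (t0, x0) :=
      ContinuousAt.comp (f := fun z : ℝ × M => (z.2, z.1)) (g := fun z : M × ℝ => g (p x0) z.1 z.2)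
        (hgc (p x0) x0 hb t0) (continuousAt_snd.prodMk continuousAt_fst)
    exact cont_fl ψ (e (p x0)) hp h1 continuousAt_snd hb
  refine ⟨⟨Φ, hΦc, ?_, ?_⟩, hpΦ, ?_⟩
  · intro s t x
    have hb : p x ∈ (e (p x)).baseSet := hbase (p x)
    have hb' : p (Φ t x) ∈ (e (p x)).baseSet := by rw [hpΦ]; exact hb
    rw [hΦ (p x) x hb (s + t), hΦ (p x) (Φ t x) hb' s]
    have h1 : g (p x) x (s + t) = g (p x) (Φ t x) s + g (p x) x t := by
      apply hgi (p x) x hb
      rw [hFadd (p x) x hb, hg (p x) x t hb, ← hΦ (p x) x hb t, hg (p x) _ s hb']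
    rw [h1, fl_add ψ _ hb, ← hΦ (p x) x hb t]
  · intro x
    have hb : p x ∈ (e (p x)).baseSet := hbase (p x)
    show Φ 0 x = x
    rw [hΦ (p x) x hb 0, hg0 (p x) x hb, fl_zero ψ _ hb]
  · intro b
    constructor
    · intro x t hb ht
      refine ⟨g b x t, hgpos b x hb t ht, ?_⟩
      show ((e b) (Φ t x)).2 = _
      rw [hΦ b x hb t, e_fl ψ _ hb]
    · intro x s hb hs
      refine ⟨F b x s, ?_, ?_⟩
      · rw [← hF0 b x hb]
        exact (hFm b x hb).monotone hs
      · show ((e b) (Φ (F b x s) x)).2 = _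
        rw [hΦ b x hb, hgi b x hb s _ rfl, e_fl ψ _ hb]

end Pool.Agent.MP98850d.Bd
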