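import Pool.Agent.Lib.MP_98850d_an.Bd.Spec

set_option autoImplicit false

namespace Pool.Agent.MP98850d.Bd

open Set Filter Topology Bundle

universe u v w

namespace HomAux

section

variable {M : Type u} {B : Type v} {N : Type w} [TopologicalSpace M] [TopologicalSpace B]
  [TopologicalSpace N] {p : M → B}

open Classical in
/-- the map `(b, n) ↦ (Y (s n) b, n)` over the chart `e`, the identity elsewhere -/
noncomputable def H (e : Trivialization N p) (Y : Flow ℝ B) (s : N → ℝ) (x : M) : M :=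
  if p x ∈ e.baseSet then e.toOpenPartialHomeomorph.symm (Y (s (e x).2) (p x), (e x).2) else x

theorem H_pos (e : Trivialization N p) (Y : Flow ℝ B) (s : N → ℝ) {x : M} (hx : p x ∈ e.baseSet) :
    H e Y s x = e.toOpenPartialHomeomorph.symm (Y (s (e x).2) (p x), (e x).2) := by
  unfold H; rw [if_pos hx]

theorem H_neg (e : Trivialization N p) (Y : Flow ℝ B) (s : N → ℝ) {x : M} (hx : p x ∉ e.baseSet) :
    H e Y s x = x := by
  unfold H; rw [if_neg hx]

theorem Y_mem {K U : Set B} (Y : Flow ℝ B) (hKU : K ⊆ U) (hY : ∀ t z, z ∉ K → Y t z = z)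
    (t : ℝ) {z : B} (hz : z ∈ U) : Y t z ∈ U := by
  by_cases h : Y t z ∈ K
  · exact hKU h
  · have h1 : Y (-t) (Y t z) = Y t z := hY (-t) _ h
    have h2 : Y (-t) (Y t z) = z := by
      rw [← Y.map_add]; simp
    rw [h2] at h1
    rw [← h1]; exact hz

theorem H_out {K : Set B} (e : Trivialization N p) (Y : Flow ℝ B) (s : N → ℝ)
    (hY : ∀ t z, z ∉ K → Y t z = z) {x : M} (hx : p x ∉ K) : H e Y s x = x := by
  by_cases h : p x ∈ e.baseSet
  · rw [H_pos e Y s h, hY _ _ hx]
    exact e.symm_apply_mk_proj (e.mem_source.2 h)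
  · exact H_neg e Y s h

theorem proj_H {K : Set B} (e : Trivialization N p) (Y : Flow ℝ B) (s : N → ℝ)
    (hKU : K ⊆ e.baseSet) (hY : ∀ t z, z ∉ K → Y t z = z) {x : M} (hx : p x ∈ e.baseSet) :
    p (H e Y s x) = Y (s (e x).2) (p x) := by
  rw [H_pos e Y s hx]
  exact e.proj_symm_apply' (Y_mem Y hKU hY _ hx)

theorem snd_H {K : Set B} (e : Trivialization N p) (Y : Flow ℝ B) (s : N → ℝ)
    (hKU : K ⊆ e.baseSet) (hY : ∀ t z, z ∉ K → Y t z = z) {x : M} (hx : p x ∈ e.baseSet) :
    (e (H e Y s x)).2 = (e x).2 := by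
  rw [H_pos e Y s hx, e.apply_symm_apply' (Y_mem Y hKU hY _ hx)]

theorem H_H {K : Set B} (e : Trivialization N p) (Y : Flow ℝ B) (s s' : N → ℝ)
    (hs : ∀ n, s' n + s n = 0) (hKU : K ⊆ e.baseSet) (hY : ∀ t z, z ∉ K → Y t z = z) (x : M) :
    H e Y s' (H e Y s x) = x := by
  by_cases h : p x ∈ e.baseSet
  · have h1 : p (H e Y s x) ∈ e.baseSet := by
      rw [proj_H e Y s hKU hY h]
      exact Y_mem Y hKU hY _ h
    rw [H_pos e Y s' h1, snd_H e Y s hKU hY h, proj_H e Y s hKU hY h, ← Y.map_add, hs, Y.map_zero_apply]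
    exact e.symm_apply_mk_proj (e.mem_source.2 h)
  · rw [H_neg e Y s h, H_neg e Y s' h]

theorem continuous_H {K : Set B} (e : Trivialization N p) (Y : Flow ℝ B) (s : N → ℝ)
    (hp : Continuous p) (hK : IsClosed K) (hKU : K ⊆ e.baseSet) (hY : ∀ t z, z ∉ K → Y t z = z)
    (hs : Continuous s) : Continuous (H e Y s) := by
  rw [continuous_iff_continuousAt]
  intro x
  by_cases h : p x ∈ K
  · have hU : p x ∈ e.baseSet := hKU h
    have hsrc : e.source ∈ 𝓝 x := e.open_source.mem_nhds (e.mem_source.2 hU)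
    have heq : H e Y s =ᶠ[𝓝 x]
        fun y => e.toOpenPartialHomeomorph.symm (Y (s (e y).2) (p y), (e y).2) := by
      filter_upwards [hsrc] with y hy
      exact H_pos e Y s (e.mem_source.1 hy)
    refine ContinuousAt.congr ?_ heq.symm
    have hex : ContinuousAt e x := e.continuousOn_toFun.continuousAt hsrc
    have he2 : ContinuousAt (fun y => (e y).2) x := continuousAt_snd.comp hex
    have hin : ContinuousAt (fun y => (Y (s (e y).2) (p y), (e y).2)) x := by
      refine ContinuousAt.prodMk ?_ he2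
      have h1 : ContinuousAt (fun y => (s (e y).2, p y)) x :=
        ContinuousAt.prodMk (hs.continuousAt.comp he2) hp.continuousAt
      have h2 : Continuous (fun q : ℝ × B => Y q.1 q.2) := Y.cont'
      exact h2.continuousAt.comp h1
    have htgt : (Y (s (e x).2) (p x), (e x).2) ∈ e.target := e.mem_target.2 (Y_mem Y hKU hY _ hU)
    have hout : ContinuousAt e.toOpenPartialHomeomorph.symm (Y (s (e x).2) (p x), (e x).2) :=
      e.toOpenPartialHomeomorph.continuousOn_symm.continuousAt (e.open_target.mem_nhds htgt)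
    exact ContinuousAt.comp (f := fun y => (Y (s (e y).2) (p y), (e y).2)) hout hin
  · have hn : p ⁻¹' Kᶜ ∈ 𝓝 x := (hK.isOpen_compl.preimage hp).mem_nhds h
    have heq : H e Y s =ᶠ[𝓝 x] id := by
      filter_upwards [hn] with y hy
      exact H_out e Y s hY hy
    exact ContinuousAt.congr continuousAt_id heq.symm

end

end HomAux

open HomAux

theorem tHom : S_Hom.{u, v, w} := by
  intro M B N _ _ _ _ p e K Y s hp hK hKU hY hs
  have hKc : IsClosed K := hK.isClosed
  refine ⟨{ toFun := H e Y (fun n => -(s n)), invFun := H e Y s,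
            left_inv := H_H e Y _ _ (fun n => by ring) hKU hY,
            right_inv := H_H e Y _ _ (fun n => by ring) hKU hY,
            continuous_toFun := continuous_H e Y _ hp hKc hKU hY hs.neg,
            continuous_invFun := continuous_H e Y _ hp hKc hKU hY hs }, ?_, ?_⟩
  · intro x hx
    exact ⟨H_out e Y (fun n => -(s n)) hY hx, H_out e Y s hY hx⟩
  · intro x hx
    exact ⟨H_pos e Y (fun n => -(s n)) hx, H_pos e Y s hx⟩

end Pool.Agent.MP98850d.Bd
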