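import Pool.Agent.Lib.MP_98850d_an.Bd.Spec

/-!
# MP_98850d_an, Bd/Ind: an induction principle for compact sets
-/

set_option autoImplicit false

namespace Pool.Agent.MP98850d.Bd

open Set Filter Topology Bundle

universe u v w

namespace IndAux

variable {B : Type v} [TopologicalSpace B]

/-- maps which can be used to enlarge compact sets with the property `P` -/
def Gd (P : Set B → Prop) (F : B → B) : Prop :=
  IsOpenMap F ∧ ∀ C, IsCompact C → P C → ∃ C', IsCompact C' ∧ P C' ∧ C ⊆ C' ∧ F '' C ⊆ C'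

lemma gd_id (P : Set B → Prop) : Gd P (fun b => b) := by
  refine ⟨IsOpenMap.id, fun C hC hP => ⟨C, hC, hP, subset_rfl, ?_⟩⟩
  rintro _ ⟨x, hx, rfl⟩
  exact hx

lemma gd_comp {P : Set B → Prop} {F G : B → B} (hF : Gd P F) (hG : Gd P G) : Gd P (fun b => G (F b)) := by
  refine ⟨hG.1.comp hF.1, fun C hC hP => ?_⟩
  obtain ⟨C1, h1, h2, h3, h4⟩ := hF.2 C hC hP
  obtain ⟨C2, k1, k2, k3, k4⟩ := hG.2 C1 h1 h2
  refine ⟨C2, k1, k2, h3.trans k3, ?_⟩
  rintro _ ⟨x, hx, rfl⟩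
  exact k4 ⟨F x, h4 ⟨x, hx, rfl⟩, rfl⟩

lemma gd_move {P : Set B → Prop} {Y : Flow ℝ B}
    (h : ∀ C, IsCompact C → P C → P (C ∪ (fun b => Y 1 b) '' C)) : Gd P (fun b => Y 1 b) := by
  have hc : Continuous fun b => Y 1 b := (Y.toHomeomorph 1).continuous
  refine ⟨(Y.toHomeomorph 1).isOpenMap, fun C hC hP => ⟨_, hC.union (hC.image hc), h C hC hP,
    subset_union_left, subset_union_right⟩⟩

end IndAux

open IndAux in
theorem tInd : S_LcB.{v} → S_Ind.{v} := by
  intro hL d B _ _ _ _ _ U hU hbU P hP hstep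
  obtain ⟨C0, hC0, ⟨c, hc⟩, hPC0⟩ := hP
  -- local transitivity
  have hloc : ∀ b : B, ∃ O : Set B, IsOpen O ∧ b ∈ O ∧ ∀ x ∈ O, ∀ y ∈ O, ∃ F, Gd P F ∧ F x = y := by
    intro b
    obtain ⟨O, K, hO, hbO, hK, hKU, h⟩ := hL d B b (U b) (hU b) (hbU b)
    refine ⟨O, hO, hbO, fun x hx y hy => ?_⟩
    obtain ⟨Y, hY, hxy⟩ := h x hx y hy
    exact ⟨fun b => Y 1 b, gd_move fun C hC hPC => hstep C hC hPC b K Y hK hKU hY, hxy⟩
  -- transitivity
  have hall : ∀ b : B, ∃ F, Gd P F ∧ F c = b := by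
    have hopen : IsOpen {b : B | ∃ F, Gd P F ∧ F c = b} := by
      rw [isOpen_iff_mem_nhds]
      rintro b ⟨F, hF, hFb⟩
      obtain ⟨O, hO, hbO, h⟩ := hloc b
      refine mem_of_superset (hO.mem_nhds hbO) fun y hy => ?_
      obtain ⟨G, hG, hGy⟩ := h b hbO y hy
      exact ⟨fun z => G (F z), gd_comp hF hG, by show G (F c) = y; rw [hFb, hGy]⟩
    have hclosed : IsClosed {b : B | ∃ F, Gd P F ∧ F c = b} := by
      rw [← isOpen_compl_iff, isOpen_iff_mem_nhds]
      intro b hb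
      obtain ⟨O, hO, hbO, h⟩ := hloc b
      refine mem_of_superset (hO.mem_nhds hbO) fun y hy => ?_
      rintro ⟨F, hF, hFy⟩
      obtain ⟨G, hG, hGy⟩ := h y hy b hbO
      exact hb ⟨fun z => G (F z), gd_comp hF hG, by show G (F c) = b; rw [hFy, hGy]⟩
    have := IsClopen.eq_univ (s := {b : B | ∃ F, Gd P F ∧ F c = b}) ⟨hclosed, hopen⟩
      ⟨c, fun b => b, gd_id P, rfl⟩
    intro b
    have hb : b ∈ {b : B | ∃ F, Gd P F ∧ F c = b} := by rw [this]; exact mem_univ b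
    exact hb
  choose F hF hFb using hall
  obtain ⟨t, ht⟩ := isCompact_univ.elim_finite_subcover (fun b => F b '' interior C0)
    (fun b => (hF b).1 _ isOpen_interior) fun b _ => mem_iUnion.mpr ⟨b, c, hc, hFb b⟩
  have hfin : ∀ s : Finset B, ∃ C, IsCompact C ∧ P C ∧ C0 ⊆ C ∧ ∀ b ∈ s, F b '' C0 ⊆ C := by
    classical
    intro s
    induction s using Finset.induction_on with
    | empty => exact ⟨C0, hC0, hPC0, subset_rfl, fun b hb => absurd hb (Finset.notMem_empty b)⟩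
    | insert a s ha ih =>
      obtain ⟨C, h1, h2, h3, h4⟩ := ih
      obtain ⟨C', k1, k2, k3, k4⟩ := (hF a).2 C h1 h2
      refine ⟨C', k1, k2, h3.trans k3, fun b hb => ?_⟩
      rcases Finset.mem_insert.mp hb with rfl | hb
      · exact (image_mono h3).trans k4
      · exact (h4 b hb).trans k3
  obtain ⟨C, h1, h2, h3, h4⟩ := hfin t
  have : C = univ := by
    refine eq_univ_of_univ_subset (ht.trans ?_)
    refine iUnion₂_subset fun b hb => ?_
    exact (image_mono interior_subset).trans (h4 b hb)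
  rw [← this]
  exact h2

end Pool.Agent.MP98850d.Bd
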