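import Pool.Agent.Lib.MP_98850d_an.Bd.Spec

/-!
# Module LcB: local flows of a manifold
-/

set_option autoImplicit false

namespace Pool.Agent.MP98850d.Bd

open Set Filter Topology Bundle

universe u v w

theorem tLcB : S_Bal → S_LcB.{v} := by
  classical
  intro hBal d B _ _ _ b U hU hbU
  set χ := chartAt (EuclideanSpace ℝ (Fin d)) b with hχ
  have hb : b ∈ χ.source := mem_chart_source _ b
  have hW : IsOpen (χ '' (χ.source ∩ U)) :=
    χ.isOpen_image_of_subset_source (χ.open_source.inter hU) inter_subset_left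
  have hcW : χ b ∈ χ '' (χ.source ∩ U) := mem_image_of_mem _ ⟨hb, hbU⟩
  obtain ⟨ρ, hρ, hρW⟩ := Metric.nhds_basis_closedBall.mem_iff.mp (hW.mem_nhds hcW)
  set c := χ b with hc
  have htar : Metric.closedBall c ρ ⊆ χ.target := by
    intro z hz
    obtain ⟨w, hw, rfl⟩ := hρW hz
    exact χ.map_source hw.1
  have hsub : χ.symm '' Metric.closedBall c ρ ⊆ χ.source ∩ U := by
    rintro x ⟨z, hz, rfl⟩
    obtain ⟨w, hw, rfl⟩ := hρW hz
    rw [χ.left_inv hw.1]
    exact hw
  have hKc : IsCompact (χ.symm '' Metric.closedBall c ρ) :=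
    (isCompact_closedBall c ρ).image_of_continuousOn (χ.continuousOn_symm.mono htar)
  refine ⟨χ.source ∩ χ ⁻¹' Metric.ball c ρ, χ.symm '' Metric.closedBall c ρ,
    χ.isOpen_inter_preimage Metric.isOpen_ball, ⟨hb, Metric.mem_ball_self hρ⟩, hKc,
    fun x hx => (hsub hx).2, ?_⟩
  intro x hx y hy
  obtain ⟨Z, hZ1, hZ2⟩ := hBal d c ρ hρ (χ x) hx.2 (χ y) hy.2
  have hZb : ∀ t z, z ∈ Metric.ball c ρ → Z t z ∈ Metric.ball c ρ := by
    intro t z hz
    by_contra hcon
    have h1 := hZ1 (-t) (Z t z) hcon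
    rw [← Z.map_add, neg_add_cancel, Z.map_zero_apply] at h1
    rw [← h1] at hcon
    exact hcon hz
  have hZt : ∀ t z, z ∈ χ.target → Z t z ∈ χ.target := by
    intro t z hz
    by_cases h : z ∈ Metric.ball c ρ
    · exact htar (Metric.ball_subset_closedBall (hZb t z h))
    · rw [hZ1 t z h]
      exact hz
  let Y : ℝ → B → B := fun t z => if z ∈ χ.source then χ.symm (Z t (χ z)) else z
  have hYs : ∀ t z, z ∈ χ.source → Y t z = χ.symm (Z t (χ z)) := fun t z hz => if_pos hz
  have hYn : ∀ t z, z ∉ χ.source → Y t z = z := fun t z hz => if_neg hz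
  have hYm : ∀ t z, z ∈ χ.source → Y t z ∈ χ.source := by
    intro t z hz
    rw [hYs t z hz]
    exact χ.map_target (hZt t _ (χ.map_source hz))
  have hYχ : ∀ t z, z ∈ χ.source → χ (Y t z) = Z t (χ z) := by
    intro t z hz
    rw [hYs t z hz]
    exact χ.right_inv (hZt t _ (χ.map_source hz))
  have hYK : ∀ t z, z ∉ χ.symm '' Metric.closedBall c ρ → Y t z = z := by
    intro t z hz
    by_cases hs : z ∈ χ.source
    · have h1 : χ z ∉ Metric.ball c ρ := by
        intro h
        exact hz ⟨χ z, Metric.ball_subset_closedBall h, χ.left_inv hs⟩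
      rw [hYs t z hs, hZ1 t _ h1, χ.left_inv hs]
    · exact hYn t z hs
  have hcont : Continuous (fun p : ℝ × B => Y p.1 p.2) := by
    rw [continuous_iff_continuousAt]
    rintro ⟨t0, z0⟩
    by_cases hs : z0 ∈ χ.source
    · have hev : (fun p : ℝ × B => Y p.1 p.2) =ᶠ[𝓝 (t0, z0)]
          fun p : ℝ × B => χ.symm (Z p.1 (χ p.2)) := by
        have : (univ : Set ℝ) ×ˢ χ.source ∈ 𝓝 (t0, z0) :=
          (isOpen_univ.prod χ.open_source).mem_nhds ⟨mem_univ _, hs⟩
        filter_upwards [this] with p hp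
        exact hYs p.1 p.2 hp.2
      refine ContinuousAt.congr ?_ hev.symm
      have h1 : ContinuousAt (fun p : ℝ × B => χ p.2) (t0, z0) :=
        ContinuousAt.comp (f := fun p : ℝ × B => p.2) (g := χ) (χ.continuousAt hs) continuousAt_snd
      have h2 : ContinuousAt (fun p : ℝ × B => Z p.1 (χ p.2)) (t0, z0) := by
        have h3 : Continuous (fun p : ℝ × EuclideanSpace ℝ (Fin d) => Z p.1 p.2) := Z.cont'
        exact ContinuousAt.comp (f := fun p : ℝ × B => (p.1, χ p.2))
          (g := fun p : ℝ × EuclideanSpace ℝ (Fin d) => Z p.1 p.2) h3.continuousAt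
          (continuousAt_fst.prodMk h1)
      exact ContinuousAt.comp (f := fun p : ℝ × B => Z p.1 (χ p.2)) (g := χ.symm)
        (χ.symm.continuousAt (hZt t0 _ (χ.map_source hs))) h2
    · have hzK : z0 ∉ χ.symm '' Metric.closedBall c ρ := fun h => hs (hsub h).1
      have hev : (fun p : ℝ × B => Y p.1 p.2) =ᶠ[𝓝 (t0, z0)] fun p : ℝ × B => p.2 := by
        have : (univ : Set ℝ) ×ˢ (χ.symm '' Metric.closedBall c ρ)ᶜ ∈ 𝓝 (t0, z0) :=
          (isOpen_univ.prod hKc.isClosed.isOpen_compl).mem_nhds ⟨mem_univ _, hzK⟩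
        filter_upwards [this] with p hp
        exact hYK p.1 p.2 hp.2
      exact ContinuousAt.congr continuousAt_snd hev.symm
  refine ⟨⟨Y, hcont, ?_, ?_⟩, fun t z hz => hYK t z hz, ?_⟩
  · intro s t z
    by_cases hs : z ∈ χ.source
    · rw [hYs (s + t) z hs, hYs s (Y t z) (hYm t z hs), hYχ t z hs, Z.map_add]
    · rw [hYn _ z hs, hYn t z hs, hYn s z hs]
  · intro z
    by_cases hs : z ∈ χ.source
    · rw [hYs 0 z hs, Z.map_zero_apply, χ.left_inv hs]
    · exact hYn 0 z hs
  · show Y 1 x = y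
    rw [hYs 1 x hx.1, hZ2, χ.left_inv hy.1]

end Pool.Agent.MP98850d.Bd
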