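import Pool.Agent.Lib.MP_98850d_an.Bd.Spec

/-! Package Bd, statement (Per): a minimal flow with a periodic point lives on a point or a circle. -/

set_option autoImplicit false

namespace Pool.Agent.MP98850d.Bd

open Set Filter Topology Bundle

universe u v w

namespace PerAux

/-- the group of periods of `n` -/
def stab {N : Type w} [TopologicalSpace N] (ψ : Flow ℝ N) (n : N) : AddSubgroup ℝ where
  carrier := {r | ψ r n = n}
  zero_mem' := ψ.map_zero_apply n
  add_mem' := by
    intro a b ha hb
    change ψ (a + b) n = n
    rw [ψ.map_add, show ψ b n = n from hb, show ψ a n = n from ha]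
  neg_mem' := by
    intro a ha
    change ψ (-a) n = n
    have h1 : ψ (-a + a) n = ψ (-a) n := by
      rw [ψ.map_add, show ψ a n = n from ha]
    rw [← h1, neg_add_cancel]
    exact ψ.map_zero_apply n

lemma mem_stab {N : Type w} [TopologicalSpace N] {ψ : Flow ℝ N} {n : N} {r : ℝ} :
    r ∈ stab ψ n ↔ ψ r n = n := Iff.rfl

lemma cont_orbit {N : Type w} [TopologicalSpace N] (ψ : Flow ℝ N) (n : N) :
    Continuous fun r => ψ r n := ψ.continuous continuous_id continuous_const

end PerAux

open PerAux

theorem tPer : S_Per.{w} := by
  intro N _ _ _ ψ hM hF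
  unfold Fr at hF
  push Not at hF
  obtain ⟨t, n, htn, ht⟩ := hF
  have hcl : IsClosed ((stab ψ n : AddSubgroup ℝ) : Set ℝ) :=
    isClosed_eq (cont_orbit ψ n) continuous_const
  rcases (stab ψ n).dense_or_cyclic with hd | ⟨a, ha⟩
  · left
    have hall : ∀ r, ψ r n = n := by
      intro r
      have h1 : ((stab ψ n : AddSubgroup ℝ) : Set ℝ) = univ := by
        rw [← hcl.closure_eq]; exact hd.closure_eq
      have h2 : r ∈ ((stab ψ n : AddSubgroup ℝ) : Set ℝ) := by rw [h1]; trivial
      exact h2
    have hr : (range fun r => ψ r n) = {n} := by
      ext x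
      constructor
      · rintro ⟨r, rfl⟩
        exact hall r
      · intro hx
        exact ⟨0, by rw [mem_singleton_iff.1 hx]; exact ψ.map_zero_apply n⟩
    have hdn := hM n
    rw [hr] at hdn
    have huniv : ({n} : Set N) = univ := by
      rw [← (isClosed_singleton : IsClosed ({n} : Set N)).closure_eq]; exact hdn.closure_eq
    exact ⟨fun x y => by
      have hx : x ∈ ({n} : Set N) := by rw [huniv]; trivial
      have hy : y ∈ ({n} : Set N) := by rw [huniv]; trivial
      rw [mem_singleton_iff.1 hx, mem_singleton_iff.1 hy]⟩
  · right
    rw [← AddSubgroup.zmultiples_eq_closure] at ha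
    have hta : t ∈ AddSubgroup.zmultiples a := by rw [← ha]; exact htn
    have ha0 : a ≠ 0 := by
      rintro rfl
      rw [AddSubgroup.zmultiples_zero_eq_bot, AddSubgroup.mem_bot] at hta
      exact ht hta
    have hp : 0 < |a| := abs_pos.2 ha0
    have : Fact (0 < |a|) := ⟨hp⟩
    have hz : stab ψ n = AddSubgroup.zmultiples |a| := by
      rw [ha]
      rcases abs_choice a with h | h <;> rw [h]
      exact AddSubgroup.zmultiples_neg.symm
    have hper : Function.Periodic (fun r => ψ r n) |a| := by
      intro r
      change ψ (r + |a|) n = ψ r n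
      have h1 : |a| ∈ stab ψ n := by rw [hz]; exact AddSubgroup.mem_zmultiples _
      rw [ψ.map_add, mem_stab.1 h1]
    have hfc : Continuous (hper.lift : AddCircle |a| → N) :=
      (cont_orbit ψ n).quotient_liftOn' _
    have hinj : Function.Injective (hper.lift : AddCircle |a| → N) := by
      intro x y
      induction x using QuotientAddGroup.induction_on with
      | H r =>
        induction y using QuotientAddGroup.induction_on with
        | H s =>
          intro h
          rw [Function.Periodic.lift_coe, Function.Periodic.lift_coe] at h
          have h1 : -r + s ∈ stab ψ n := by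
            rw [mem_stab, ψ.map_add, ← h, ← ψ.map_add, neg_add_cancel]
            exact ψ.map_zero_apply n
          rw [hz] at h1
          exact QuotientAddGroup.eq.2 h1
    have hsurj : Function.Surjective (hper.lift : AddCircle |a| → N) := by
      have hrange : range (hper.lift : AddCircle |a| → N) = range fun r => ψ r n := by
        ext x
        constructor
        · rintro ⟨y, rfl⟩
          induction y using QuotientAddGroup.induction_on with
          | H s => exact ⟨s, rfl⟩
        · rintro ⟨s, rfl⟩
          exact ⟨(s : AddCircle |a|), rfl⟩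
      have hc : IsClosed (range (hper.lift : AddCircle |a| → N)) := (isCompact_range hfc).isClosed
      have hd : Dense (range (hper.lift : AddCircle |a| → N)) := by rw [hrange]; exact hM n
      intro x
      have : x ∈ range (hper.lift : AddCircle |a| → N) := by
        rw [← hc.closure_eq, hd.closure_eq]; trivial
      exact this
    have e1 : AddCircle |a| ≃ₜ N :=
      Continuous.homeoOfEquivCompactToT2 (f := Equiv.ofBijective _ ⟨hinj, hsurj⟩) hfc
    exact ⟨e1.symm.trans (AddCircle.homeomorphAddCircle |a| 1 hp.ne' one_ne_zero)⟩

end Pool.Agent.MP98850d.Bd
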