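import Pool.Agent.Lib.MP_98850d_an.Bd.Spec

/-!
# `S_Slw`: a slow function on the fibre
-/

set_option autoImplicit false

namespace Pool.Agent.MP98850d.Bd

universe u v w

open Set Filter Topology Bundle

theorem tSlw : S_Slw.{w} := by
  intro N _ _ _ ψ hψ δ R hδ hR
  have hδ' : 0 < 1 / δ := by positivity
  obtain ⟨n0⟩ : Nonempty N := inferInstance
  set T : ℝ := R + 1 / δ + 1 with hT
  set n1 : N := ψ T n0 with hn1
  -- the two orbit pieces
  set A0 : Set N := (fun t => ψ t n0) '' Icc 0 R with hA0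
  set A1 : Set N := (fun t => ψ t n1) '' Icc (-(1 / δ)) (R + 1 / δ) with hA1
  have hc : ∀ n : N, Continuous fun t => ψ t n := fun n => ψ.continuous continuous_id continuous_const
  have hA0c : IsClosed A0 := (isCompact_Icc.image (hc n0)).isClosed
  have hA1c : IsClosed A1 := (isCompact_Icc.image (hc n1)).isClosed
  have hdis : Disjoint A0 A1 := by
    rw [Set.disjoint_left]
    rintro x ⟨t, ht, rfl⟩ ⟨t', ht', he⟩
    have h1 : ψ (t' + T) n0 = ψ t n0 := by
      rw [ψ.map_add]
      exact he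
    have h2 : ψ (-t + (t' + T)) n0 = n0 := by
      rw [ψ.map_add, h1, ← ψ.map_add, neg_add_cancel, ψ.map_zero_apply]
    have h3 := hψ _ _ h2
    have h4 := ht.2
    have h5 := ht'.1
    linarith
  obtain ⟨k, hk0, hk1, hk⟩ := exists_continuous_zero_one_of_isClosed hA0c hA1c hdis
  set K : Set ℝ := Icc (-(1 / δ)) (1 / δ) with hK
  set g : N → ℝ → ℝ := fun n v => min 1 (k (ψ v n) + δ * |v|) with hg
  have hgc : Continuous (fun z : N × ℝ => g z.1 z.2) := by
    refine continuous_const.min ((k.continuous.comp (ψ.continuous continuous_snd continuous_fst)).add ?_)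
    exact continuous_const.mul continuous_snd.abs
  have hg0 : ∀ n v, 0 ≤ g n v := by
    intro n v
    refine le_min zero_le_one (add_nonneg (hk _).1 (by positivity))
  have hg1 : ∀ n v, g n v ≤ 1 := fun n v => min_le_left _ _
  set s : N → ℝ := fun n => sInf (g n '' K) with hs
  have h0K : (0 : ℝ) ∈ K := ⟨by linarith, by linarith⟩
  have hbdd : ∀ n, BddBelow (g n '' K) := fun n => ⟨0, by
    rintro _ ⟨v, -, rfl⟩
    exact hg0 n v⟩
  have hne : ∀ n, (g n '' K).Nonempty := fun n => ⟨_, 0, h0K, rfl⟩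
  have hs1 : ∀ n, s n ≤ 1 := fun n => (csInf_le (hbdd n) ⟨0, h0K, rfl⟩).trans (hg1 n 0)
  have hsle : ∀ n v, s n ≤ g n v := by
    intro n v
    by_cases hv : v ∈ K
    · exact csInf_le (hbdd n) ⟨v, hv, rfl⟩
    · have h1 : 1 / δ < |v| := by
        by_contra h
        push Not at h
        exact hv (abs_le.1 h)
      have h2 : 1 ≤ δ * |v| := by
        have h3 : δ * (1 / δ) ≤ δ * |v| := mul_le_mul_of_nonneg_left h1.le hδ.le
        have h4 : δ * (1 / δ) = 1 := by field_simp
        linarith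
      have h3 : g n v = 1 := min_eq_left (by
        have := (hk (ψ v n)).1
        linarith)
      rw [h3]
      exact hs1 n
  have hles : ∀ n c, (∀ v ∈ K, c ≤ g n v) → c ≤ s n := by
    intro n c h
    refine le_csInf (hne n) ?_
    rintro _ ⟨v, hv, rfl⟩
    exact h v hv
  have hs0 : ∀ n, 0 ≤ s n := fun n => hles n 0 fun v _ => hg0 n v
  have hlip : ∀ t n, s (ψ t n) ≤ s n + δ * |t| := by
    intro t n
    have h1 : s (ψ t n) - δ * |t| ≤ s n := by
      refine hles n _ fun v _ => ?_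
      have h2 := hsle (ψ t n) (v - t)
      have h3 : ψ (v - t) (ψ t n) = ψ v n := by
        rw [← ψ.map_add, sub_add_cancel]
      have h4 : g (ψ t n) (v - t) ≤ g n v + δ * |t| := by
        show min 1 (k (ψ (v - t) (ψ t n)) + δ * |v - t|) ≤ min 1 (k (ψ v n) + δ * |v|) + δ * |t|
        rw [h3, ← min_add_add_right]
        have h5 : |v - t| ≤ |v| + |t| := abs_sub v t
        have h6 : δ * |v - t| ≤ δ * (|v| + |t|) := mul_le_mul_of_nonneg_left h5 hδ.le
        have h7 : 0 ≤ δ * |t| := by positivity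
        refine min_le_min (by linarith) (by linarith)
      linarith
    linarith
  refine ⟨s, ?_, fun n => ⟨hs0 n, hs1 n⟩, ?_, ⟨n0, ?_⟩, ⟨n1, ?_⟩⟩
  · exact isCompact_Icc.continuous_sInf hgc
  · intro t n
    rw [abs_sub_le_iff]
    constructor
    · have := hlip t n
      linarith
    · have h1 := hlip (-t) (ψ t n)
      rw [← ψ.map_add, neg_add_cancel, ψ.map_zero_apply, abs_neg] at h1
      linarith
  · intro t ht0 htR
    refine le_antisymm ((hsle _ 0).trans ?_) (hs0 _)
    show min 1 (k (ψ 0 (ψ t n0)) + δ * |(0 : ℝ)|) ≤ 0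
    have h1 : k (ψ t n0) = 0 := hk0 ⟨t, ⟨ht0, htR⟩, rfl⟩
    rw [ψ.map_zero_apply, h1, abs_zero, mul_zero, add_zero]
    exact min_le_right _ _
  · intro t ht0 htR
    refine le_antisymm (hs1 _) (hles _ _ fun v hv => ?_)
    have h1 : ψ v (ψ t n1) = ψ (v + t) n1 := (ψ.map_add v t n1).symm
    have h2 : k (ψ (v + t) n1) = 1 := hk1 ⟨v + t, ⟨by linarith [hv.1], by linarith [hv.2]⟩, rfl⟩
    show 1 ≤ min 1 (k (ψ v (ψ t n1)) + δ * |v|)
    rw [h1, h2]
    have h3 : 0 ≤ δ * |v| := by positivity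
    exact le_min le_rfl (by linarith)

end Pool.Agent.MP98850d.Bd
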