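import Pool.Agent.Lib.MP_98850d_an.Bd.Spec

/-!
# `S_TC`: time change of a flow by a continuous positive density
-/

set_option autoImplicit false

namespace Pool.Agent.MP98850d.Bd

universe u v w

open Set Filter Topology Bundle

namespace TCAux

variable {X : Type u} [TopologicalSpace X]

/-- A positive lower bound. -/
theorem lower [CompactSpace X] (f : X → ℝ) (hf : Continuous f) (h0 : ∀ x, 0 < f x) :
    ∃ c : ℝ, 0 < c ∧ ∀ x, c ≤ f x := by
  rcases isEmpty_or_nonempty X with hX | hX
  · exact ⟨1, one_pos, fun x => (hX.false x).elim⟩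
  · obtain ⟨x0, -, hx0⟩ := isCompact_univ.exists_isMinOn (univ_nonempty (α := X)) hf.continuousOn
    exact ⟨f x0, h0 x0, fun x => hx0 (mem_univ x)⟩

/-- The integral of the density along the orbit. -/
noncomputable def W (φ : Flow ℝ X) (f : X → ℝ) (x : X) (r : ℝ) : ℝ := ∫ q in (0 : ℝ)..r, f (φ q x)

variable {φ : Flow ℝ X} {f : X → ℝ}

theorem cont1 (φ : Flow ℝ X) (hf : Continuous f) (x : X) : Continuous fun q => f (φ q x) :=
  hf.comp (φ.continuous continuous_id continuous_const)

theorem int1 (φ : Flow ℝ X) (hf : Continuous f) (x : X) (a b : ℝ) :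
    IntervalIntegrable (fun q => f (φ q x)) MeasureTheory.volume a b :=
  (cont1 φ hf x).intervalIntegrable a b

/-- `W` grows at least linearly. -/
theorem W_sub (hf : Continuous f) {c : ℝ} (hc : ∀ x, c ≤ f x) (x : X) {r r' : ℝ} (h : r' ≤ r) :
    c * (r - r') ≤ W φ f x r - W φ f x r' := by
  unfold W
  have h1 := intervalIntegral.integral_add_adjacent_intervals (int1 φ hf x 0 r') (int1 φ hf x r' r)
  have h2 : c * (r - r') = ∫ _ in r'..r, c := by
    rw [intervalIntegral.integral_const, smul_eq_mul, mul_comm]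
  have h3 : ∫ _ in r'..r, c ≤ ∫ q in r'..r, f (φ q x) :=
    intervalIntegral.integral_mono_on h (intervalIntegrable_const) (int1 φ hf x r' r)
      (fun q _ => hc _)
  rw [h2]
  linarith

theorem W_abs (hf : Continuous f) {c : ℝ} (hc : ∀ x, c ≤ f x) (x : X) (r r' : ℝ) :
    c * |r - r'| ≤ |W φ f x r - W φ f x r'| := by
  rcases le_total r' r with h | h
  · have h1 := W_sub (φ := φ) hf hc x h
    rw [abs_of_nonneg (sub_nonneg.2 h)]
    exact h1.trans (le_abs_self _)
  · have h1 := W_sub (φ := φ) hf hc x h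
    rw [abs_sub_comm r r', abs_sub_comm (W φ f x r), abs_of_nonneg (sub_nonneg.2 h)]
    exact h1.trans (le_abs_self _)

theorem W_zero (x : X) : W φ f x 0 = 0 := by
  unfold W
  exact intervalIntegral.integral_same

theorem W_inj (hf : Continuous f) {c : ℝ} (hc0 : 0 < c) (hc : ∀ x, c ≤ f x) (x : X) {r r' : ℝ}
    (h : W φ f x r = W φ f x r') : r = r' := by
  have h1 := W_abs (φ := φ) hf hc x r r'
  rw [h, sub_self, abs_zero] at h1
  have h2 : |r - r'| ≤ 0 := by
    by_contra h3
    push Not at h3
    have := mul_pos hc0 h3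
    linarith
  exact sub_eq_zero.1 (abs_nonpos_iff.1 h2)

theorem W_surj (hf : Continuous f) {c : ℝ} (hc0 : 0 < c) (hc : ∀ x, c ≤ f x) (x : X) :
    Function.Surjective (W φ f x) := by
  have hcont : Continuous (W φ f x) :=
    intervalIntegral.continuous_primitive (fun a b => int1 φ hf x a b) 0
  refine hcont.surjective ?_ ?_
  · refine tendsto_atTop_mono' atTop ?_ (tendsto_id.const_mul_atTop hc0)
    filter_upwards [eventually_ge_atTop (0 : ℝ)] with r hr
    have h1 := W_sub (φ := φ) hf hc x hr
    rw [W_zero, sub_zero, sub_zero] at h1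
    exact h1
  · refine tendsto_atBot_mono' atBot ?_ (tendsto_id.const_mul_atBot hc0)
    filter_upwards [eventually_le_atBot (0 : ℝ)] with r hr
    have h1 := W_sub (φ := φ) hf hc x hr
    rw [W_zero] at h1
    show W φ f x r ≤ c * id r
    simp only [id]
    linarith

/-- The cocycle relation. -/
theorem W_add (hf : Continuous f) (x : X) (a b : ℝ) :
    W φ f x (b + a) = W φ f x a + W φ f (φ a x) b := by
  unfold W
  have h1 : ∫ q in (0 : ℝ)..b, f (φ q (φ a x)) = ∫ q in a..(b + a), f (φ q x) := by
    have h2 : (fun q => f (φ q (φ a x))) = fun q => (fun q => f (φ q x)) (q + a) := by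
      funext q
      show f (φ q (φ a x)) = f (φ (q + a) x)
      rw [φ.map_add]
    rw [h2, intervalIntegral.integral_comp_add_right (fun q => f (φ q x)) a, zero_add]
  rw [h1]
  exact (intervalIntegral.integral_add_adjacent_intervals (int1 φ hf x 0 a)
    (int1 φ hf x a (b + a))).symm

theorem W_par (φ : Flow ℝ X) (hf : Continuous f) (r : ℝ) : Continuous fun x => W φ f x r := by
  unfold W
  refine intervalIntegral.continuous_parametric_intervalIntegral_of_continuous' ?_ 0 r
  exact hf.comp (φ.continuous continuous_snd continuous_fst)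

end TCAux

open TCAux in
theorem tTC : S_TC.{u} := by
  intro X _ _ φ f hf h0
  obtain ⟨c, hc0, hc⟩ := lower f hf h0
  choose r hr using fun (t : ℝ) (x : X) => W_surj (φ := φ) hf hc0 hc x t
  have hinj : ∀ x (a b : ℝ), W φ f x a = W φ f x b → a = b := fun x a b h => W_inj hf hc0 hc x h
  have hr0 : ∀ x, r 0 x = 0 := fun x => hinj x _ _ (by rw [hr, W_zero])
  have hadd : ∀ s t x, r (s + t) x = r s (φ (r t x) x) + r t x := by
    intro s t x
    refine hinj x _ _ ?_
    rw [hr, W_add hf, hr, hr, add_comm]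
  have hmono : ∀ x, StrictMono fun t => r t x := by
    intro x t t' htt
    by_contra h
    have h1 : r t' x ≤ r t x := not_lt.1 h
    have h2 := W_sub (φ := φ) hf hc x h1
    rw [hr, hr] at h2
    have h3 : 0 ≤ c * (r t x - r t' x) := mul_nonneg hc0.le (sub_nonneg.2 h1)
    linarith
  have hsurj : ∀ x, Function.Surjective fun t => r t x := fun x s =>
    ⟨W φ f x s, hinj x _ _ (hr _ _)⟩
  have hcont : Continuous fun z : ℝ × X => r z.1 z.2 := by
    rw [continuous_iff_continuousAt]
    rintro ⟨t0, x0⟩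
    have hg : Continuous fun z : ℝ × X => |z.1 - W φ f z.2 (r t0 x0)| / c :=
      ((continuous_fst.sub ((W_par φ hf (r t0 x0)).comp continuous_snd)).abs).div_const c
    have hg0 : |t0 - W φ f x0 (r t0 x0)| / c = 0 := by
      rw [hr, sub_self, abs_zero, zero_div]
    have hlim : Tendsto (fun z : ℝ × X => |z.1 - W φ f z.2 (r t0 x0)| / c) (𝓝 (t0, x0)) (𝓝 0) := by
      have := hg.tendsto (t0, x0)
      rwa [hg0] at this
    show Tendsto (fun z : ℝ × X => r z.1 z.2) (𝓝 (t0, x0)) (𝓝 (r t0 x0))
    rw [tendsto_iff_dist_tendsto_zero]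
    refine squeeze_zero (fun z => dist_nonneg) (fun z => ?_) hlim
    have h1 := W_abs (φ := φ) hf hc z.2 (r z.1 z.2) (r t0 x0)
    rw [hr] at h1
    rw [Real.dist_eq, le_div_iff₀ hc0]
    linarith
  let φ' : Flow ℝ X :=
    { toFun := fun t x => φ (r t x) x
      cont' := φ.continuous hcont continuous_snd
      map_add' := by
        intro s t x
        show φ (r (s + t) x) x = φ (r s (φ (r t x) x)) (φ (r t x) x)
        rw [hadd, φ.map_add]
      map_zero' := by
        intro x
        show φ (r 0 x) x = x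
        rw [hr0, φ.map_zero_apply] }
  exact ⟨φ', r, hmono, hr0, hsurj, fun t x => rfl, fun t x => hr t x⟩

end Pool.Agent.MP98850d.Bd
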