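import Pool.Agent.Lib.MP_98850d_an.Lim
import Pool.Agent.Lib.MP_98850d_an.Bd.Bal
import Pool.Agent.Lib.MP_98850d_an.Bd.LcB
import Pool.Agent.Lib.MP_98850d_an.Bd.Ind
import Pool.Agent.Lib.MP_98850d_an.Bd.CyA
import Pool.Agent.Lib.MP_98850d_an.Bd.Cyc
import Pool.Agent.Lib.MP_98850d_an.Bd.TC
import Pool.Agent.Lib.MP_98850d_an.Bd.Slw
import Pool.Agent.Lib.MP_98850d_an.Bd.Hom
import Pool.Agent.Lib.MP_98850d_an.Bd.Cov
import Pool.Agent.Lib.MP_98850d_an.Bd.Est
import Pool.Agent.Lib.MP_98850d_an.Bd.Stp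
import Pool.Agent.Lib.MP_98850d_an.Bd.Glu
import Pool.Agent.Lib.MP_98850d_an.Bd.Fin
import Pool.Agent.Lib.MP_98850d_an.Bd.Per

/-!
# MP_98850d_an, `Bd`: the assembly
-/

set_option autoImplicit false

namespace Pool.Agent.MP98850d.Bd

open Set Filter Topology Bundle

universe u v w

theorem main_Stp : S_Stp.{u, v, w} := tStp tCov (tEst (tCyc tCyA) tTC) tSlw tHom

theorem main_Fin : S_Fin.{u, v, w} := tFin tLim (tInd (tLcB tBal)) main_Stp

/-- bundles over a closed connected manifold, the fibre with a minimal flow whose oriented orbits are preserved -/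
theorem main_bundle (d : ℕ) (M : Type u) (B : Type v) (N : Type w) [TopologicalSpace M] [CompactSpace M]
    [TopologicalSpace.MetrizableSpace M] [TopologicalSpace B] [T2Space B] [CompactSpace B] [ConnectedSpace B]
    [ChartedSpace (EuclideanSpace ℝ (Fin d)) B] [TopologicalSpace N] [CompactSpace N]
    [TopologicalSpace.MetrizableSpace N] [Nonempty N] (p : M → B) (ψ : Flow ℝ N) (e : B → Trivialization N p)
    (hbs : ∀ b, b ∈ (e b).baseSet) (hfr : Fr ψ) (hmn : Mnm ψ) (hc : Compat ψ e) :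
    ∃ φ : Flow ℝ M, Mnm φ := by
  letI : MetricSpace M := TopologicalSpace.metrizableSpaceMetric M
  letI : MetricSpace N := TopologicalSpace.metrizableSpaceMetric N
  have hp : Continuous p := continuous_iff_continuousAt.2 fun x =>
    (e (p x)).continuousAt_proj ((e (p x)).mem_source.2 (hbs _))
  obtain ⟨φ, hv, ha⟩ := tGlu tCyA M B N p ψ e hp hfr hbs hc
  exact main_Fin d M B N p ψ e φ hp hfr hmn hbs hv ha

end Pool.Agent.MP98850d.Bd
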