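import Mathlib

/-!
# MP_98850d_an: bundles with a minimal fibre over an arbitrary closed connected manifold

`M → B` is a locally trivial bundle with fibre `N` over a closed connected manifold `B`, `ψ` is a minimal flow of
`N` without periodic points, and the transition maps send `ψ`-orbits to `ψ`-orbits and preserve their orientation.
Then `M` carries a minimal flow.

PROOF (overview).  `S_Glue`: there is a flow `φ` of `M` which maps every fibre to itself and is, in every chart,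
a positive time change of `id × ψ`.  The flows `g φ' g⁻¹`, `g` a homeomorphism of `M`, `φ'` a positive time
change of `φ`, form a class in which every member can be approximated by members all of whose orbits meet a given open set
(`S_Step`, `S_Ind`); the theorem `tLim` of `Lib/MP_98850d_an/Lim.lean` gives a minimal flow in the limit.
`S_Step` is one step: conjugation with `h (b, n) = (Y_(-s n) b, n)`, `Y` a flow of `B` supported in a chart and
`s : N → [0, 1]` slow along `ψ`.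

Statements with complete proofs in the docstrings.  `S_Xyz` is proved in `Bd/Xyz.lean` (theorem `tXyz`), other
statements are taken as hypotheses.
-/

set_option autoImplicit false

namespace Pool.Agent.MP98850d.Bd

open Set Filter Topology Bundle

universe u v w

/-- every orbit is dense -/
def Mnm {X : Type u} [TopologicalSpace X] (φ : Flow ℝ X) : Prop := ∀ x, Dense (range fun t => φ t x)

/-- no periodic points -/
def Fr {X : Type u} [TopologicalSpace X] (φ : Flow ℝ X) : Prop := ∀ t x, φ t x = x → t = 0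

/-- `φ'` is a positive time change of `φ` -/
def TCh {X : Type u} [TopologicalSpace X] (φ φ' : Flow ℝ X) : Prop :=
  ∃ r : ℝ → X → ℝ, (∀ x, StrictMono fun t => r t x) ∧ (∀ x, r 0 x = 0) ∧
    (∀ x, Function.Surjective fun t => r t x) ∧ ∀ t x, φ' t x = φ (r t x) x

/-- over the base set of `e`, `φ` is a positive time change of `id × ψ` -/
def Along {M : Type u} {B : Type v} {N : Type w} [TopologicalSpace M] [TopologicalSpace B]
    [TopologicalSpace N] (ψ : Flow ℝ N) {p : M → B} (e : Trivialization N p) (φ : Flow ℝ M) : Prop :=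
  (∀ x t, p x ∈ e.baseSet → 0 ≤ t → ∃ s, 0 ≤ s ∧ (e (φ t x)).2 = ψ s (e x).2) ∧
  ∀ x s, p x ∈ e.baseSet → 0 ≤ s → ∃ t, 0 ≤ t ∧ (e (φ t x)).2 = ψ s (e x).2

/-- the transition maps send `ψ`-orbits to `ψ`-orbits and preserve their orientation -/
def Compat {M : Type u} {B : Type v} {N : Type w} [TopologicalSpace M] [TopologicalSpace B]
    [TopologicalSpace N] (ψ : Flow ℝ N) {p : M → B} (e : B → Trivialization N p) : Prop :=
  ∀ b c x, p x ∈ (e b).baseSet → p x ∈ (e c).baseSet → ∀ t : ℝ, 0 ≤ t →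
    ∃ s, 0 ≤ s ∧ ((e c) ((e b).toOpenPartialHomeomorph.symm (p x, ψ t ((e b) x).2))).2 = ψ s ((e c) x).2

/-- `h` is the homeomorphism `(b, n) ↦ (Y (-(s n)) b, n)` over the chart `e`, and the identity outside `K` -/
def IsMv {M : Type u} {B : Type v} {N : Type w} [TopologicalSpace M] [TopologicalSpace B]
    [TopologicalSpace N] {p : M → B} (e : Trivialization N p) (K : Set B) (Y : Flow ℝ B) (s : N → ℝ)
    (h : M ≃ₜ M) : Prop :=
  (∀ x, p x ∉ K → h x = x ∧ h.symm x = x) ∧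
  ∀ x, p x ∈ e.baseSet →
    h x = e.toOpenPartialHomeomorph.symm (Y (-(s (e x).2)) (p x), (e x).2) ∧
    h.symm x = e.toOpenPartialHomeomorph.symm (Y (s (e x).2) (p x), (e x).2)

/-! ## Orbit equivalences are continuous -/

/-- (CyA) The time change of a continuous orbit equivalence is continuous.

PROOF.  (1) `a x t ≥ 0` for `t ≥ 0` from the first hypothesis: `q (φ t x) = ψ (a x t) (q x)`.  For `t < 0` apply this to
`φ t x` and `-t`: `q x = ψ s (q (φ t x))`, so `a x t = -s`.  By `Fr ψ` the number `a x t` is unique, so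
`a x (s + t) = a (φ t x) s + a x t` and `a x 0 = 0`.
(2) strictly monotone: by (1) it is enough that `a y t > 0` for `t > 0`.  Suppose `a y t = 0`, `t > 0`:
`q (φ t y) = ψ 0 (q y) = q y`, so `φ t y = y` (last hypothesis), `φ (k t) y = y` and `a y (k t) = 0` for all `k : ℕ`
(uniqueness).  For `0 ≤ T ≤ k t`: `0 = a y (k t) = a (φ T y) (k t - T) + a y T` with both terms `≥ 0`, so `a y T = 0`
for all `T ≥ 0`.  But by the second hypothesis there is `T ≥ 0` with `q (φ T y) = ψ 1 (q y)`, i.e. `a y T = 1`.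
(3) surjective: for `s ≥ 0` second hypothesis, for `s ≤ 0` the fourth.  `τ x` is the inverse of `a x`.
(4) `a` is continuous at `(x0, t0)`: by (1) (`a x (-t) = - a (φ (-t) x) t`) it is enough to take `t0 ≥ 0`
(and, for `t0 = 0`, `a x t = a (φ (-1) x) (t + 1) - a (φ (-1) x) 1` reduces to `t0 > 0`).  By monotonicity and as
`a x0` is a continuous bijection (a monotone surjection is continuous) it is enough that for every `t1 ≥ 0`
`x ↦ a x t1` is continuous at `x0`.  Let `F` be an ultrafilter `≤ 𝓝 x0`.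
Upper bound: let `b > a x0 t1` and suppose `a x t1 ≥ b` on a set of `F`; choose `u x ∈ [0, t1]`, `a x (u x) = b`
(`0 ≤ b`); `u → u0 ∈ [0, t1]` along `F` (compactness), so `ψ b (q x0) = lim q (φ (u x) x) = q (φ u0 x0) = ψ (a x0 u0) (q x0)`,
so `b = a x0 u0 ≤ a x0 t1`: contradiction.  Lower bound: let `b < a x0 t1` and suppose `0 ≤ a x t1 ≤ b` on a set of
`F`; `a x t1 → b0 ≤ b` along `F`, so `ψ b0 (q x0) = q (φ t1 x0) = ψ (a x0 t1) (q x0)`: contradiction.
(5) `τ` is continuous: for small `ε`: `a x0 (τ0 - ε) < u0 < a x0 (τ0 + ε)`, which stays true near `(x0, u0)`. -/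
def S_CyA : Prop :=
  ∀ (X : Type u) (N : Type w) [TopologicalSpace X] [TopologicalSpace N] [T2Space N] (ψ : Flow ℝ N)
    (φ : Flow ℝ X) (q : X → N), Fr ψ → Continuous q →
    (∀ x t, 0 ≤ t → ∃ s, 0 ≤ s ∧ q (φ t x) = ψ s (q x)) →
    (∀ x s, 0 ≤ s → ∃ t, 0 ≤ t ∧ q (φ t x) = ψ s (q x)) →
    (∀ x s, s ≤ 0 → ∃ t, t ≤ 0 ∧ q (φ t x) = ψ s (q x)) →
    (∀ x t, q (φ t x) = q x → φ t x = x) →
    ∃ a τ : X → ℝ → ℝ, Continuous (fun z : X × ℝ => a z.1 z.2) ∧ Continuous (fun z : X × ℝ => τ z.1 z.2) ∧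
      ∀ x, (∀ t, q (φ t x) = ψ (a x t) (q x)) ∧ StrictMono (a x) ∧ a x 0 = 0 ∧ (∀ t, τ x (a x t) = t) ∧
        (∀ r, a x (τ x r) = r) ∧ ∀ s t, a x (s + t) = a (φ t x) s + a x t

/-- (Cyc) The same in a chart.

PROOF.  `S_CyA` for the subspace `X = p ⁻¹' e.baseSet` (a subtype) with the restriction of `φ` and `q x = (e x).2`
(continuous on `e.source = p ⁻¹' e.baseSet`).  Third hypothesis (negative `s`): for `x' = e.symm (p x, ψ s (e x).2)` there is
`t ≥ 0` with `(e (φ t x')).2 = ψ (-s) (e x').2 = (e x).2` and `p (φ t x') = p x`, so `φ t x' = x`, `x' = φ (-t) x`.  Fourth: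
`e` is injective on its source.  Extend `a`, `τ` by `0` outside `p ⁻¹' e.baseSet` (open set: `e.open_source`). -/
def S_Cyc : Prop :=
  ∀ (M : Type u) (B : Type v) (N : Type w) [TopologicalSpace M] [TopologicalSpace B]
    [TopologicalSpace N] [T2Space N] (p : M → B) (ψ : Flow ℝ N) (e : Trivialization N p) (φ : Flow ℝ M),
    Fr ψ → (∀ t x, p (φ t x) = p x) → Along ψ e φ →
    ∃ a τ : M → ℝ → ℝ,
      ContinuousOn (fun z : M × ℝ => a z.1 z.2) ((p ⁻¹' e.baseSet) ×ˢ univ) ∧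
      ContinuousOn (fun z : M × ℝ => τ z.1 z.2) ((p ⁻¹' e.baseSet) ×ˢ univ) ∧
      ∀ x, p x ∈ e.baseSet → (∀ t, (e (φ t x)).2 = ψ (a x t) (e x).2) ∧ StrictMono (a x) ∧ a x 0 = 0 ∧
        (∀ t, τ x (a x t) = t) ∧ (∀ r, a x (τ x r) = r) ∧ ∀ s t, a x (s + t) = a (φ t x) s + a x t

/-! ## Time change by a continuous density -/

/-- (TC) PROOF.  `W x r = ∫ q in 0..r, f (φ q x)`.  `f ≥ c > 0` (compactness), so
`c |r - r'| ≤ |W x r - W x r'|`; `W x` is continuous, strictly monotone, onto; `W` is jointly continuous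
(`intervalIntegral.continuous_parametric_intervalIntegral_of_continuous`, after the substitution `q = r u`, or
the version with a variable end point).  `r t x` the solution of `W x (r t x) = t`.  Joint continuity:
`c |r t x - r t0 x0| ≤ |t - W x (r t0 x0)| → |t0 - W x0 (r t0 x0)| = 0`.
`W x (s + t) = W (φ t x) s + W x t`, so `r (s + t) x = r s (φ (r t x) x) + r t x`, and
`φ' t x = φ (r t x) x` is a flow. -/
def S_TC : Prop :=
  ∀ (X : Type u) [TopologicalSpace X] [CompactSpace X] (φ : Flow ℝ X) (f : X → ℝ), Continuous f →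
    (∀ x, 0 < f x) → ∃ (φ' : Flow ℝ X) (r : ℝ → X → ℝ), (∀ x, StrictMono fun t => r t x) ∧
      (∀ x, r 0 x = 0) ∧ (∀ x, Function.Surjective fun t => r t x) ∧ (∀ t x, φ' t x = φ (r t x) x) ∧
      ∀ t x, ∫ q in (0 : ℝ)..(r t x), f (φ q x) = t

/-! ## A slow function on the fibre -/

/-- (Slw) PROOF.  Let `n0 ∈ N`, `T = R + 1 / δ + 1`, `n1 = ψ T n0`.  `A0 = {ψ t n0 | 0 ≤ t ≤ R}` and
`A1 = {ψ t n1 | -1 / δ ≤ t ≤ R + 1 / δ}` are compact and disjoint (`Fr ψ`: `ψ t n0 = ψ (T + t') n0` gives `t = T + t'`, but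
`T + t' ≥ R + 1`).  `k : N → [0, 1]` continuous, `0` on `A0`, `1` on `A1` (`exists_continuous_zero_one_of_isClosed`).
`s n = min 1 (inf over |v| ≤ 1 / δ of k (ψ v n) + δ |v|)`, continuous by `IsCompact.continuous_sInf` (or `_sSup`).  It is also
the infimum over all `v : ℝ` (for `|v| ≥ 1 / δ` the term is `≥ 1`), so `s (ψ t n) ≤ s n + δ |t|` (replace `v` by
`v - t`), and by symmetry `|s (ψ t n) - s n| ≤ δ |t|`.  `s = 0` on `A0` (`v = 0`), and for `n = ψ t n1`, `0 ≤ t ≤ R`, all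
`ψ v n` with `|v| ≤ 1 / δ` are in `A1`, so `s n = 1`. -/
def S_Slw : Prop :=
  ∀ (N : Type w) [MetricSpace N] [CompactSpace N] [Nonempty N] (ψ : Flow ℝ N), Fr ψ →
    ∀ δ R : ℝ, 0 < δ → 0 < R →
    ∃ s : N → ℝ, Continuous s ∧ (∀ n, 0 ≤ s n ∧ s n ≤ 1) ∧ (∀ t n, |s (ψ t n) - s n| ≤ δ * |t|) ∧
      (∃ n0, ∀ t, 0 ≤ t → t ≤ R → s (ψ t n0) = 0) ∧ ∃ n1, ∀ t, 0 ≤ t → t ≤ R → s (ψ t n1) = 1

/-! ## Moving points of a manifold -/

/-- (Bal) Flows of `ℝ^d` supported in a ball.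

PROOF.  Translate and scale: `c = 0`, `ρ = 1` (conjugation with the homeomorphism `z ↦ c + ρ z`).
`κ : E → ball 0 1`, `κ y = (√(1 + ‖y‖^2))⁻¹ y`, is a homeomorphism (`Homeomorph.unitBall`, `OpenPartialHomeomorph.univUnitBall`)
with inverse `z ↦ (√(1 - ‖z‖^2))⁻¹ z`.  `v = κ⁻¹ y - κ⁻¹ x`, `Z t z = κ (κ⁻¹ z + t v)` for `‖z‖ < 1`, `Z t z = z` otherwise.
Flow properties are clear; `Z 1 x = y`.  Continuity at `(t0, z0)`: clear for `‖z0‖ < 1` (open set); clear from outside for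
`‖z0‖ > 1`; for `‖z0‖ = 1` use `‖Z t z - z‖ ≤ 2 |t| ‖v‖ √(1 - ‖z‖^2)`, for `‖z‖ < 1`, which tends to `0`: with
`y = κ⁻¹ z`, `1 / √(1 + ‖y‖^2) = √(1 - ‖z‖^2)`:
`κ (y + w) - κ y = w / √(1 + ‖y + w‖^2) + y (1 / √(1 + ‖y + w‖^2) - 1 / √(1 + ‖y‖^2))`, and
`|√(1 + ‖y + w‖^2) - √(1 + ‖y‖^2)| ≤ ‖w‖`, so `‖κ (y + w) - κ y‖ ≤ 2 ‖w‖ / √(1 + ‖y + w‖^2)` (use
`‖y‖ ≤ √(1 + ‖y‖^2)`), and by symmetry `≤ 2 ‖w‖ / √(1 + ‖y‖^2)`. -/
def S_Bal : Prop :=
  ∀ (d : ℕ) (c : EuclideanSpace ℝ (Fin d)) (ρ : ℝ), 0 < ρ → ∀ x ∈ Metric.ball c ρ, ∀ y ∈ Metric.ball c ρ,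
    ∃ Z : Flow ℝ (EuclideanSpace ℝ (Fin d)), (∀ t z, z ∉ Metric.ball c ρ → Z t z = z) ∧ Z 1 x = y

/-- (LcB) PROOF.  `χ = chartAt _ b`; `χ (χ.source ∩ U)` is an open neighbourhood of `c = χ b`
(`χ.isOpen_image_of_subset_source`), contains `closedBall c ρ`, `ρ > 0`.  `K = χ.symm '' closedBall c ρ` compact (so closed),
`O = χ.source ∩ χ ⁻¹' ball c ρ` open.  For `x, y ∈ O` take `Z` of `S_Bal` for `χ x`, `χ y`, and
`Y t z = χ.symm (Z t (χ z))` for `z ∈ χ.source`, `Y t z = z` otherwise.  `Z t` maps `ball c ρ` to itself (it is injective and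
the identity outside: if `Z t z ∉ ball` then `Z (-t) (Z t z) = Z t z`, so `z = Z t z`), so it maps `χ.target` to itself.
Continuity: on the open set `χ.source` composition (`χ.continuousOn`, `χ.symm`), and `Y t z = z` on the open set `Kᶜ`; these two
cover `B`. -/
def S_LcB : Prop :=
  ∀ (d : ℕ) (B : Type v) [TopologicalSpace B] [T2Space B] [ChartedSpace (EuclideanSpace ℝ (Fin d)) B]
    (b : B) (U : Set B), IsOpen U → b ∈ U →
    ∃ O K : Set B, IsOpen O ∧ b ∈ O ∧ IsCompact K ∧ K ⊆ U ∧ ∀ x ∈ O, ∀ y ∈ O,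
      ∃ Y : Flow ℝ B, (∀ t z, z ∉ K → Y t z = z) ∧ Y 1 x = y

/-- (Ind) An induction principle for compact sets.

PROOF.  A move is a homeomorphism `F = Y 1` of `B`, `Y` a flow supported in a compact `K ⊆ U i`.  The inverse of a move is
a move (`t ↦ Y (-t)`).  Let `R c b` mean: `b = F c` for a finite composition `F` of moves.  (1) if `R c b`,
`F` the composition, `C` compact with `P C` then there is a compact `C' ⊇ C ∪ F '' C` with `P C'` (induction on the number of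
moves: `F = F1 ∘ F0`: `C0 ⊇ C ∪ F0 '' C`, `C' = C0 ∪ F1 '' C0`).  (2) `R c b` for all `c`, `b`: the class
`{b | R c b}` is open and its complement is open by `S_LcB` with `U = U i` for some `i` with `b ∈ U i`; `B` is connected
(`IsClopen.eq_univ`).  (3) `C0` compact, `c ∈ interior C0`, `P C0`.  For every `b` a composition `F_b` with
`F_b c = b`; the open sets `F_b '' interior C0` cover `B`; finitely many, `F_1, …, F_k`.  By (1) compact sets
`C0 ⊆ C1 ⊆ … ⊆ Ck`, `F_j '' C_(j-1) ⊆ C_j`, `P (C_j)`; `C_k = B` as `F_j '' C0 ⊆ C_k`. -/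
def S_Ind : Prop :=
  ∀ (d : ℕ) (B : Type v) [TopologicalSpace B] [T2Space B] [CompactSpace B] [ConnectedSpace B]
    [ChartedSpace (EuclideanSpace ℝ (Fin d)) B] (U : B → Set B), (∀ b, IsOpen (U b)) → (∀ b, b ∈ U b) →
    ∀ P : Set B → Prop, (∃ C, IsCompact C ∧ (interior C).Nonempty ∧ P C) →
      (∀ C, IsCompact C → P C → ∀ (i : B) (K : Set B) (Y : Flow ℝ B), IsCompact K → K ⊆ U i →
        (∀ t z, z ∉ K → Y t z = z) → P (C ∪ (fun b => Y 1 b) '' C)) → P univ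

/-! ## One step -/

/-- (Hom) PROOF.  `Y t` maps `K` onto `K` (it is a bijection and the identity outside; see `S_LcB`).  Define
`H σ x = e.symm (Y (σ (s (e x).2)) (p x), (e x).2)` if `p x ∈ e.baseSet` and `H σ x = x` otherwise, `σ = -1, 1`.  If
`p x ∈ e.baseSet` then `p (H σ x) = Y _ (p x) ∈ e.baseSet` (it is in `K ⊆ e.baseSet` or it is `p x`), and
`(e (H σ x)).2 = (e x).2`; so `H 1` and `H (-1)` are inverse to each other (`Y t (Y (-t) z) = z`, `e.symm_apply_mk_proj`).  If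
`p x ∉ K`: `H σ x = x`.  Continuity: on the open set `p ⁻¹' e.baseSet = e.source` composition of continuous maps; on the open
set `p ⁻¹' Kᶜ` the identity (`K` closed: compact in a Hausdorff space); they cover `M`. -/
def S_Hom : Prop :=
  ∀ (M : Type u) (B : Type v) (N : Type w) [TopologicalSpace M] [TopologicalSpace B] [T2Space B]
    [TopologicalSpace N] (p : M → B) (e : Trivialization N p) (K : Set B) (Y : Flow ℝ B) (s : N → ℝ),
    Continuous p → IsCompact K → K ⊆ e.baseSet → (∀ t z, z ∉ K → Y t z = z) → Continuous s →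
    ∃ h : M ≃ₜ M, IsMv e K Y s h

/-- (Cov) PROOF.  `V' = {(b, n) | b ∈ e.baseSet, e.symm (b, n) ∈ V}` is open.  For `c ∈ C ∩ K` there is `n` with
`(c, n) ∈ V'` (take `x ∈ V`, `p x = c`, `n = (e x).2`), so by minimality for every `n'` there is `t` with
`(c, ψ t n') ∈ V'`; by compactness of `(C ∩ K) × N` there is `R0 > 0` such that `|t| ≤ R0` is possible for all `c`, `n'`;
with `ψ R0 n'` in place of `n'`: `0 ≤ t ≤ R = 2 R0`.  Let `s`, `h` be as in the statement, `c ∈ C`.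
`c ∉ K`: `x ∈ V`, `p x = c`, `h x = x ∈ V`; and `Y 1 c = c`.  `c ∈ K`: `(c, ψ t n0) ∈ V'`, `x = e.symm (c, ψ t n0)`,
`s (e x).2 = 0`, `h x = x ∈ V`, `p x = c`.  `(c, ψ t n1) ∈ V'`, `x = e.symm (Y 1 c, ψ t n1)` (`Y 1 c ∈ K`), `s (e x).2 = 1`,
`h x = e.symm (Y (-1) (Y 1 c), ψ t n1) ∈ V`, `p x = Y 1 c`. -/
def S_Cov : Prop :=
  ∀ (M : Type u) (B : Type v) (N : Type w) [TopologicalSpace M] [TopologicalSpace B] [T2Space B]
    [TopologicalSpace N] [CompactSpace N] (p : M → B) (ψ : Flow ℝ N) (e : Trivialization N p),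
    Mnm ψ → ∀ (K : Set B) (Y : Flow ℝ B), IsCompact K → K ⊆ e.baseSet → (∀ t z, z ∉ K → Y t z = z) →
    ∀ (V : Set M) (C : Set B), IsOpen V → IsCompact C → C ⊆ p '' V →
    ∃ R : ℝ, 0 < R ∧ ∀ (s : N → ℝ) (h : M ≃ₜ M), IsMv e K Y s h →
      (∃ n0, ∀ t, 0 ≤ t → t ≤ R → s (ψ t n0) = 0) → (∃ n1, ∀ t, 0 ≤ t → t ≤ R → s (ψ t n1) = 1) →
      C ∪ (fun b => Y 1 b) '' C ⊆ p '' (h ⁻¹' V)

/-- (Est) The estimate: the conjugate of a suitable time change is near `φ`.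

PROOF.  `a`, `τ` of `S_Cyc`; `W = p ⁻¹' K` compact; `E (b, n) = e.symm (b, n)`.  `κ ∈ (0, 1/6)` such that
`dist (φ t x) (φ t' x) ≤ ε / 2` for `|t| ≤ T`, `|t - t'| ≤ 3 κ`.  (a) `ρ > 0` with `τ y (a x ρ) ≥ T + 2`,
`τ y (a x (-ρ)) ≤ -(T + 2)` for `x, y ∈ W` (compactness, monotonicity).  (b) `η ∈ (0, 1]` with
`|τ y (a x q) - τ y (a x q')| ≤ κ` for `x, y ∈ W`, `|q|, |q'| ≤ ρ + 1`, `|q - q'| ≤ η`.  (c) `A' ≥ |a x q|`
(`x ∈ W`, `|q| ≤ ρ + 1`), `δ1 > 0` such that for `|θ| ≤ δ1`, `b ∈ K`, `n ∈ N`, `|r| ≤ A'`: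
`|τ (E (Y θ b, n)) r - τ (E (b, n)) r| ≤ κ η / (ρ + 1)` and `dist (E (Y θ b, n)) (E (b, n)) ≤ ε / 2`;
`δ = δ1 / (A' + 1)`.  Given `s`, `h`: `f x = η⁻¹ τ (h x) (a x η)` for `p x ∈ e.baseSet`, `f x = 1` otherwise; `f = 1`
outside `W`, `f` is continuous and positive; `φ'` from `S_TC`, `J x r = ∫ q in 0..r, f (φ q x)`.
If `p x' ∉ K`: `h.symm x' = x'`, `r t x' = t`, `h (φ t x') = φ t x'`.  Let `p x' = b' ∈ K`, `x = h.symm x'`,
`n = (e x').2 = (e x).2`, `G q = τ x' (a x q)`, `n_q = (e (φ q x)).2 = ψ (a x q) n`.  For `|q| ≤ ρ`: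
`h (φ q x) = E (Y (s n - s n_q) b', n_q)`, `|s n - s n_q| ≤ δ |a x q| ≤ δ1`; `E (b', n_q) = φ (G q) x'`;
`τ (φ (G q) x') (a (φ q x) η) = G (q + η) - G q`; so `|f (φ q x) - (G (q + η) - G q) / η| ≤ κ / (ρ + 1)`.
Integrate: for `|r| ≤ ρ`: `|J x r - η⁻¹ (∫ G over [r, r + η] - ∫ G over [0, η])| ≤ κ`, so `|J x r - G r| ≤ 3 κ`
(`G 0 = 0`).  So `J x r = t`, `|t| ≤ T` implies `|r| ≤ ρ` and `|t - G r| ≤ 3 κ`, and
`dist (h (φ' t x)) (φ t x') ≤ dist (E (Y (s n - s n_r) b', n_r)) (E (b', n_r)) + dist (φ (G r) x') (φ t x') ≤ ε`. -/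
def S_Est : Prop :=
  ∀ (M : Type u) (B : Type v) (N : Type w) [MetricSpace M] [CompactSpace M] [TopologicalSpace B]
    [T2Space B] [TopologicalSpace N] [T2Space N] [CompactSpace N] (p : M → B) (ψ : Flow ℝ N)
    (e : Trivialization N p) (φ : Flow ℝ M), Continuous p → Fr ψ → (∀ t x, p (φ t x) = p x) →
    Along ψ e φ → ∀ (K : Set B) (Y : Flow ℝ B), IsCompact K → K ⊆ e.baseSet →
    (∀ t z, z ∉ K → Y t z = z) → ∀ ε T : ℝ, 0 < ε →
    ∃ δ : ℝ, 0 < δ ∧ ∀ (s : N → ℝ) (h : M ≃ₜ M), Continuous s → (∀ n, 0 ≤ s n ∧ s n ≤ 1) →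
      (∀ t n, |s (ψ t n) - s n| ≤ δ * |t|) → IsMv e K Y s h →
      ∃ φ' : Flow ℝ M, TCh φ φ' ∧ ∀ t x, |t| ≤ T → dist (h (φ' t (h.symm x))) (φ t x) ≤ ε

/-- (Stp) One step.

PROOF.  `S_Cov`: `R`; `S_Est`: `δ`; `S_Slw`: `s`; `S_Hom`: `h`. -/
def S_Stp : Prop :=
  ∀ (M : Type u) (B : Type v) (N : Type w) [MetricSpace M] [CompactSpace M] [TopologicalSpace B]
    [T2Space B] [MetricSpace N] [CompactSpace N] [Nonempty N] (p : M → B) (ψ : Flow ℝ N)
    (e : Trivialization N p) (φ : Flow ℝ M), Continuous p → Fr ψ → Mnm ψ → (∀ t x, p (φ t x) = p x) →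
    Along ψ e φ → ∀ (K : Set B) (Y : Flow ℝ B), IsCompact K → K ⊆ e.baseSet →
    (∀ t z, z ∉ K → Y t z = z) → ∀ (V : Set M) (C : Set B), IsOpen V → IsCompact C → C ⊆ p '' V →
    ∀ ε T : ℝ, 0 < ε →
    ∃ (h : M ≃ₜ M) (φ' : Flow ℝ M), TCh φ φ' ∧
      (∀ t x, |t| ≤ T → dist (h (φ' t (h.symm x))) (φ t x) ≤ ε) ∧
      C ∪ (fun b => Y 1 b) '' C ⊆ p '' (h ⁻¹' V)

/-! ## The flow along the fibres -/

/-- (Glu) A flow of `M` along the leaves.

PROOF.  `U b = (e b).baseSet`.  For `p x ∈ U b` let `φ_b t x = (e b).symm (p x, ψ t ((e b) x).2)`, a flow of the subspace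
`p ⁻¹' U b`.  For `b, c` and `x` with `p x ∈ U b ∩ U c` let `A b c x t` be the number with
`((e c) (φ_b t x)).2 = ψ (A b c x t) ((e c) x).2`: `S_CyA` for `X = p ⁻¹' (U b ∩ U c)` (a subtype), the flow `φ_b` and
`q x = ((e c) x).2`; first hypothesis: `Compat ψ e` for `b, c`; second: `Compat` for `c, b`, applied to `x`
(for `s ≥ 0` the point `x'' = (e c).symm (p x, ψ s ((e c) x).2)` has `((e b) x'').2 = ψ t ((e b) x).2`, `t ≥ 0`, so
`x'' = φ_b t x`); third: for `s ≤ 0` and `x'' = (e c).symm (p x, ψ s ((e c) x).2)` one has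
`x = (e c).symm (p x'', ψ (-s) ((e c) x'').2)`, so by `Compat` for `c, b`: `((e b) x).2 = ψ t ((e b) x'').2`,
`t ≥ 0`, `x'' = φ_b (-t) x`; fourth: `e c` is injective.  So `A b c` is continuous on `p ⁻¹' (U b ∩ U c) × ℝ`,
strictly increasing and onto in `t`, `A b c x (s + t) = A b c (φ_b t x) s + A b c x t`; and by uniqueness
`A b k x t = A c k x (A b c x t)` for `p x ∈ U b ∩ U c ∩ U k`, and `φ_b t x = φ_c (A b c x t) x`.
`B` is compact: finitely many `U c`, `c ∈ I`, cover `B`; `r_c` (`c ∈ I`) a partition of unity on `B` with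
`tsupport r_c ⊆ U c` (`PartitionOfUnity.exists_isSubordinate`, `B` is normal).
`F b x t = ∑_(c ∈ I) r_c (p x) A b c x t` (terms with `p x ∉ U c` are `0`): continuous on `p ⁻¹' U b × ℝ`
(near `p x ∉ tsupport r_c` the term is `0`), strictly increasing, onto (it is continuous and tends to `± ∞`:
all `A b c x` are increasing and onto), `F b x (s + t) = F b (φ_b t x) s + F b x t`, `F b x t = F c x (A b c x t)`.  Let
`g b x t` be the inverse of `F b x`, continuous on `p ⁻¹' U b × ℝ` (as in `S_CyA` (5)).  `φ t x = φ_b (g b x t) x` for any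
`b` with `p x ∈ U b` (e.g. `b = p x`), independent of `b`: `F c x (A b c x (g b x t)) = t`.  It is continuous near
`p ⁻¹' U b`, and a flow: `g b x (s + t) = g b (φ_b (g b x t) x) s + g b x t`.
`((e b) (φ t x)).2 = ψ (g b x t) ((e b) x).2` gives `Along ψ (e b) φ`. -/
def S_Glu : Prop :=
  ∀ (M : Type u) (B : Type v) (N : Type w) [TopologicalSpace M] [TopologicalSpace B] [T2Space B]
    [CompactSpace B] [TopologicalSpace N] [T2Space N] (p : M → B) (ψ : Flow ℝ N)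
    (e : B → Trivialization N p), Continuous p → Fr ψ → (∀ b, b ∈ (e b).baseSet) → Compat ψ e →
    ∃ φ : Flow ℝ M, (∀ t x, p (φ t x) = p x) ∧ ∀ b, Along ψ (e b) φ

/-! ## The theorem -/

/-- (Fin) PROOF.  Class `𝓕`: the flows `g φ' g⁻¹`, `g : M ≃ₜ M`, `TCh φ φ'`.  Step (see `S_Lim` of `SpecB.lean`): let
`g φ' g⁻¹ ∈ 𝓕`, `U` open and nonempty, `ε > 0`, `T`.  For `C ⊆ B` let `P C` mean: for every `ε > 0` there are `g1`, `φ1`
with `TCh φ φ1`, `dist (g1 (φ1 t (g1.symm x))) (g (φ' t (g.symm x))) ≤ ε` for `|t| ≤ T`, and `C ⊆ p '' (g1 ⁻¹' U)`.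
`P C` for a small compact neighbourhood `C ⊆ p '' (g ⁻¹' U)` (an open set: `p` is an open map by local triviality; `B` is locally
compact).  `P C → P (C ∪ Y 1 '' C)` by `S_Stp` for `φ1` (`Along ψ (e i) φ1` follows from `TCh φ φ1`; also the fibres),
`V = g1 ⁻¹' U`: `h`, `φ2` with `TCh φ1 φ2`, `h φ2 h⁻¹` close to `φ1`; `g2 = g1 ∘ h`; `g1` is uniformly continuous; `TCh` is
transitive; `g2 ⁻¹' U = h ⁻¹' (g1 ⁻¹' U)`.  So `P univ` by `S_Ind`.  Then all orbits of `g1 φ1 g1⁻¹` meet `U`: for `x ∈ M` there is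
`y ∈ g1 ⁻¹' U` with `p y = p (g1.symm x)`; the `φ1`-orbit of `g1.symm x` is dense in its fibre (`Along`, `Mnm ψ`). -/
def S_Fin : Prop :=
  ∀ (d : ℕ) (M : Type u) (B : Type v) (N : Type w) [MetricSpace M] [CompactSpace M]
    [TopologicalSpace B] [T2Space B] [CompactSpace B] [ConnectedSpace B]
    [ChartedSpace (EuclideanSpace ℝ (Fin d)) B] [MetricSpace N] [CompactSpace N] [Nonempty N] (p : M → B)
    (ψ : Flow ℝ N) (e : B → Trivialization N p) (φ : Flow ℝ M), Continuous p → Fr ψ → Mnm ψ →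
    (∀ b, b ∈ (e b).baseSet) → (∀ t x, p (φ t x) = p x) → (∀ b, Along ψ (e b) φ) →
    ∃ φ' : Flow ℝ M, Mnm φ'

/-- (Per) A minimal flow with a periodic point: the space is a point or a circle.

PROOF.  `ψ t n = n`, `t ≠ 0`.  The orbit of `n` is the image of `[0, |t|]`, compact, so closed, and dense: it is `N`.  The set
`S = {r | ψ r n = n}` is a closed subgroup of `ℝ`, not `{0}`.  If `S = ℝ` then `N` is a point.  Otherwise `S = ℤ a`,
`a > 0` (`AddSubgroup.dense_or_cyclic`), and `r ↦ ψ r n` induces a continuous bijection `AddCircle a → N`, a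
homeomorphism (`Continuous.homeoOfEquivCompactToT2`); `AddCircle a ≃ₜ AddCircle 1` (`AddCircle.homeomorphAddCircle`). -/
def S_Per : Prop :=
  ∀ (N : Type w) [TopologicalSpace N] [T2Space N] [CompactSpace N] (ψ : Flow ℝ N), Mnm ψ → ¬ Fr ψ →
    Subsingleton N ∨ Nonempty (N ≃ₜ AddCircle (1 : ℝ))

end Pool.Agent.MP98850d.Bd
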