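import Pool.Agent.Lib.MP_98850d_an.Bd.Spec

/-!
# MP_98850d_an, `Bd`: one step
-/

set_option autoImplicit false

namespace Pool.Agent.MP98850d.Bd

open Set Filter Topology Bundle

universe u v w

theorem tStp (hCov : S_Cov.{u, v, w}) (hEst : S_Est.{u, v, w}) (hSlw : S_Slw.{w}) (hHom : S_Hom.{u, v, w}) :
    S_Stp.{u, v, w} := by
  intro M B N _ _ _ _ _ _ _ p ψ e φ hp hfr hmn hvert halong K Y hK hKU hY V C hV hC hCV ε T hε
  obtain ⟨R, hR, h1⟩ := hCov M B N p ψ e hmn K Y hK hKU hY V C hV hC hCV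
  obtain ⟨δ, hδ, h2⟩ := hEst M B N p ψ e φ hp hfr hvert halong K Y hK hKU hY ε T hε
  obtain ⟨s, hs, hs01, hsl, hs0, hs1⟩ := hSlw N ψ hfr δ R hδ hR
  obtain ⟨h, hmv⟩ := hHom M B N p e K Y s hp hK hKU hY hs
  obtain ⟨φ', htc, hd⟩ := h2 s h hs hs01 hsl hmv
  exact ⟨h, φ', htc, hd, h1 s h hmv hs0 hs1⟩

end Pool.Agent.MP98850d.Bd
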